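import Mathlib

/-! Biholomorphic self-maps of the plane are affine. -/

open Filter Topology Set Metric

namespace H73SK

/-- An entire function of at most linear growth is affine. -/
lemma affine_of_linear_growth {g : ℂ → ℂ} (hg : Differentiable ℂ g) {C : ℝ}
    (hC : ∀ x, ‖g x‖ ≤ C + ‖x‖) : ∃ b, ∀ x, g x = g 0 + b * x := by
  have hC0 : 0 ≤ C := by
    have := hC 0
    rw [norm_zero, add_zero] at this
    exact (norm_nonneg _).trans this
  have hbd : ∀ c, ‖deriv g c‖ ≤ C + 2 := by
    intro c
    have hR : 0 < 1 + ‖c‖ := by positivity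
    have h1 := Complex.norm_deriv_le_of_forall_mem_sphere_norm_le hR
      (hg.diffContOnCl) (C := C + (1 + 2 * ‖c‖)) (fun z hz => by
        refine (hC z).trans ?_
        have h2 : ‖z‖ ≤ ‖z - c‖ + ‖c‖ := by simpa using norm_add_le (z - c) c
        rw [mem_sphere, dist_eq_norm] at hz
        linarith)
    refine h1.trans ?_
    rw [div_le_iff₀ hR]
    nlinarith [norm_nonneg c]
  have hd : Differentiable ℂ (deriv g) := by
    intro x
    exact (hg.analyticAt x).deriv.differentiableAt
  have hconst : ∀ x, deriv g x = deriv g 0 := by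
    intro x
    apply hd.apply_eq_apply_of_bounded
    rw [isBounded_iff_forall_norm_le]
    exact ⟨C + 2, by rintro _ ⟨c, rfl⟩; exact hbd c⟩
  refine ⟨deriv g 0, fun x => ?_⟩
  have h3 : Differentiable ℂ fun x => g x - deriv g 0 * x := hg.sub (differentiable_id.const_mul _)
  have h4 : ∀ x, deriv (fun x => g x - deriv g 0 * x) x = 0 := by
    intro x
    have h5 : HasDerivAt (fun x => g x - deriv g 0 * x) (deriv g x - deriv g 0 * 1) x :=
      (hg x).hasDerivAt.sub ((hasDerivAt_id x).const_mul _)
    rw [h5.deriv, hconst x]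
    ring
  have h6 := is_const_of_deriv_eq_zero h3 h4 x 0
  simp only [mul_zero, sub_zero] at h6
  linear_combination h6

/-- An entire function with an entire inverse is affine. -/
theorem affine_of_inverse {σ τ : ℂ → ℂ} (hσ : Differentiable ℂ σ) (hτ : Differentiable ℂ τ)
    (h1 : ∀ x, τ (σ x) = x) : ∃ α β : ℂ, α ≠ 0 ∧ ∀ x, σ x = α * x + β := by
  have hinj : Function.Injective σ := Function.LeftInverse.injective h1
  set h : ℂ → ℂ := dslope σ 0 with hh
  have hd : Differentiable ℂ h := by
    rw [← differentiableOn_univ]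
    exact (Complex.differentiableOn_dslope univ_mem).2 hσ.differentiableOn
  have hne : ∀ x, h x ≠ 0 := by
    intro x
    rcases eq_or_ne x 0 with rfl | hx
    · rw [hh, dslope_same]
      intro h0
      have h2 : HasDerivAt (τ ∘ σ) (deriv τ (σ 0) * deriv σ 0) 0 :=
        (hτ (σ 0)).hasDerivAt.comp 0 (hσ 0).hasDerivAt
      have h3 : τ ∘ σ = id := funext h1
      rw [h3, h0, mul_zero] at h2
      exact one_ne_zero ((hasDerivAt_id (0 : ℂ)).unique h2)
    · rw [hh, dslope_of_ne _ hx, slope_def_field]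
      exact div_ne_zero (sub_ne_zero.2 fun h => hx (hinj h)) (sub_ne_zero.2 hx)
  set g : ℂ → ℂ := fun x => (h x)⁻¹ with hg
  have hgd : Differentiable ℂ g := hd.inv hne
  obtain ⟨C, hC⟩ : ∃ C, ∀ x ∈ τ '' closedBall (σ 0) 1, ‖g x‖ ≤ C :=
    ((isCompact_closedBall (σ 0) 1).image hτ.continuous).exists_bound_of_continuousOn
      hgd.continuous.continuousOn
  have hC0 : 0 ≤ C := (norm_nonneg _).trans (hC (τ (σ 0)) ⟨σ 0, mem_closedBall_self one_pos.le, rfl⟩)
  have hgrow : ∀ x, ‖g x‖ ≤ C + ‖x‖ := by
    intro x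
    by_cases hx : σ x ∈ closedBall (σ 0) 1
    · have := hC x ⟨σ x, hx, h1 x⟩
      linarith [norm_nonneg x]
    · rw [mem_closedBall, not_le, dist_eq_norm] at hx
      have hx0 : x ≠ 0 := by
        rintro rfl
        rw [sub_self, norm_zero] at hx
        linarith
      rw [hg]
      simp only
      rw [hh, dslope_of_ne _ hx0, slope_def_field, inv_div, norm_div, sub_zero]
      have : ‖x‖ / ‖σ x - σ 0‖ ≤ ‖x‖ := div_le_self (norm_nonneg _) hx.le
      linarith
  obtain ⟨b, hb⟩ := affine_of_linear_growth hgd hgrow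
  have hb0 : b = 0 := by
    by_contra hb0
    have h5 := hb (-(g 0) / b)
    rw [mul_div_cancel₀ _ hb0, add_neg_cancel] at h5
    exact inv_ne_zero (hne _) h5
  have hconst : ∀ x, h x = h 0 := by
    intro x
    have := hb x
    rw [hb0, zero_mul, add_zero] at this
    exact inv_injective this
  refine ⟨h 0, σ 0, hne 0, fun x => ?_⟩
  rcases eq_or_ne x 0 with rfl | hx
  · simp
  · have h6 : dslope σ 0 x = h 0 := hconst x
    rw [dslope_of_ne _ hx, slope_def_field, sub_zero] at h6
    rw [← h6, div_mul_cancel₀ _ hx]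
    ring

end H73SK
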