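import Mathlib

/-! Dense sequences of point masses in the complex plane. -/

namespace H73SK

/-- Distinct points `z k`, dense in `ℂ`, with masses `c k > 0` such that
`∑ c k (1 + log⁺ |z k|)` converges. -/
structure Data where
  /-- the points -/
  z : ℕ → ℂ
  /-- the masses -/
  c : ℕ → ℝ
  inj : Function.Injective z
  dense : DenseRange z
  pos : ∀ k, 0 < c k
  summable : Summable fun k => c k * (1 + Real.posLog ‖z k‖)

end H73SK
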