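import Mathlib
import Pool.Agent.H73.SK.DataDef

/-!
# Point masses on the line and the attached Hartogs domains

`D : Data` is a sequence of distinct points `z k`, dense in `ℂ`, with masses `c k > 0` and
`∑ c k (1 + log⁺ |z k|) < ∞`.  The weight is `W x = ∏ |x - z k| ^ c k` and the domain is
`{(x, w) : W x * ‖w‖ < 1}`.
-/

open Filter Topology Set Finset

namespace H73SK

/-- A gauge: a continuous function `V ≥ ‖·‖` vanishing at `0`. -/
structure Gauge {E : Type*} [NormedAddCommGroup E] (V : E → ℝ) : Prop where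
  cont : Continuous V
  zero : V 0 = 0
  norm_le : ∀ w, ‖w‖ ≤ V w

lemma Gauge.nonneg {E : Type*} [NormedAddCommGroup E] {V : E → ℝ} (hV : Gauge V) (w : E) :
    0 ≤ V w := (norm_nonneg w).trans (hV.norm_le w)

/-- the norm as a gauge -/
def nrm (E : Type*) [NormedAddCommGroup E] : E → ℝ := fun w => ‖w‖

lemma gauge_norm (E : Type*) [NormedAddCommGroup E] : Gauge (nrm E) :=
  ⟨continuous_norm, norm_zero, fun _ => le_rfl⟩

namespace Data

variable (D : Data)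

/-- The weight `W x = ∏ |x - z k| ^ c k`. -/
noncomputable def weight (x : ℂ) : ℝ := ∏' k, ‖x - D.z k‖ ^ D.c k

/-- The domain `{(x, w) ∈ ℂ × E : W x * V w < 1}` for a function `V` on `E`. -/
def dom {E : Type*} (V : E → ℝ) : Set (ℂ × E) := {p | D.weight p.1 * V p.2 < 1}

/-- The total mass. -/
noncomputable def mass : ℝ := ∑' k, D.c k

lemma summable_c : Summable D.c := by
  refine Summable.of_nonneg_of_le (fun k => (D.pos k).le) (fun k => ?_) D.summable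
  have := Real.posLog_nonneg (x := ‖D.z k‖)
  nlinarith [D.pos k]

lemma summable_cl : Summable fun k => D.c k * Real.posLog ‖D.z k‖ := by
  refine Summable.of_nonneg_of_le (fun k => ?_) (fun k => ?_) D.summable
  · have := Real.posLog_nonneg (x := ‖D.z k‖)
    have := D.pos k
    positivity
  · nlinarith [D.pos k]

/-- upper bound for `c k * log |x - z k|` on `|x| ≤ ρ`. -/
noncomputable def e (ρ : ℝ) (k : ℕ) : ℝ := D.c k * Real.posLog (ρ + ‖D.z k‖)

lemma e_nonneg (ρ : ℝ) (k : ℕ) : 0 ≤ D.e ρ k :=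
  mul_nonneg (D.pos k).le Real.posLog_nonneg

lemma summable_e (ρ : ℝ) : Summable (D.e ρ) := by
  have h1 : Summable fun k => D.c k * (Real.log 2 + Real.posLog ρ) + D.c k * Real.posLog ‖D.z k‖ :=
    (D.summable_c.mul_right _).add D.summable_cl
  refine Summable.of_nonneg_of_le (fun k => D.e_nonneg ρ k) (fun k => ?_) h1
  have h2 := Real.posLog_add (x := ρ) (y := ‖D.z k‖)
  unfold e
  have := D.pos k
  nlinarith

lemma factor_nonneg (x : ℂ) (k : ℕ) : 0 ≤ ‖x - D.z k‖ ^ D.c k :=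
  Real.rpow_nonneg (norm_nonneg _) _

lemma factor_le {ρ : ℝ} {x : ℂ} (hx : ‖x‖ ≤ ρ) (k : ℕ) :
    ‖x - D.z k‖ ^ D.c k ≤ Real.exp (D.e ρ k) := by
  rcases eq_or_lt_of_le (norm_nonneg (x - D.z k)) with h | h
  · rw [← h, Real.zero_rpow (D.pos k).ne']
    exact (Real.exp_pos _).le
  · rw [Real.rpow_def_of_pos h, mul_comm]
    apply Real.exp_le_exp.2
    apply mul_le_mul_of_nonneg_left _ (D.pos k).le
    have h1 : ‖x - D.z k‖ ≤ ρ + ‖D.z k‖ := (norm_sub_le _ _).trans (by linarith)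
    calc Real.log ‖x - D.z k‖ ≤ Real.posLog ‖x - D.z k‖ := by
          rw [Real.posLog_apply]; exact le_max_right _ _
      _ ≤ _ := Real.posLog_le_posLog h.le h1

/-- finite products -/
noncomputable def P (N : ℕ) (x : ℂ) : ℝ := ∏ k ∈ Finset.range N, ‖x - D.z k‖ ^ D.c k

/-- tails -/
noncomputable def T (ρ : ℝ) (N : ℕ) : ℝ := ∑' k, D.e ρ (k + N)

/-- decreasing upper bounds for the weight on `|x| ≤ ρ`. -/
noncomputable def U (ρ : ℝ) (N : ℕ) (x : ℂ) : ℝ := D.P N x * Real.exp (D.T ρ N)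

lemma P_nonneg (N : ℕ) (x : ℂ) : 0 ≤ D.P N x := Finset.prod_nonneg fun k _ => D.factor_nonneg x k

lemma U_nonneg (ρ : ℝ) (N : ℕ) (x : ℂ) : 0 ≤ D.U ρ N x :=
  mul_nonneg (D.P_nonneg N x) (Real.exp_pos _).le

lemma T_succ (ρ : ℝ) (N : ℕ) : D.T ρ N = D.e ρ N + D.T ρ (N + 1) := by
  unfold T
  have h : Summable fun k => D.e ρ (k + N) := (summable_nat_add_iff N).2 (D.summable_e ρ)
  rw [h.tsum_eq_zero_add]
  simp [add_assoc, add_comm 1 N]

lemma T_nonneg (ρ : ℝ) (N : ℕ) : 0 ≤ D.T ρ N := tsum_nonneg fun _ => D.e_nonneg _ _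

lemma T_tendsto (ρ : ℝ) : Tendsto (D.T ρ) atTop (𝓝 0) := tendsto_sum_nat_add _

lemma U_succ_le {ρ : ℝ} {x : ℂ} (hx : ‖x‖ ≤ ρ) (N : ℕ) : D.U ρ (N + 1) x ≤ D.U ρ N x := by
  unfold U P
  rw [Finset.prod_range_succ, D.T_succ ρ N, Real.exp_add, mul_assoc]
  apply mul_le_mul_of_nonneg_left _ (D.P_nonneg N x)
  exact mul_le_mul_of_nonneg_right (D.factor_le hx N) (Real.exp_pos _).le

lemma U_antitone {ρ : ℝ} {x : ℂ} (hx : ‖x‖ ≤ ρ) : Antitone fun N => D.U ρ N x :=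
  antitone_nat_of_succ_le fun N => D.U_succ_le hx N

lemma P_continuous (N : ℕ) : Continuous (D.P N) := by
  unfold P
  refine continuous_finsetProd _ fun k _ => ?_
  exact (Continuous.norm (by fun_prop)).rpow_const fun x => Or.inr (D.pos k).le

lemma U_continuous (ρ : ℝ) (N : ℕ) : Continuous (D.U ρ N) :=
  (D.P_continuous N).mul continuous_const

/-- The product defining the weight converges unconditionally. -/
lemma hasProd_weight (x : ℂ) : HasProd (fun k => ‖x - D.z k‖ ^ D.c k) (D.weight x) := by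
  set q : ℕ → ℝ := fun k => ‖x - D.z k‖ ^ D.c k * Real.exp (-D.e ‖x‖ k) with hq
  have hq0 : ∀ k, 0 ≤ q k := fun k => mul_nonneg (D.factor_nonneg x k) (Real.exp_pos _).le
  have hq1 : ∀ k, q k ≤ 1 := by
    intro k
    have h := mul_le_mul_of_nonneg_right (D.factor_le (le_refl ‖x‖) k)
      (Real.exp_pos (-D.e ‖x‖ k)).le
    rw [← Real.exp_add, add_neg_cancel, Real.exp_zero] at h
    exact h
  have hanti : Antitone fun s : Finset ℕ => ∏ k ∈ s, q k := by
    intro s t hst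
    exact Finset.prod_le_prod_of_subset_of_le_one hst (fun k _ => hq0 k) (fun k _ _ => hq1 k)
  have hb : BddBelow (Set.range fun s : Finset ℕ => ∏ k ∈ s, q k) := by
    refine ⟨0, ?_⟩
    rintro _ ⟨s, rfl⟩
    exact Finset.prod_nonneg fun k _ => hq0 k
  have h1 : HasProd q (⨅ s : Finset ℕ, ∏ k ∈ s, q k) := by
    have := tendsto_atTop_ciInf hanti hb
    simpa [HasProd, SummationFilter.unconditional_filter] using this
  have h2 : HasProd (fun k => Real.exp (D.e ‖x‖ k)) (Real.exp (∑' k, D.e ‖x‖ k)) :=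
    (D.summable_e ‖x‖).hasSum.rexp
  have h3 := h1.mul h2
  have h4 : (fun k => q k * Real.exp (D.e ‖x‖ k)) = fun k => ‖x - D.z k‖ ^ D.c k := by
    funext k
    rw [hq]
    simp only
    rw [mul_assoc, ← Real.exp_add, neg_add_cancel, Real.exp_zero, mul_one]
  rw [h4] at h3
  have h5 : D.weight x = (⨅ s : Finset ℕ, ∏ k ∈ s, q k) * Real.exp (∑' k, D.e ‖x‖ k) :=
    h3.tprod_eq
  rw [h5]
  exact h3

lemma P_tendsto (x : ℂ) : Tendsto (fun N => D.P N x) atTop (𝓝 (D.weight x)) :=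
  (D.hasProd_weight x).tendsto_prod_nat

lemma U_tendsto (ρ : ℝ) (x : ℂ) : Tendsto (fun N => D.U ρ N x) atTop (𝓝 (D.weight x)) := by
  have h1 : Tendsto (fun N => Real.exp (D.T ρ N)) atTop (𝓝 (Real.exp 0)) :=
    (Real.continuous_exp.tendsto 0).comp (D.T_tendsto ρ)
  have h2 := (D.P_tendsto x).mul h1
  rw [Real.exp_zero, mul_one] at h2
  exact h2

lemma weight_nonneg (x : ℂ) : 0 ≤ D.weight x :=
  ge_of_tendsto' (D.P_tendsto x) fun N => D.P_nonneg N x

lemma weight_le_U {ρ : ℝ} {x : ℂ} (hx : ‖x‖ ≤ ρ) (N : ℕ) : D.weight x ≤ D.U ρ N x :=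
  le_of_tendsto (D.U_tendsto ρ x) (eventually_atTop.2 ⟨N, fun _ hM => D.U_antitone hx hM⟩)

lemma weight_z (k : ℕ) : D.weight (D.z k) = 0 := by
  have h := D.P_tendsto (D.z k)
  have h0 : ∀ᶠ N in atTop, D.P N (D.z k) = 0 := by
    filter_upwards [eventually_gt_atTop k] with N hN
    unfold P
    apply Finset.prod_eq_zero (Finset.mem_range.2 hN)
    rw [sub_self, norm_zero, Real.zero_rpow (D.pos k).ne']
  exact tendsto_nhds_unique h (tendsto_const_nhds.congr' (h0.mono fun _ h => h.symm))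

section dom

variable {E : Type*} [NormedAddCommGroup E] {V : E → ℝ}

omit [NormedAddCommGroup E] in
lemma mem_dom {p : ℂ × E} : p ∈ D.dom V ↔ D.weight p.1 * V p.2 < 1 := Iff.rfl

lemma mem_dom_of_U (hV : Gauge V) {ρ : ℝ} {N : ℕ} {p : ℂ × E} (hx : ‖p.1‖ ≤ ρ)
    (h : D.U ρ N p.1 * V p.2 < 1) : p ∈ D.dom V :=
  (mul_le_mul_of_nonneg_right (D.weight_le_U hx N) (hV.nonneg _)).trans_lt h

omit [NormedAddCommGroup E] in
lemma exists_U_lt {ρ : ℝ} {p : ℂ × E} (h : p ∈ D.dom V) : ∃ N, D.U ρ N p.1 * V p.2 < 1 := by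
  have h1 : Tendsto (fun N => D.U ρ N p.1 * V p.2) atTop (𝓝 (D.weight p.1 * V p.2)) :=
    (D.U_tendsto ρ p.1).mul_const _
  exact (h1.eventually_lt_const h).exists

lemma continuous_UV (hV : Gauge V) (ρ : ℝ) (N : ℕ) :
    Continuous fun q : ℂ × E => D.U ρ N q.1 * V q.2 :=
  ((D.U_continuous _ _).comp continuous_fst).mul (hV.cont.comp continuous_snd)

lemma isOpen_dom (hV : Gauge V) : IsOpen (D.dom V) := by
  rw [isOpen_iff_mem_nhds]
  intro p hp
  obtain ⟨N, hN⟩ := D.exists_U_lt (ρ := ‖p.1‖ + 1) hp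
  have h1 : ∀ᶠ q : ℂ × E in 𝓝 p, D.U (‖p.1‖ + 1) N q.1 * V q.2 < 1 :=
    (D.continuous_UV hV _ _).continuousAt.eventually_lt_const hN
  have h2 : ∀ᶠ q : ℂ × E in 𝓝 p, ‖q.1‖ < ‖p.1‖ + 1 := by
    have hc : Continuous fun q : ℂ × E => ‖q.1‖ := continuous_fst.norm
    exact hc.continuousAt.eventually_lt_const (by simp)
  filter_upwards [h1, h2] with q hq1 hq2
  exact D.mem_dom_of_U hV hq2.le hq1

/-- uniform version on compact sets -/
lemma exists_U_lt_of_compact (hV : Gauge V) {ρ : ℝ} {K : Set (ℂ × E)} (hK : IsCompact K)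
    (hKD : K ⊆ D.dom V) (hρ : ∀ p ∈ K, ‖p.1‖ ≤ ρ) : ∃ N, ∀ p ∈ K, D.U ρ N p.1 * V p.2 < 1 := by
  have hopen : ∀ N : ℕ, IsOpen {p : ℂ × E | D.U ρ N p.1 * V p.2 < 1} := fun N =>
    isOpen_lt (D.continuous_UV hV ρ N) continuous_const
  obtain ⟨t, ht⟩ := hK.elim_finite_subcover (fun N : ℕ => {p : ℂ × E | D.U ρ N p.1 * V p.2 < 1})
    hopen (fun p hp => by
      obtain ⟨N, hN⟩ := D.exists_U_lt (ρ := ρ) (hKD hp)
      exact Set.mem_iUnion.2 ⟨N, hN⟩)
  refine ⟨t.sup id, fun p hp => ?_⟩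
  obtain ⟨N, hNt, hN⟩ := Set.mem_iUnion₂.1 (ht hp)
  have h1 : N ≤ t.sup id := Finset.le_sup (f := id) hNt
  exact (mul_le_mul_of_nonneg_right (D.U_antitone (hρ p hp) h1) (hV.nonneg _)).trans_lt hN

lemma mem_dom_zero (hV : Gauge V) (x : ℂ) : ((x, 0) : ℂ × E) ∈ D.dom V := by
  rw [mem_dom]; simp [hV.zero]

omit [NormedAddCommGroup E] in
lemma mem_dom_z (k : ℕ) (w : E) : ((D.z k, w) : ℂ × E) ∈ D.dom V := by
  rw [mem_dom]; simp [D.weight_z]

omit [NormedAddCommGroup E] in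
lemma mem_dom_of_weight {x : ℂ} (hx : D.weight x = 0) (w : E) : ((x, w) : ℂ × E) ∈ D.dom V := by
  rw [mem_dom]; simp [hx]

lemma norm_lt_of_mem (hV : Gauge V) {p : ℂ × E} (hp : p ∈ D.dom V) :
    D.weight p.1 * ‖p.2‖ < 1 :=
  (mul_le_mul_of_nonneg_left (hV.norm_le _) (D.weight_nonneg _)).trans_lt hp

end dom

end Data

lemma mem_nrm {E : Type*} [NormedAddCommGroup E] {D : Data} {p : ℂ × E} :
    p ∈ D.dom (nrm E) ↔ D.weight p.1 * ‖p.2‖ < 1 := Iff.rfl

end H73SK
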