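import Mathlib
import Pool.Agent.H73.SK.Weight

/-! The rigid gauge `V w = (∑ |w i|² (1 + |w i / b i - 1|²)) ^ (1/2)`. -/

open Filter Topology Set Metric

namespace H73SK

variable {m : ℕ}

/-- the bilinear map `(v i * w i / b i)` -/
noncomputable def qb (b : Fin m → ℝ) (v w : EuclideanSpace ℂ (Fin m)) :
    EuclideanSpace ℂ (Fin m) :=
  WithLp.toLp 2 fun i => v i * w i / (b i : ℂ)

@[simp] lemma qb_apply (b : Fin m → ℝ) (v w : EuclideanSpace ℂ (Fin m)) (i : Fin m) :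
    qb b v w i = v i * w i / (b i : ℂ) := rfl

/-- the embedding `w ↦ (w i, w i (w i / b i - 1))` -/
noncomputable def Th (b : Fin m → ℝ) (w : EuclideanSpace ℂ (Fin m)) :
    EuclideanSpace ℂ (Fin m ⊕ Fin m) :=
  WithLp.toLp 2 (Sum.elim (fun i => w i) fun i => w i * (w i / (b i : ℂ) - 1))

/-- the rigid gauge -/
noncomputable def Vq (b : Fin m → ℝ) (w : EuclideanSpace ℂ (Fin m)) : ℝ := ‖Th b w‖

variable {b : Fin m → ℝ}

lemma Vq_nonneg (w : EuclideanSpace ℂ (Fin m)) : 0 ≤ Vq b w := norm_nonneg _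

lemma Vq_sq_sum (w : EuclideanSpace ℂ (Fin m)) :
    Vq b w ^ 2 = ∑ i, ‖w i‖ ^ 2 * (1 + ‖w i / (b i : ℂ) - 1‖ ^ 2) := by
  unfold Vq Th
  rw [EuclideanSpace.norm_sq_eq, Fintype.sum_sum_type, ← Finset.sum_add_distrib]
  apply Finset.sum_congr rfl
  intro i _
  simp only [Sum.elim_inl, Sum.elim_inr, norm_mul]
  ring

lemma Vq_sq (w : EuclideanSpace ℂ (Fin m)) :
    Vq b w ^ 2 = ‖w‖ ^ 2 + ‖qb b w w - w‖ ^ 2 := by
  rw [Vq_sq_sum, EuclideanSpace.norm_sq_eq, EuclideanSpace.norm_sq_eq, ← Finset.sum_add_distrib]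
  apply Finset.sum_congr rfl
  intro i _
  have h1 : (qb b w w - w) i = w i * (w i / (b i : ℂ) - 1) := by
    simp only [PiLp.sub_apply, qb_apply]
    ring
  rw [h1, norm_mul]
  ring

lemma differentiable_Th : Differentiable ℂ (Th b) := by
  rw [differentiable_euclidean]
  rintro (i | i)
  · change Differentiable ℂ fun w : EuclideanSpace ℂ (Fin m) => w i
    fun_prop
  · change Differentiable ℂ fun w : EuclideanSpace ℂ (Fin m) => w i * (w i / (b i : ℂ) - 1)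
    fun_prop

lemma contDiff_Vq_sq : ContDiff ℝ (⊤ : ℕ∞) fun w => Vq b w ^ 2 := by
  have h : (fun w => Vq b w ^ 2) =
      fun w : EuclideanSpace ℂ (Fin m) => ∑ i, ‖w i‖ ^ 2 * (1 + ‖w i / (b i : ℂ) - 1‖ ^ 2) :=
    funext Vq_sq_sum
  rw [h]
  apply ContDiff.sum
  intro i _
  have h1 : ContDiff ℝ (⊤ : ℕ∞) fun w : EuclideanSpace ℂ (Fin m) => w i := by fun_prop
  have h2 : ContDiff ℝ (⊤ : ℕ∞) fun w : EuclideanSpace ℂ (Fin m) => w i / (b i : ℂ) - 1 := by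
    fun_prop
  exact ((contDiff_norm_sq ℝ).comp h1).mul (contDiff_const.add ((contDiff_norm_sq ℝ).comp h2))

lemma gauge_Vq : Gauge (Vq b) := by
  refine ⟨?_, ?_, ?_⟩
  · exact differentiable_Th.continuous.norm
  · have h0 : Vq b 0 ^ 2 = 0 := by
      rw [Vq_sq_sum]
      simp
    exact pow_eq_zero_iff (two_ne_zero) |>.1 h0
  · intro w
    apply abs_le_of_sq_le_sq' _ (Vq_nonneg w) |>.2
    rw [Vq_sq]
    nlinarith [sq_nonneg ‖qb b w w - w‖]

/-- the one variable inequality -/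
lemma ray_lt {r s c : ℝ} (hr : 0 ≤ r) (hrs : r < s) (hc : |c| ≤ 1) :
    r ^ 2 * (2 + r ^ 2 - 2 * r * c) < s ^ 2 * (2 + s ^ 2 - 2 * s * c) := by
  obtain ⟨h1, h2⟩ := abs_le.1 hc
  have hs : 0 < s := hr.trans_lt hrs
  have key : 0 < 2 * (s + r) + (s + r) * (s ^ 2 + r ^ 2) - 2 * c * (s ^ 2 + s * r + r ^ 2) := by
    have h3 : 0 ≤ s ^ 2 + s * r + r ^ 2 := by positivity
    have h4 : 2 * c * (s ^ 2 + s * r + r ^ 2) ≤ 2 * (s ^ 2 + s * r + r ^ 2) := by nlinarith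
    have h5 : 0 < 2 * (s + r) + (s + r) * (s ^ 2 + r ^ 2) - 2 * (s ^ 2 + s * r + r ^ 2) := by
      have h6 : 0 < s + r := by linarith
      have h7 : 2 * (s + r) + (s + r) * (s ^ 2 + r ^ 2) - 2 * (s ^ 2 + s * r + r ^ 2) =
        (s + r) * ((s + r) ^ 2 - 2 * (s + r) + 2) - 2 * (s * r) * ((s + r) - 1) := by ring
      rw [h7]
      have h8 : 0 ≤ s * r := mul_nonneg hs.le hr
      rcases le_total (s + r) 1 with h | h
      · have h9 : 0 ≤ -(2 * (s * r) * ((s + r) - 1)) := by nlinarith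
        have h10 : 0 < (s + r) * ((s + r) ^ 2 - 2 * (s + r) + 2) := by
          apply mul_pos h6
          nlinarith [sq_nonneg (s + r - 1)]
        linarith
      · have h9 : s * r ≤ (s + r) ^ 2 / 4 := by nlinarith [sq_nonneg (s - r)]
        have h10 : 2 * (s * r) * ((s + r) - 1) ≤ 2 * ((s + r) ^ 2 / 4) * ((s + r) - 1) := by
          apply mul_le_mul_of_nonneg_right _ (by linarith)
          linarith
        have h11 : 0 < (s + r) * ((s + r) ^ 2 - 3 * (s + r) + 4) := by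
          apply mul_pos h6
          nlinarith [sq_nonneg (s + r - 3 / 2)]
        nlinarith
    linarith
  nlinarith [mul_pos (sub_pos.2 hrs) key]

/-- the one variable gauge, squared -/
noncomputable def N1 (b : ℝ) (u : ℂ) : ℝ := ‖u‖ ^ 2 * (1 + ‖u / (b : ℂ) - 1‖ ^ 2)

lemma N1_eq {b : ℝ} (hb : 0 < b) (u : ℂ) :
    N1 b u = b ^ 2 * (‖u / b‖ ^ 2 * (2 + ‖u / b‖ ^ 2 - 2 * (u / b).re)) := by
  have hbc : (b : ℂ) ≠ 0 := by exact_mod_cast hb.ne'
  have h1 : ‖u‖ = b * ‖u / b‖ := by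
    rw [norm_div, Complex.norm_real, Real.norm_eq_abs, abs_of_pos hb]
    field_simp
  have h2 : ‖u / (b : ℂ) - 1‖ ^ 2 = ‖u / b‖ ^ 2 - 2 * (u / b).re + 1 := by
    rw [← Complex.normSq_eq_norm_sq, ← Complex.normSq_eq_norm_sq, Complex.normSq_apply,
      Complex.normSq_apply]
    simp only [Complex.sub_re, Complex.one_re, Complex.sub_im, Complex.one_im]
    ring
  unfold N1
  rw [h2, h1]
  ring

lemma N1_smul_lt {b : ℝ} (hb : 0 < b) {u : ℂ} (hu : u ≠ 0) {t : ℝ} (ht0 : 0 ≤ t) (ht1 : t < 1) :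
    N1 b (t * u) < N1 b u := by
  have hbc : (b : ℂ) ≠ 0 := by exact_mod_cast hb.ne'
  set v : ℂ := u / b with hv
  have hv0 : v ≠ 0 := div_ne_zero hu hbc
  have hvpos : 0 < ‖v‖ := norm_pos_iff.2 hv0
  have htv : t * u / b = t * v := by rw [hv]; ring
  rw [N1_eq hb, N1_eq hb, htv, ← hv]
  have h1 : ‖(t : ℂ) * v‖ = t * ‖v‖ := by
    rw [norm_mul, Complex.norm_real, Real.norm_eq_abs, abs_of_nonneg ht0]
  have h2 : ((t : ℂ) * v).re = t * v.re := by simp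
  rw [h1, h2]
  apply mul_lt_mul_of_pos_left _ (by positivity)
  set c : ℝ := v.re / ‖v‖ with hc
  have hc1 : |c| ≤ 1 := by
    rw [hc, abs_div, abs_norm, div_le_one hvpos]
    exact Complex.abs_re_le_norm v
  have hre : v.re = ‖v‖ * c := by rw [hc]; field_simp
  have h3 := ray_lt (r := t * ‖v‖) (s := ‖v‖) (c := c) (by positivity)
    (by nlinarith) hc1
  rw [hre]
  calc (t * ‖v‖) ^ 2 * (2 + (t * ‖v‖) ^ 2 - 2 * (t * (‖v‖ * c)))
      = (t * ‖v‖) ^ 2 * (2 + (t * ‖v‖) ^ 2 - 2 * (t * ‖v‖) * c) := by ring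
    _ < ‖v‖ ^ 2 * (2 + ‖v‖ ^ 2 - 2 * ‖v‖ * c) := h3
    _ = _ := by ring

lemma N1_smul_le {b : ℝ} (hb : 0 < b) (u : ℂ) {t : ℝ} (ht0 : 0 ≤ t) (ht1 : t ≤ 1) :
    N1 b (t * u) ≤ N1 b u := by
  rcases eq_or_ne u 0 with rfl | hu
  · simp
  rcases eq_or_lt_of_le ht1 with rfl | ht
  · simp
  exact (N1_smul_lt hb hu ht0 ht).le

lemma Vq_sq_N1 (w : EuclideanSpace ℂ (Fin m)) : Vq b w ^ 2 = ∑ i, N1 (b i) (w i) := Vq_sq_sum w

lemma Vq_sq_smul_lt (hb : ∀ i, 0 < b i) {w : EuclideanSpace ℂ (Fin m)} (hw : w ≠ 0) {t : ℝ}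
    (ht0 : 0 ≤ t) (ht1 : t < 1) : Vq b ((t : ℂ) • w) ^ 2 < Vq b w ^ 2 := by
  rw [Vq_sq_N1, Vq_sq_N1]
  obtain ⟨i, hi⟩ : ∃ i, w i ≠ 0 := by
    by_contra h
    push Not at h
    exact hw (by ext i; simpa using h i)
  apply Finset.sum_lt_sum
  · intro j _
    simpa using N1_smul_le (hb j) (w j) ht0 ht1.le
  · exact ⟨i, Finset.mem_univ i, by simpa using N1_smul_lt (hb i) hi ht0 ht1⟩

lemma Vq_ray (hb : ∀ i, 0 < b i) (w : EuclideanSpace ℂ (Fin m)) (t : ℝ) (ht0 : 0 ≤ t)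
    (ht1 : t ≤ 1) : Vq b (t • w) ≤ Vq b w := by
  apply abs_le_of_sq_le_sq' _ (Vq_nonneg w) |>.2
  rw [Vq_sq_N1, Vq_sq_N1]
  apply Finset.sum_le_sum
  intro j _
  simpa using N1_smul_le (hb j) (w j) ht0 ht1

/-- quadratic growth of a gauge -/
def QuadGrowth {E : Type*} [NormedAddCommGroup E] (V : E → ℝ) : Prop :=
  ∃ C1 > 0, ∃ C2 > 0, ∀ w, ‖w‖ ^ 2 ≤ C1 * V w ∧ V w ≤ C2 * (1 + ‖w‖) ^ 2

lemma quadGrowth_Vq (hb : ∀ i, 0 < b i) : QuadGrowth (Vq b) := by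
  set S : ℝ := ∑ i, b i with hS
  set S' : ℝ := ∑ i, (b i)⁻¹ with hS'
  have hS0 : 0 ≤ S := Finset.sum_nonneg fun i _ => (hb i).le
  have hS'0 : 0 ≤ S' := Finset.sum_nonneg fun i _ => (inv_pos.2 (hb i)).le
  have hcomp : ∀ (w : EuclideanSpace ℂ (Fin m)) (i : Fin m),
      ‖qb b w w i‖ = ‖w i‖ ^ 2 / b i := by
    intro w i
    rw [qb_apply, norm_div, norm_mul, Complex.norm_real, Real.norm_eq_abs, abs_of_pos (hb i), sq]
  have hle : ∀ (w : EuclideanSpace ℂ (Fin m)) (i : Fin m), ‖w i‖ ≤ ‖w‖ := fun w i =>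
    PiLp.norm_apply_le w i
  have hqlow : ∀ w : EuclideanSpace ℂ (Fin m), ‖w‖ ^ 2 ≤ (S * m) * ‖qb b w w‖ := by
    intro w
    rw [EuclideanSpace.norm_sq_eq]
    calc ∑ i, ‖w i‖ ^ 2 ≤ ∑ _i : Fin m, S * ‖qb b w w‖ := by
          apply Finset.sum_le_sum
          intro i _
          have h1 : ‖w i‖ ^ 2 = b i * ‖qb b w w i‖ := by
            rw [hcomp]
            have := (hb i).ne'
            field_simp
          rw [h1]
          apply mul_le_mul _ (hle _ i) (norm_nonneg _) hS0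
          exact Finset.single_le_sum (f := b) (fun i _ => (hb i).le) (Finset.mem_univ i)
      _ = (S * m) * ‖qb b w w‖ := by
          rw [Finset.sum_const, Finset.card_univ, Fintype.card_fin, nsmul_eq_mul]
          ring
  have hqup : ∀ w : EuclideanSpace ℂ (Fin m), ‖qb b w w‖ ≤ S' * ‖w‖ ^ 2 := by
    intro w
    have h1 : ‖qb b w w‖ ≤ ∑ i, ‖qb b w w i‖ := by
      have h2 : ‖qb b w w‖ ^ 2 ≤ (∑ i, ‖qb b w w i‖) ^ 2 := by
        rw [EuclideanSpace.norm_sq_eq]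
        exact Finset.sum_sq_le_sq_sum_of_nonneg fun i _ => norm_nonneg _
      exact abs_le_of_sq_le_sq' h2 (Finset.sum_nonneg fun i _ => norm_nonneg _) |>.2
    refine h1.trans ?_
    rw [hS', Finset.sum_mul]
    apply Finset.sum_le_sum
    intro i _
    rw [hcomp, div_eq_inv_mul]
    apply mul_le_mul_of_nonneg_left _ (inv_pos.2 (hb i)).le
    exact pow_le_pow_left₀ (norm_nonneg _) (hle w i) 2
  refine ⟨2 * (S * m) + 1, by positivity, 2 + S', by positivity, fun w => ⟨?_, ?_⟩⟩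
  · have hV1 : ‖w‖ ≤ Vq b w := gauge_Vq.norm_le w
    have hV2 : ‖qb b w w - w‖ ≤ Vq b w := by
      apply abs_le_of_sq_le_sq' _ (Vq_nonneg w) |>.2
      rw [Vq_sq]
      nlinarith [sq_nonneg ‖w‖]
    have h3 : ‖qb b w w‖ ≤ ‖qb b w w - w‖ + ‖w‖ := by
      simpa using norm_add_le (qb b w w - w) w
    have h4 := hqlow w
    have h5 : (S * m) * ‖qb b w w‖ ≤ (S * m) * (2 * Vq b w) :=
      mul_le_mul_of_nonneg_left (by linarith) (by positivity)
    nlinarith [Vq_nonneg (b := b) w]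
  · have h3 : ‖qb b w w - w‖ ≤ ‖qb b w w‖ + ‖w‖ := norm_sub_le _ _
    have h4 := hqup w
    have h5 : Vq b w ≤ ‖w‖ + ‖qb b w w - w‖ := by
      apply abs_le_of_sq_le_sq' _ (by positivity) |>.2
      rw [Vq_sq]
      nlinarith [norm_nonneg w, norm_nonneg (qb b w w - w)]
    have h6 := norm_nonneg w
    nlinarith [mul_nonneg hS'0 h6]

end H73SK
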