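import Mathlib
import Pool.Agent.H73.SK.Quad

/-! Linear maps preserving a level set of the rigid gauge are trivial: algebra. -/

open Filter Topology Set Metric
open scoped InnerProductSpace

namespace H73SK

/-- a quadratic polynomial with three distinct roots vanishes -/
lemma quad_zero {a b c x y z : ℝ} (hxy : x ≠ y) (hxz : x ≠ z) (hyz : y ≠ z)
    (hx : a * x ^ 2 + b * x + c = 0) (hy : a * y ^ 2 + b * y + c = 0)
    (hz : a * z ^ 2 + b * z + c = 0) : a = 0 ∧ b = 0 ∧ c = 0 := by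
  have h1 : a * (x + y) + b = 0 := by
    apply mul_left_cancel₀ (sub_ne_zero.2 hxy)
    linear_combination hx - hy
  have h2 : a * (x + z) + b = 0 := by
    apply mul_left_cancel₀ (sub_ne_zero.2 hxz)
    linear_combination hx - hz
  have ha : a = 0 := by
    have h3 : (y - z) * a = 0 := by linear_combination h1 - h2
    rcases mul_eq_zero.1 h3 with h | h
    · exact (hyz (sub_eq_zero.1 h)).elim
    · exact h
  have hb : b = 0 := by rw [ha] at h1; linarith
  have hc : c = 0 := by rw [ha, hb] at hx; linarith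
  exact ⟨ha, hb, hc⟩

/-- existence of a point of the level curve on a line -/
lemma exists_level {P Q s T : ℝ} (hP : 0 < P) (hQ : 0 < Q) (hT : 0 < T) :
    ∃ r : ℝ, 0 < r ∧ r ^ 2 * (P + Q * r ^ 2 - 2 * r * s) = T := by
  set g : ℝ → ℝ := fun r => r ^ 2 * (P + Q * r ^ 2 - 2 * r * s) with hg
  have hc : Continuous g := by fun_prop
  set r1 : ℝ := 1 + T + (1 + 2 * |s|) / Q with hr1
  have hr1pos : 0 < r1 := by positivity
  have h1 : 1 ≤ r1 := by
    have : 0 ≤ (1 + 2 * |s|) / Q := by positivity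
    linarith
  have hge : T ≤ g r1 := by
    have h2 : 1 + 2 * |s| ≤ Q * r1 := by
      have : Q * ((1 + 2 * |s|) / Q) = 1 + 2 * |s| := by field_simp
      rw [hr1, mul_add, this]
      nlinarith
    have h3 : r1 ≤ Q * r1 ^ 2 - 2 * r1 * s := by
      have : s ≤ |s| := le_abs_self s
      nlinarith
    have h4 : T ≤ r1 := by
      have : 0 ≤ (1 + 2 * |s|) / Q := by positivity
      linarith
    have h5 : (1 : ℝ) ≤ r1 ^ 2 := by nlinarith
    have h6 : r1 ≤ P + Q * r1 ^ 2 - 2 * r1 * s := by linarith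
    calc T ≤ 1 * r1 := by linarith
      _ ≤ r1 ^ 2 * (P + Q * r1 ^ 2 - 2 * r1 * s) :=
          mul_le_mul h5 h6 hr1pos.le (by positivity)
  obtain ⟨r, hr, hreq⟩ := intermediate_value_Icc hr1pos.le hc.continuousOn
    (show T ∈ Icc (g 0) (g r1) from ⟨by simp [hg, hT.le], hge⟩)
  refine ⟨r, lt_of_le_of_ne hr.1 ?_, hreq⟩
  rintro rfl
  simp [hg] at hreq
  linarith

/-- comparison of two quartic gauges of one complex variable with a common level curve -/
lemma level_cmp {P Q P' Q' T T' : ℝ} {S S' : ℂ} (hP : 0 < P) (hQ : 0 < Q) (hT : 0 < T)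
    (hS : S ≠ 0)
    (h : ∀ ζ : ℂ, ‖ζ‖ ^ 2 * (P + Q * ‖ζ‖ ^ 2 - 2 * (ζ * S).re) = T →
      ‖ζ‖ ^ 2 * (P' + Q' * ‖ζ‖ ^ 2 - 2 * (ζ * S').re) = T') :
    P' = T' / T * P ∧ Q' = T' / T * Q ∧ S' = ((T' / T : ℝ) : ℂ) * S := by
  set s : ℝ := ‖S‖ with hs
  have hspos : 0 < s := norm_pos_iff.2 hS
  have hsc : (s : ℂ) ≠ 0 := by exact_mod_cast hspos.ne'
  set κ : ℝ := T' / T with hκ
  have hκT : κ * T = T' := by rw [hκ]; field_simp
  -- the direction of S
  set u : ℂ := (starRingEnd ℂ) S / s with hu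
  have huS : u * S = s := by
    rw [hu, div_mul_eq_mul_div, div_eq_iff hsc, ← Complex.normSq_eq_conj_mul_self,
      Complex.normSq_eq_norm_sq, ← hs]
    push_cast
    ring
  have hun : ‖u‖ = 1 := by
    rw [hu, norm_div, Complex.norm_real, Real.norm_eq_abs, abs_of_pos hspos]
    simp only [RCLike.norm_conj]
    rw [← hs]; field_simp
  set S1 : ℂ := u * S' with hS1
  -- perpendicular point
  obtain ⟨r0, hr0, hr0T⟩ := exists_level (s := 0) hP hQ hT
  rw [mul_zero, sub_zero] at hr0T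
  have hperp : ∀ ε : ℝ, ε ^ 2 = 1 → r0 ^ 2 * (P' + Q' * r0 ^ 2 - 2 * (ε * r0 * (-S1.im))) = T' := by
    intro ε hε
    have hεa : |ε| = 1 := by
      have : |ε| ^ 2 = 1 := by rw [sq_abs]; exact hε
      nlinarith [abs_nonneg ε]
    have hn : ‖(ε * r0 : ℝ) * Complex.I * u‖ = r0 := by
      rw [norm_mul, norm_mul, hun, Complex.norm_I, Complex.norm_real, Real.norm_eq_abs, abs_mul,
        hεa, abs_of_pos hr0]
      ring
    have h1 : ((ε * r0 : ℝ) * Complex.I * u * S).re = 0 := by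
      rw [mul_assoc, huS]
      simp
    have h2 : ((ε * r0 : ℝ) * Complex.I * u * S').re = ε * r0 * (-S1.im) := by
      rw [mul_assoc, ← hS1]
      simp
    have h3 := h ((ε * r0 : ℝ) * Complex.I * u) (by rw [hn, h1, mul_zero, sub_zero]; exact hr0T)
    rw [hn, h2] at h3
    exact h3
  have hp1 := hperp 1 (by norm_num)
  have hp2 := hperp (-1) (by norm_num)
  have hr0sq : 0 < r0 ^ 2 := by positivity
  have him : S1.im = 0 := by
    have h4 : r0 ^ 2 * (4 * r0 * S1.im) = 0 := by linear_combination hp1 - hp2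
    rcases mul_eq_zero.1 h4 with h | h
    · exact (hr0sq.ne' h).elim
    · rcases mul_eq_zero.1 h with h | h
      · linarith
      · exact h
  set s' : ℝ := S1.re with hs'
  have hS1re : S1 = s' := Complex.ext rfl (by simp [him])
  -- real points
  have hreal : ∀ r : ℝ, r ^ 2 * (P + Q * r ^ 2 - 2 * r * s) = T →
      r ^ 2 * (P' + Q' * r ^ 2 - 2 * r * s') = T' := by
    intro r hr
    have hn : ‖(r : ℂ) * u‖ ^ 2 = r ^ 2 := by
      rw [norm_mul, hun, mul_one, Complex.norm_real, Real.norm_eq_abs, sq_abs]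
    have h1 : ((r : ℂ) * u * S).re = r * s := by
      rw [mul_assoc, huS]; simp
    have h2 : ((r : ℂ) * u * S').re = r * s' := by
      rw [mul_assoc, ← hS1, hS1re]; simp
    have h3 := h ((r : ℂ) * u) (by rw [hn, h1]; linarith)
    rw [hn, h2] at h3
    linarith
  obtain ⟨r1, hr1, hr1T⟩ := exists_level (s := s) hP hQ hT
  obtain ⟨r2, hr2, hr2T⟩ := exists_level (s := -s) hP hQ hT
  have e1 := hreal r1 hr1T
  have e2 := hreal (-r2) (by linarith [hr2T])
  have hr1T' : r1 ^ 2 * (P + Q * r1 ^ 2 - 2 * r1 * s) = T := hr1T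
  have hr2T' : r2 ^ 2 * (P + Q * r2 ^ 2 + 2 * r2 * s) = T := by linarith [hr2T]
  have e0 : r0 ^ 2 * (P' + Q' * r0 ^ 2) = T' := by
    rw [him] at hp1
    linarith
  -- ordering
  have hmono : ∀ x y : ℝ, 0 < x → 0 < y → x ^ 2 * (P + Q * x ^ 2) < y ^ 2 * (P + Q * y ^ 2) →
      x ^ 2 < y ^ 2 := by
    intro x y hx hy hxy
    by_contra hcon
    push Not at hcon
    have h1 : y ^ 2 * (P + Q * y ^ 2) ≤ x ^ 2 * (P + Q * x ^ 2) := by
      apply mul_le_mul hcon _ (by positivity) (by positivity)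
      nlinarith
    linarith
  have ho1 : r0 ^ 2 < r1 ^ 2 := by
    apply hmono r0 r1 hr0 hr1
    rw [hr0T, ← hr1T']
    have : 0 < r1 ^ 2 * (2 * r1 * s) := by positivity
    nlinarith
  have ho2 : r2 ^ 2 < r0 ^ 2 := by
    apply hmono r2 r0 hr2 hr0
    rw [hr0T, ← hr2T']
    have : 0 < r2 ^ 2 * (2 * r2 * s) := by positivity
    nlinarith
  -- the quadratic polynomial
  set c : ℝ := s' - κ * s with hc
  set a : ℝ := P' - κ * P with ha
  set b : ℝ := Q' - κ * Q with hb
  have f1 : r1 ^ 2 * (a + b * r1 ^ 2 - 2 * r1 * c) = 0 := by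
    rw [ha, hb, hc]; linear_combination e1 - κ * hr1T' - hκT
  have f2 : r2 ^ 2 * (a + b * r2 ^ 2 + 2 * r2 * c) = 0 := by
    rw [ha, hb, hc]; linear_combination e2 - κ * hr2T' - hκT
  have f0 : r0 ^ 2 * (a + b * r0 ^ 2) = 0 := by
    rw [ha, hb]; linear_combination e0 - κ * hr0T - hκT
  have g1 : (c * Q - s * b) * (r1 ^ 2) ^ 2 + (c * P - s * a) * r1 ^ 2 + -(c * T) = 0 := by
    linear_combination c * hr1T' - s * f1
  have g2 : (c * Q - s * b) * (r2 ^ 2) ^ 2 + (c * P - s * a) * r2 ^ 2 + -(c * T) = 0 := by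
    linear_combination c * hr2T' - s * f2
  have g0 : (c * Q - s * b) * (r0 ^ 2) ^ 2 + (c * P - s * a) * r0 ^ 2 + -(c * T) = 0 := by
    linear_combination c * hr0T - s * f0
  obtain ⟨q1, q2, q3⟩ := quad_zero (ne_of_gt ho1) (ne_of_gt (ho2.trans ho1)) (ne_of_gt ho2)
    g1 g0 g2
  have hc0 : c = 0 := by
    rcases mul_eq_zero.1 (neg_eq_zero.1 q3) with h | h
    · exact h
    · linarith
  have hb0 : b = 0 := by
    rw [hc0, zero_mul, zero_sub, neg_eq_zero] at q1
    rcases mul_eq_zero.1 q1 with h | h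
    · linarith
    · exact h
  have ha0 : a = 0 := by
    rw [hc0, zero_mul, zero_sub, neg_eq_zero] at q2
    rcases mul_eq_zero.1 q2 with h | h
    · linarith
    · exact h
  refine ⟨by linarith, by linarith, ?_⟩
  have hu0 : u ≠ 0 := by
    intro h0
    rw [h0, norm_zero] at hun
    exact zero_ne_one hun
  apply mul_left_cancel₀ hu0
  have h7 : s' = κ * s := by linarith
  calc u * S' = S1 := rfl
    _ = ((κ * s : ℝ) : ℂ) := by rw [hS1re, h7]
    _ = (κ : ℂ) * (u * S) := by rw [huS]; push_cast; ring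
    _ = u * ((κ : ℂ) * S) := by ring

end H73SK
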