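import Mathlib

/-!
# Definitions: Stein domains, Kobayashi pseudodistance, diffeomorphism, biholomorphism

`X` is a complex normed space (in the application `ℂ × EuclideanSpace ℂ (Fin m)`, a copy of
`ℂ ^ (m + 1)`), and `M ⊆ X` is a domain.
-/

open Set Metric

namespace H73SK

/-- The hull of `K` with respect to the holomorphic functions on `M`. -/
def holHull {X : Type*} [NormedAddCommGroup X] [NormedSpace ℂ X] (M K : Set X) : Set X :=
  {p | p ∈ M ∧ ∀ f : X → ℂ, DifferentiableOn ℂ f M →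
    ∀ C : ℝ, (∀ q ∈ K, ‖f q‖ ≤ C) → ‖f p‖ ≤ C}

/-- `M` is a nonempty connected open subset of `X` which is holomorphically convex, and whose
holomorphic functions separate points and give local coordinates. -/
structure IsSteinDomain {X : Type*} [NormedAddCommGroup X] [NormedSpace ℂ X] (M : Set X) :
    Prop where
  isOpen : IsOpen M
  isConnected : IsConnected M
  holConvex : ∀ K : Set X, K ⊆ M → IsCompact K → IsCompact (holHull M K)
  separates : ∀ p ∈ M, ∀ q ∈ M, p ≠ q → ∃ f : X → ℂ, DifferentiableOn ℂ f M ∧ f p ≠ f q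
  coords : ∀ p ∈ M, ∃ F : X → X, DifferentiableOn ℂ F M ∧ Function.Bijective (fderiv ℂ F p)

/-- `M` is diffeomorphic (`C^∞` over the reals) to the whole space `X`. -/
def DiffeoToWhole {X : Type*} [NormedAddCommGroup X] [NormedSpace ℝ X] (M : Set X) : Prop :=
  ∃ Φ Ψ : X → X, ContDiffOn ℝ (⊤ : ℕ∞) Φ M ∧ ContDiff ℝ (⊤ : ℕ∞) Ψ ∧
    (∀ q, Ψ q ∈ M) ∧ (∀ p ∈ M, Ψ (Φ p) = p) ∧ (∀ q, Φ (Ψ q) = q)

/-- The Poincare distance of the unit disc. -/
noncomputable def poincareDist (a b : ℂ) : ℝ :=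
  Real.log ((1 + ‖(a - b) / (1 - (starRingEnd ℂ) a * b)‖) /
    (1 - ‖(a - b) / (1 - (starRingEnd ℂ) a * b)‖))

/-- `δ` is a pseudodistance on `M`. -/
structure IsPseudoDist {X : Type*} (M : Set X) (δ : X → X → ℝ) : Prop where
  nonneg : ∀ p ∈ M, ∀ q ∈ M, 0 ≤ δ p q
  self : ∀ p ∈ M, δ p p = 0
  symm : ∀ p ∈ M, ∀ q ∈ M, δ p q = δ q p
  triangle : ∀ p ∈ M, ∀ q ∈ M, ∀ r ∈ M, δ p r ≤ δ p q + δ q r

/-- Every holomorphic map from the unit disc to `M` is distance decreasing from the Poincare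
distance to `δ`. -/
def ContractsDiscs {X : Type*} [NormedAddCommGroup X] [NormedSpace ℂ X] (M : Set X)
    (δ : X → X → ℝ) : Prop :=
  ∀ f : ℂ → X, DifferentiableOn ℂ f (ball 0 1) → MapsTo f (ball 0 1) M →
    ∀ a ∈ ball (0 : ℂ) 1, ∀ b ∈ ball (0 : ℂ) 1, δ (f a) (f b) ≤ poincareDist a b

/-- The Kobayashi pseudodistance of `M` (the largest pseudodistance for which holomorphic maps
from the unit disc are distance decreasing) vanishes identically. -/
def KobayashiVanishes {X : Type*} [NormedAddCommGroup X] [NormedSpace ℂ X] (M : Set X) : Prop :=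
  ∀ δ : X → X → ℝ, IsPseudoDist M δ → ContractsDiscs M δ → ∀ p ∈ M, ∀ q ∈ M, δ p q = 0

/-- `F` is a biholomorphic map of `M` onto `N`. -/
def IsBiholo {X Y : Type*} [NormedAddCommGroup X] [NormedSpace ℂ X] [NormedAddCommGroup Y]
    [NormedSpace ℂ Y] (F : X → Y) (M : Set X) (N : Set Y) : Prop :=
  DifferentiableOn ℂ F M ∧ MapsTo F M N ∧
    ∃ G : Y → X, DifferentiableOn ℂ G N ∧ MapsTo G N M ∧ (∀ p ∈ M, G (F p) = p) ∧
      ∀ q ∈ N, F (G q) = q

/-- `M` is an increasing union of open subsets each of which is biholomorphic to a convex open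
subset of the ambient space. -/
def ConvexExhaustible {X : Type*} [NormedAddCommGroup X] [NormedSpace ℂ X] (M : Set X) : Prop :=
  ∃ (B Ω : ℕ → Set X) (ψ : ℕ → X → X), Monotone B ∧ ⋃ j, B j = M ∧
    ∀ j, IsOpen (B j) ∧ IsOpen (Ω j) ∧ Convex ℝ (Ω j) ∧ IsBiholo (ψ j) (B j) (Ω j)

end H73SK
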