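import Mathlib
import Pool.Agent.H73.SK.Weight

/-! Lower bounds for the weight at many points (first moment method). -/

open Filter Topology Set MeasureTheory
open scoped ENNReal

namespace H73SK

/-- negative part of the logarithm -/
noncomputable def L (y : ℂ) : ℝ := max 0 (-Real.log ‖y‖)

lemma L_nonneg (y : ℂ) : 0 ≤ L y := le_max_left _ _

/-- the integral of the negative part of the logarithm over the real line -/
noncomputable def C0 : ℝ≥0∞ := ∫⁻ t : ℝ, ENNReal.ofReal (max 0 (-Real.log |t|))

lemma C0_ne_top : C0 ≠ ⊤ := by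
  have h1 : Integrable (fun t : ℝ => max 0 (-Real.log |t|)) := by
    have h2 : IntegrableOn (fun t : ℝ => max 0 (-Real.log |t|)) (Ioc (-1) 1) := by
      have h3 : IntervalIntegrable Real.log volume (-1) 1 := intervalIntegral.intervalIntegrable_log'
      have h4 : IntegrableOn Real.log (Ioc (-1) 1) :=
        (intervalIntegrable_iff_integrableOn_Ioc_of_le (by norm_num)).1 h3
      have h5 := h4.neg.pos_part
      refine h5.congr (ae_of_all _ fun t => ?_)
      simp only [Pi.neg_apply, Real.log_abs]
      exact max_comm _ _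
    refine h2.integrable_of_forall_notMem_eq_zero fun t ht => ?_
    apply max_eq_left
    rw [neg_nonpos]
    apply Real.log_nonneg
    by_contra hlt
    push Not at hlt
    rw [abs_lt] at hlt
    exact ht ⟨hlt.1, hlt.2.le⟩
  exact h1.lintegral_lt_top.ne

lemma L_smul_le {r : ℝ} (hr : 0 < r) (hr1 : r ≤ 1) (y : ℂ) :
    L (r * y) ≤ Real.log (1 / r) + L y := by
  have h0 : 0 ≤ Real.log (1 / r) := Real.log_nonneg (by rw [le_div_iff₀ hr]; linarith)
  unfold L
  rcases eq_or_ne y 0 with rfl | hy
  · simp only [mul_zero, norm_zero, Real.log_zero, neg_zero, max_self, add_zero]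
    exact h0
  · have hy' : 0 < ‖y‖ := norm_pos_iff.2 hy
    rw [norm_mul, Complex.norm_real, Real.norm_eq_abs, abs_of_pos hr,
      Real.log_mul hr.ne' hy'.ne', one_div, Real.log_inv] at *
    apply max_le
    · have := le_max_left 0 (-Real.log ‖y‖)
      linarith
    · have := le_max_right 0 (-Real.log ‖y‖)
      linarith

lemma lintegral_L_le (u : ℂ) :
    ∫⁻ t in Icc (1 : ℝ) 2, ENNReal.ofReal (L (u + t)) ≤ C0 := by
  calc ∫⁻ t in Icc (1 : ℝ) 2, ENNReal.ofReal (L (u + t))
      ≤ ∫⁻ t : ℝ, ENNReal.ofReal (L (u + t)) := setLIntegral_le_lintegral _ _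
    _ ≤ ∫⁻ t : ℝ, ENNReal.ofReal (max 0 (-Real.log |u.re + t|)) := by
        apply lintegral_mono_ae
        have hnull : volume ({-u.re} : Set ℝ) = 0 := Real.volume_singleton
        filter_upwards [compl_mem_ae_iff.2 hnull] with t ht
        apply ENNReal.ofReal_le_ofReal
        have hne : u.re + t ≠ 0 := by
          intro h
          apply ht
          rw [mem_singleton_iff]
          linarith
        unfold L
        apply max_le_max_left
        apply neg_le_neg
        apply Real.log_le_log (abs_pos.2 hne)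
        have := Complex.abs_re_le_norm (u + t)
        simpa using this
    _ = C0 := by
        unfold C0
        exact lintegral_add_left_eq_self (fun t : ℝ => ENNReal.ofReal (max 0 (-Real.log |t|))) u.re

lemma measurable_L : Measurable L := by
  unfold L
  fun_prop

/-- First moment method: a good point on a short segment. -/
lemma exists_good {a : ℕ → ℝ} (ha : ∀ k, 0 ≤ a k) (hs : Summable a) (z : ℕ → ℂ) (b : ℂ) {r : ℝ}
    (hr : 0 < r) (hr1 : r ≤ 1) :
    ∃ t ∈ Icc (1 : ℝ) 2, (∀ k, b + r * t ≠ z k) ∧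
      Summable (fun k => a k * L (b + r * t - z k)) ∧
      ∑' k, a k * L (b + r * t - z k) ≤ (∑' k, a k) * (Real.log (1 / r) + C0.toReal) := by
  have hlog : 0 ≤ Real.log (1 / r) := Real.log_nonneg (by rw [le_div_iff₀ hr]; linarith)
  have hr' : (r : ℂ) ≠ 0 := by exact_mod_cast hr.ne'
  set μ : Measure ℝ := volume.restrict (Icc (1 : ℝ) 2) with hμ
  have hμ1 : μ univ = 1 := by
    rw [hμ, Measure.restrict_apply_univ, Real.volume_Icc]
    norm_num
  have hprob : IsProbabilityMeasure μ := ⟨hμ1⟩
  have hmeas : ∀ k, Measurable fun t : ℝ => ENNReal.ofReal (a k * L (b + r * t - z k)) := by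
    intro k
    apply ENNReal.measurable_ofReal.comp
    apply Measurable.const_mul
    apply measurable_L.comp
    fun_prop
  set N : Set ℝ := {t : ℝ | ∃ k, b + r * t = z k} ∪ (Icc (1 : ℝ) 2)ᶜ with hN
  have hcount : Set.Countable {t : ℝ | ∃ k, b + r * t = z k} := by
    have : {t : ℝ | ∃ k, b + r * t = z k} ⊆ ⋃ k : ℕ, {((z k - b) / r).re} := by
      rintro t ⟨k, hk⟩
      rw [Set.mem_iUnion]
      refine ⟨k, ?_⟩
      rw [mem_singleton_iff, ← hk, add_sub_cancel_left, mul_div_cancel_left₀ _ hr']
      simp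
    exact (countable_iUnion fun k => countable_singleton _).mono this
  have hN0 : μ N = 0 := by
    rw [hN]
    refine measure_union_null ?_ ?_
    · exact (Measure.absolutelyContinuous_of_le Measure.restrict_le_self) (hcount.measure_zero _)
    · rw [hμ, Measure.restrict_apply measurableSet_Icc.compl]
      simp
  obtain ⟨t, htN, ht⟩ := exists_notMem_null_le_lintegral
    (μ := μ) (f := fun t => ∑' k, ENNReal.ofReal (a k * L (b + r * t - z k)))
    (Measurable.tsum hmeas).aemeasurable hN0
  have hle : ∫⁻ t, ∑' k, ENNReal.ofReal (a k * L (b + r * t - z k)) ∂μ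
      ≤ ENNReal.ofReal ((∑' k, a k) * (Real.log (1 / r) + C0.toReal)) := by
    rw [lintegral_tsum fun k => (hmeas k).aemeasurable]
    have h1 : ∀ k, ∫⁻ t, ENNReal.ofReal (a k * L (b + r * t - z k)) ∂μ
        ≤ ENNReal.ofReal (a k) * ENNReal.ofReal (Real.log (1 / r) + C0.toReal) := by
      intro k
      calc ∫⁻ t, ENNReal.ofReal (a k * L (b + r * t - z k)) ∂μ
          ≤ ∫⁻ t, ENNReal.ofReal (a k) *
              (ENNReal.ofReal (Real.log (1 / r)) +
                ENNReal.ofReal (L ((b - z k) / r + t))) ∂μ := by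
            apply lintegral_mono
            intro t
            beta_reduce
            rw [← ENNReal.ofReal_add hlog (L_nonneg _), ← ENNReal.ofReal_mul (ha k)]
            apply ENNReal.ofReal_le_ofReal
            apply mul_le_mul_of_nonneg_left _ (ha k)
            have h2 := L_smul_le hr hr1 ((b - z k) / r + t)
            have h3 : (r : ℂ) * ((b - z k) / r + t) = b + r * t - z k := by
              field_simp
              ring
            rwa [h3] at h2
        _ = ENNReal.ofReal (a k) * (ENNReal.ofReal (Real.log (1 / r)) +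
              ∫⁻ t, ENNReal.ofReal (L ((b - z k) / r + t)) ∂μ) := by
            rw [lintegral_const_mul' _ _ ENNReal.ofReal_ne_top, lintegral_add_left measurable_const,
              lintegral_const, hμ1, mul_one]
        _ ≤ ENNReal.ofReal (a k) * (ENNReal.ofReal (Real.log (1 / r)) + C0) := by
            gcongr
            exact lintegral_L_le _
        _ = _ := by
            rw [ENNReal.ofReal_add hlog ENNReal.toReal_nonneg, ENNReal.ofReal_toReal C0_ne_top]
    calc ∑' k, ∫⁻ t, ENNReal.ofReal (a k * L (b + r * t - z k)) ∂μ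
        ≤ ∑' k, ENNReal.ofReal (a k) * ENNReal.ofReal (Real.log (1 / r) + C0.toReal) :=
          ENNReal.tsum_le_tsum h1
      _ = _ := by
          rw [ENNReal.tsum_mul_right, ← ENNReal.ofReal_tsum_of_nonneg ha hs,
            ← ENNReal.ofReal_mul (tsum_nonneg ha)]
  have hfin := ht.trans hle
  have hnn : ∀ k, 0 ≤ a k * L (b + r * t - z k) := fun k => mul_nonneg (ha k) (L_nonneg _)
  have hsum : Summable fun k => a k * L (b + r * t - z k) := by
    have h5 : ∑' k, ENNReal.ofReal (a k * L (b + r * t - z k)) ≠ ⊤ :=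
      (hfin.trans_lt ENNReal.ofReal_lt_top).ne
    have h6 := ENNReal.summable_toReal h5
    refine h6.congr fun k => ?_
    rw [ENNReal.toReal_ofReal (hnn k)]
  refine ⟨t, ?_, ?_, hsum, ?_⟩
  · by_contra h
    exact htN (Or.inr h)
  · intro k hk
    exact htN (Or.inl ⟨k, hk⟩)
  · rw [← ENNReal.ofReal_tsum_of_nonneg hnn hsum] at hfin
    refine (ENNReal.ofReal_le_ofReal_iff ?_).1 hfin
    exact mul_nonneg (tsum_nonneg ha) (add_nonneg hlog ENNReal.toReal_nonneg)

namespace Data

variable (D : Data)

/-- tail of the masses -/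
noncomputable def tailC (N : ℕ) (k : ℕ) : ℝ := if k < N then 0 else D.c k

lemma tailC_nonneg (N k : ℕ) : 0 ≤ D.tailC N k := by
  unfold tailC
  split_ifs
  · exact le_rfl
  · exact (D.pos k).le

lemma summable_tailC (N : ℕ) : Summable (D.tailC N) := by
  refine Summable.of_nonneg_of_le (D.tailC_nonneg N) (fun k => ?_) D.summable_c
  unfold tailC
  split_ifs
  · exact (D.pos k).le
  · exact le_rfl

lemma tsum_tailC_tendsto : Tendsto (fun N => ∑' k, D.tailC N k) atTop (𝓝 0) := by
  have h1 : ∀ N, ∑' k, D.tailC N k = ∑' k, D.c (k + N) := by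
    intro N
    rw [← (D.summable_tailC N).sum_add_tsum_nat_add N]
    have : ∑ k ∈ Finset.range N, D.tailC N k = 0 := by
      apply Finset.sum_eq_zero
      intro k hk
      unfold tailC
      rw [if_pos (Finset.mem_range.1 hk)]
    rw [this, zero_add]
    congr 1
    funext k
    unfold tailC
    rw [if_neg (by omega)]
  simp_rw [h1]
  exact tendsto_sum_nat_add _

/-- lower bound of the weight by a finite product and the logarithmic sum of the tail -/
lemma le_weight {x : ℂ} (hx : ∀ k, x ≠ D.z k) (N : ℕ)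
    (hs : Summable fun k => D.tailC N k * L (x - D.z k)) :
    D.P N x * Real.exp (-∑' k, D.tailC N k * L (x - D.z k)) ≤ D.weight x := by
  refine ge_of_tendsto (D.P_tendsto x) ?_
  filter_upwards [eventually_ge_atTop N] with M hM
  unfold P
  rw [← Finset.prod_range_mul_prod_Ico _ hM]
  apply mul_le_mul_of_nonneg_left _ (D.P_nonneg N x)
  have h1 : ∀ k ∈ Finset.Ico N M, Real.exp (-(D.tailC N k * L (x - D.z k)))
      ≤ ‖x - D.z k‖ ^ D.c k := by
    intro k hk
    have hkN : ¬ k < N := by
      have := (Finset.mem_Ico.1 hk).1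
      omega
    have hpos : 0 < ‖x - D.z k‖ := norm_pos_iff.2 (sub_ne_zero.2 (hx k))
    rw [Real.rpow_def_of_pos hpos]
    apply Real.exp_le_exp.2
    unfold tailC
    rw [if_neg hkN]
    have : -Real.log ‖x - D.z k‖ ≤ L (x - D.z k) := le_max_right _ _
    nlinarith [D.pos k]
  calc Real.exp (-∑' k, D.tailC N k * L (x - D.z k))
      ≤ Real.exp (-∑ k ∈ Finset.Ico N M, D.tailC N k * L (x - D.z k)) := by
        apply Real.exp_le_exp.2
        apply neg_le_neg
        exact hs.sum_le_tsum _ fun k _ => mul_nonneg (D.tailC_nonneg N k) (L_nonneg _)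
    _ = ∏ k ∈ Finset.Ico N M, Real.exp (-(D.tailC N k * L (x - D.z k))) := by
        rw [← Finset.sum_neg_distrib, Real.exp_sum]
    _ ≤ _ := Finset.prod_le_prod (fun k _ => (Real.exp_pos _).le) h1

/-- The weight is positive at some point of every nonempty open set. -/
lemma exists_weight_pos {V : Set ℂ} (hV : IsOpen V) (hne : V.Nonempty) :
    ∃ x ∈ V, 0 < D.weight x := by
  obtain ⟨b, hb⟩ := hne
  obtain ⟨ε, hε, hball⟩ := Metric.isOpen_iff.1 hV b hb
  set r := min (ε / 4) 1 with hr
  have hr0 : 0 < r := lt_min (by linarith) one_pos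
  obtain ⟨t, ht, hz, hs, -⟩ := exists_good (D.tailC_nonneg 0) (D.summable_tailC 0) D.z b hr0
    (min_le_right _ _)
  refine ⟨b + r * t, ?_, ?_⟩
  · apply hball
    rw [Metric.mem_ball, dist_eq_norm, add_sub_cancel_left, norm_mul, Complex.norm_real,
      Complex.norm_real, Real.norm_eq_abs, Real.norm_eq_abs, abs_of_pos hr0,
      abs_of_pos (by linarith [ht.1])]
    have : r ≤ ε / 4 := min_le_left _ _
    nlinarith [ht.2, ht.1]
  · have := D.le_weight hz 0 hs
    refine lt_of_lt_of_le ?_ this
    unfold P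
    simp [Real.exp_pos]

/-- distance to the finitely many other points -/
lemma exists_sep (b : ℂ) (N : ℕ) : ∃ η : ℝ, 0 < η ∧ η ≤ 1 ∧
    ∀ k ∈ Finset.range N, D.z k ≠ b → 2 * η ≤ ‖b - D.z k‖ := by
  induction N with
  | zero => exact ⟨1, one_pos, le_rfl, by simp⟩
  | succ N ih =>
    obtain ⟨η, h0, h1, h2⟩ := ih
    by_cases hb : D.z N = b
    · refine ⟨η, h0, h1, fun k hk hkb => ?_⟩
      rcases Nat.lt_succ_iff_lt_or_eq.1 (Finset.mem_range.1 hk) with h | h
      · exact h2 k (Finset.mem_range.2 h) hkb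
      · rw [h] at hkb
        exact (hkb hb).elim
    · have hpos : 0 < ‖b - D.z N‖ := norm_pos_iff.2 (sub_ne_zero.2 (Ne.symm hb))
      refine ⟨min η (‖b - D.z N‖ / 2), lt_min h0 (by linarith), (min_le_left _ _).trans h1,
        fun k hk hkb => ?_⟩
      rcases Nat.lt_succ_iff_lt_or_eq.1 (Finset.mem_range.1 hk) with h | h
      · have := h2 k (Finset.mem_range.2 h) hkb
        have := min_le_left η (‖b - D.z N‖ / 2)
        linarith
      · rw [h]
        have := min_le_right η (‖b - D.z N‖ / 2)
        linarith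

/-- Polynomial lower bound of the weight near a point, up to an arbitrarily small loss. -/
lemma exists_lower (b : ℂ) {m ε : ℝ} (hm : 0 ≤ m) (hmb : ∀ k, D.z k = b → D.c k ≤ m)
    (hε : 0 < ε) :
    ∃ κ : ℝ, 0 < κ ∧ ∃ r0 : ℝ, 0 < r0 ∧ ∀ r : ℝ, 0 < r → r < r0 → r ≤ 1 →
      ∃ t ∈ Icc (1 : ℝ) 2, κ * r ^ (m + ε) ≤ D.weight (b + r * t) := by
  obtain ⟨N, hN⟩ := (D.tsum_tailC_tendsto.eventually_lt_const hε).exists
  set A := ∑' k, D.tailC N k with hA
  have hA0 : 0 ≤ A := tsum_nonneg (D.tailC_nonneg N)
  obtain ⟨η, hη0, hη1, hη⟩ := D.exists_sep b N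
  set κ1 : ℝ := ∏ k ∈ Finset.range N, η ^ D.c k with hκ1
  have hκ1pos : 0 < κ1 := Finset.prod_pos fun k _ => Real.rpow_pos_of_pos hη0 _
  refine ⟨κ1 * Real.exp (-(A * C0.toReal)), mul_pos hκ1pos (Real.exp_pos _), η / 2,
    by linarith, fun r hr hrη hr1 => ?_⟩
  obtain ⟨t, ht, hz, hs, hsum⟩ := exists_good (D.tailC_nonneg N) (D.summable_tailC N) D.z b hr hr1
  refine ⟨t, ht, ?_⟩
  have hmain := D.le_weight hz N hs
  refine le_trans ?_ hmain
  have htpos : 0 < t := by linarith [ht.1]
  -- lower bound of the finite product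
  have hP : r ^ m * κ1 ≤ D.P N (b + r * t) := by
    have hsplit : ∀ k ∈ Finset.range N,
        (if D.z k = b then r ^ D.c k else 1) * η ^ D.c k ≤ ‖b + r * t - D.z k‖ ^ D.c k := by
      intro k hk
      split_ifs with hkb
      · have h1 : ‖b + r * t - D.z k‖ = r * t := by
          rw [hkb, add_sub_cancel_left, norm_mul, Complex.norm_real, Complex.norm_real,
            Real.norm_eq_abs, Real.norm_eq_abs, abs_of_pos hr, abs_of_pos htpos]
        rw [h1, ← Real.mul_rpow hr.le hη0.le]
        apply Real.rpow_le_rpow (by positivity) _ (D.pos k).le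
        have := ht.1
        nlinarith
      · rw [one_mul]
        apply Real.rpow_le_rpow hη0.le _ (D.pos k).le
        have h2 := hη k hk hkb
        have h3 : ‖(r : ℂ) * t‖ = r * t := by
          rw [norm_mul, Complex.norm_real, Complex.norm_real,
            Real.norm_eq_abs, Real.norm_eq_abs, abs_of_pos hr, abs_of_pos htpos]
        have h4 : ‖b - D.z k‖ ≤ ‖b + r * t - D.z k‖ + ‖(r : ℂ) * t‖ := by
          have := norm_sub_le (b + r * t - D.z k) ((r : ℂ) * t)
          have h5 : b + r * t - D.z k - (r : ℂ) * t = b - D.z k := by ring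
          rwa [h5] at this
        have := ht.2
        nlinarith
    have h6 : (∏ k ∈ Finset.range N, if D.z k = b then r ^ D.c k else 1) * κ1
        ≤ D.P N (b + r * t) := by
      rw [hκ1, ← Finset.prod_mul_distrib]
      unfold P
      apply Finset.prod_le_prod _ hsplit
      intro k _
      have : 0 < η ^ D.c k := Real.rpow_pos_of_pos hη0 _
      split_ifs
      · have : 0 < r ^ D.c k := Real.rpow_pos_of_pos hr _
        positivity
      · positivity
    have h7 : r ^ m ≤ ∏ k ∈ Finset.range N, if D.z k = b then r ^ D.c k else 1 := by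
      by_cases hex : ∃ j ∈ Finset.range N, D.z j = b
      · obtain ⟨j, hj, hjb⟩ := hex
        rw [Finset.prod_eq_single_of_mem j hj, if_pos hjb]
        · exact Real.rpow_le_rpow_of_exponent_ge hr hr1 (hmb j hjb)
        · intro k _ hkj
          rw [if_neg]
          intro hkb
          exact hkj (D.inj (hkb.trans hjb.symm))
      · push Not at hex
        rw [Finset.prod_eq_one]
        · exact Real.rpow_le_one hr.le hr1 hm
        · intro k hk
          rw [if_neg (hex k hk)]
    exact (mul_le_mul_of_nonneg_right h7 hκ1pos.le).trans h6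
  -- the tail
  have hE : r ^ ε * Real.exp (-(A * C0.toReal))
      ≤ Real.exp (-∑' k, D.tailC N k * L (b + r * t - D.z k)) := by
    rw [Real.rpow_def_of_pos hr, ← Real.exp_add]
    apply Real.exp_le_exp.2
    have h8 : Real.log (1 / r) = -Real.log r := by rw [one_div, Real.log_inv]
    rw [h8, mul_add] at hsum
    have h9 : Real.log r ≤ 0 := Real.log_nonpos hr.le hr1
    nlinarith
  rw [Real.rpow_add hr]
  calc κ1 * Real.exp (-(A * C0.toReal)) * (r ^ m * r ^ ε)
      = (r ^ m * κ1) * (r ^ ε * Real.exp (-(A * C0.toReal))) := by ring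
    _ ≤ _ := mul_le_mul hP hE (mul_nonneg (Real.rpow_nonneg hr.le _) (Real.exp_pos _).le)
        (D.P_nonneg _ _)

end Data

end H73SK
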