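import Mathlib
import Pool.Agent.H73.SK.Good

/-! Entire curves in the domain: either the first coordinate is constant or the second
coordinate vanishes. -/

open Filter Topology Set Metric MeasureTheory Real MeromorphicOn

namespace H73SK

lemma jensen_terms_nonneg {h : ℂ → ℂ} {c : ℂ} {r : ℝ} (hr : 0 < r)
    (hh : AnalyticOnNhd ℂ h (closedBall c |r|)) (u : ℂ) :
    0 ≤ (divisor h (closedBall c |r|) u : ℝ) * Real.log (r * ‖c - u‖⁻¹) := by
  by_cases hu : u ∈ closedBall c |r|
  · apply mul_nonneg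
    · have h1 := AnalyticOnNhd.divisor_nonneg hh u
      exact_mod_cast h1
    · rcases eq_or_ne c u with rfl | hne
      · simp
      · apply Real.log_nonneg
        have hpos : 0 < ‖c - u‖ := norm_pos_iff.2 (sub_ne_zero.2 hne)
        rw [← div_eq_mul_inv, le_div_iff₀ hpos, one_mul]
        rw [mem_closedBall, dist_comm, dist_eq_norm, abs_of_pos hr] at hu
        exact hu
  · rw [Function.locallyFinsuppWithin.apply_eq_zero_of_notMem _ hu]
    simp

lemma jensen_support_finite {h : ℂ → ℂ} {c : ℂ} {r : ℝ} :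
    (Function.support fun u => (divisor h (closedBall c |r|) u : ℝ) *
      Real.log (r * ‖c - u‖⁻¹)).Finite := by
  refine ((divisor h (closedBall c |r|)).finiteSupport (isCompact_closedBall _ _)).subset ?_
  intro u hu
  rw [Function.mem_support] at hu ⊢
  intro h0
  apply hu
  rw [h0]
  simp

/-- sub-mean-value inequality -/
lemma jensen_one {h : ℂ → ℂ} (hh : Differentiable ℂ h) {c : ℂ} (hc : h c ≠ 0) {r : ℝ}
    (hr : 0 < r) : Real.log ‖h c‖ ≤ circleAverage (fun ζ => Real.log ‖h ζ‖) c r := by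
  have han : AnalyticOnNhd ℂ h (closedBall c |r|) := fun x _ => hh.analyticAt x
  have h1 := han.circleAverage_log_norm hr.ne' hc
  have h2 : 0 ≤ ∑ᶠ u, (divisor h (closedBall c |r|) u : ℝ) * Real.log (r * ‖c - u‖⁻¹) :=
    finsum_nonneg fun u => jensen_terms_nonneg hr han u
  rw [h1]
  linarith

/-- sub-mean-value inequality with a zero in the disc -/
lemma jensen_two {h : ℂ → ℂ} (hh : Differentiable ℂ h) {c : ℂ} (hc : h c ≠ 0) {r : ℝ}
    (hr : 0 < r) {d : ℂ} (hd : h d = 0) (hdr : ‖c - d‖ ≤ r) :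
    Real.log ‖h c‖ + Real.log (r * ‖c - d‖⁻¹) ≤ circleAverage (fun ζ => Real.log ‖h ζ‖) c r := by
  have han : AnalyticOnNhd ℂ h (closedBall c |r|) := fun x _ => hh.analyticAt x
  have h1 := han.circleAverage_log_norm hr.ne' hc
  have hdm : d ∈ closedBall c |r| := by
    rw [mem_closedBall, dist_comm, dist_eq_norm, abs_of_pos hr]
    exact hdr
  have hcd : c ≠ d := fun hcd => hc (hcd ▸ hd)
  have hpos : 0 < ‖c - d‖ := norm_pos_iff.2 (sub_ne_zero.2 hcd)
  have h2 := single_le_finsum d jensen_support_finite (fun u => jensen_terms_nonneg hr han u)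
  have hlog : 0 ≤ Real.log (r * ‖c - d‖⁻¹) := by
    apply Real.log_nonneg
    rw [← div_eq_mul_inv, le_div_iff₀ hpos, one_mul]
    exact hdr
  have h3 : (1 : ℝ) ≤ (divisor h (closedBall c |r|) d : ℝ) := by
    have hne : divisor h (closedBall c |r|) d ≠ 0 := by
      rw [AnalyticOnNhd.divisor_apply han hdm]
      have hd0 : analyticOrderAt h d ≠ 0 := by
        rw [(hh.analyticAt d).analyticOrderAt_ne_zero]
        exact hd
      have hdt : analyticOrderAt h d ≠ ⊤ := by
        intro htop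
        have hz := (AnalyticOnNhd.analyticOrderAt_eq_top_iff_eq_zero d
          (fun z => hh.analyticAt z)).1 htop
        apply hc
        rw [hz]
        rfl
      obtain ⟨n, hn⟩ := ENat.ne_top_iff_exists.1 hdt
      rw [← hn] at hd0 ⊢
      have hn0 : n ≠ 0 := by
        rintro rfl
        exact hd0 rfl
      simpa using hn0
    have hnn := AnalyticOnNhd.divisor_nonneg han d
    have : (1 : ℤ) ≤ divisor h (closedBall c |r|) d := by
      have h5 : (0 : ℤ) ≤ divisor h (closedBall c |r|) d := hnn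
      omega
    exact_mod_cast this
  rw [h1]
  have h4 : Real.log (r * ‖c - d‖⁻¹)
      ≤ (divisor h (closedBall c |r|) d : ℝ) * Real.log (r * ‖c - d‖⁻¹) := by
    nlinarith
  linarith

/-- A function which is `≤ 0` on the circle off the zeros of an entire function has nonpositive
circle average. -/
lemma circleAverage_nonpos_off_zeros {v : ℂ → ℝ} {H : ℂ → ℂ} (hH : Differentiable ℂ H) {c : ℂ}
    (hc : H c ≠ 0) {r : ℝ} (hr : 0 < r) (hv : ∀ ζ ∈ sphere c r, H ζ ≠ 0 → v ζ ≤ 0) :
    circleAverage v c r ≤ 0 := by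
  classical
  set v' : ℂ → ℝ := fun ζ => if H ζ = 0 then 0 else -v ζ with hv'
  have hcod : H ⁻¹' {0}ᶜ ∈ codiscreteWithin (sphere c |r|) := by
    have h1 : AnalyticOnNhd ℂ H univ := fun x _ => hH.analyticAt x
    have h2 := h1.preimage_zero_mem_codiscreteWithin hc (mem_univ c) isConnected_univ
    exact codiscreteWithin_mono (subset_univ _) h2
  have hEq : (-v) =ᶠ[codiscreteWithin (sphere c |r|)] v' := by
    filter_upwards [hcod] with ζ hζ
    have hne : H ζ ≠ 0 := by simpa using hζ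
    simp [hv', hne]
  have h3 : circleAverage (-v) c r = circleAverage v' c r :=
    circleAverage_congr_codiscreteWithin hEq hr.ne'
  have h4 : 0 ≤ circleAverage v' c r := by
    apply circleAverage_nonneg_of_nonneg
    intro ζ hζ
    rw [abs_of_pos hr] at hζ
    rw [hv']
    beta_reduce
    split_ifs with h
    · exact le_rfl
    · have := hv ζ hζ h
      linarith
  have h5 : circleAverage (-v) c r = -circleAverage v c r := by
    have h6 : (-v) = ((-1 : ℝ) • v) := by
      ext ζ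
      simp
    rw [h6, circleAverage_smul]
    simp
  rw [← h3, h5] at h4
  linarith

lemma circleIntegrable_log {h : ℂ → ℂ} (hh : Differentiable ℂ h) (c : ℂ) (r : ℝ) :
    CircleIntegrable (fun ζ => Real.log ‖h ζ‖) c r :=
  MeromorphicOn.circleIntegrable_log_norm fun z _ => (hh.analyticAt z).meromorphicAt

/-- There is no entire curve in the domain with nonconstant first coordinate and second coordinate
not identically zero. -/
theorem Data.no_curve (D : Data) {f g : ℂ → ℂ} (hf : Differentiable ℂ f)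
    (hg : Differentiable ℂ g) (hdom : ∀ ζ, D.weight (f ζ) * ‖g ζ‖ < 1) {c : ℂ} (hgc : g c ≠ 0)
    (hWc : 0 < D.weight (f c)) {d : ℂ} {j : ℕ} (hd : f d = D.z j) : False := by
  have hcd : c ≠ d := by
    rintro rfl
    rw [hd, D.weight_z] at hWc
    exact lt_irrefl _ hWc
  have hδ : 0 < ‖c - d‖ := norm_pos_iff.2 (sub_ne_zero.2 hcd)
  set V0 := Real.log (D.weight (f c) * ‖g c‖) with hV0
  set r := Real.exp ((1 + |V0|) / D.c j) * ‖c - d‖ with hrdef
  have hr : 0 < r := mul_pos (Real.exp_pos _) hδ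
  have hexp : 0 ≤ (1 + |V0|) / D.c j := div_nonneg (by positivity) (D.pos j).le
  have hdr : ‖c - d‖ ≤ r := by
    rw [hrdef]
    have : 1 ≤ Real.exp ((1 + |V0|) / D.c j) := Real.one_le_exp hexp
    nlinarith
  have hlogr : Real.log (r * ‖c - d‖⁻¹) = (1 + |V0|) / D.c j := by
    rw [hrdef, mul_assoc, mul_inv_cancel₀ hδ.ne', mul_one, Real.log_exp]
  -- bound for f
  obtain ⟨ρ, hρ⟩ : ∃ ρ, ∀ ζ ∈ closedBall c r, ‖f ζ‖ ≤ ρ :=
    (isCompact_closedBall c r).exists_bound_of_continuousOn hf.continuous.continuousOn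
  -- the compact curve
  set K : Set (ℂ × ℂ) := (fun ζ => (f ζ, g ζ)) '' sphere c r with hK
  have hKc : IsCompact K := (isCompact_sphere c r).image (hf.continuous.prodMk hg.continuous)
  have hKD : K ⊆ D.dom fun w : ℂ => ‖w‖ := by
    rintro _ ⟨ζ, -, rfl⟩
    exact hdom ζ
  have hKρ : ∀ p ∈ K, ‖p.1‖ ≤ ρ := by
    rintro _ ⟨ζ, hζ, rfl⟩
    exact hρ ζ (sphere_subset_closedBall hζ)
  obtain ⟨N0, hN0⟩ := D.exists_U_lt_of_compact (gauge_norm ℂ) hKc hKD hKρ
  set N := max N0 (j + 1) with hN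
  have hjN : j ∈ Finset.range N := Finset.mem_range.2 (lt_of_lt_of_le (Nat.lt_succ_self j)
    (le_max_right _ _))
  have hUN : ∀ ζ ∈ sphere c r, D.U ρ N (f ζ) * ‖g ζ‖ < 1 := by
    intro ζ hζ
    have h1 := hN0 (f ζ, g ζ) ⟨ζ, hζ, rfl⟩
    have h2 : D.U ρ N (f ζ) ≤ D.U ρ N0 (f ζ) :=
      D.U_antitone (hρ ζ (sphere_subset_closedBall hζ)) (le_max_left _ _)
    exact (mul_le_mul_of_nonneg_right h2 (norm_nonneg _)).trans_lt h1
  -- the entire functions
  have hfk : ∀ k, Differentiable ℂ fun ζ => f ζ - D.z k := fun k => hf.sub_const _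
  have hfc : ∀ k, f c - D.z k ≠ 0 := by
    intro k hk
    rw [sub_eq_zero.1 hk, D.weight_z] at hWc
    exact lt_irrefl _ hWc
  set H : ℂ → ℂ := fun ζ => g ζ * ∏ k ∈ Finset.range N, (f ζ - D.z k) with hH
  have hHd : Differentiable ℂ H := by
    apply hg.mul
    apply Differentiable.fun_finsetProd
    intro k _
    exact hfk k
  have hHc : H c ≠ 0 := mul_ne_zero hgc (Finset.prod_ne_zero_iff.2 fun k _ => hfc k)
  set v : ℂ → ℝ := fun ζ => Real.log ‖g ζ‖ +
    (∑ k ∈ Finset.range N, D.c k * Real.log ‖f ζ - D.z k‖ + D.T ρ N) with hv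
  -- value of v where nothing vanishes
  have hval : ∀ ζ, g ζ ≠ 0 → (∀ k ∈ Finset.range N, f ζ - D.z k ≠ 0) →
      v ζ = Real.log (D.U ρ N (f ζ) * ‖g ζ‖) := by
    intro ζ hgζ hfζ
    have hP : 0 < D.P N (f ζ) := Finset.prod_pos fun k hk =>
      Real.rpow_pos_of_pos (norm_pos_iff.2 (hfζ k hk)) _
    unfold Data.U
    rw [Real.log_mul (mul_pos hP (Real.exp_pos _)).ne' (norm_pos_iff.2 hgζ).ne',
      Real.log_mul hP.ne' (Real.exp_pos _).ne', Real.log_exp]
    have hlogP : Real.log (D.P N (f ζ)) =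
        ∑ k ∈ Finset.range N, D.c k * Real.log ‖f ζ - D.z k‖ := by
      unfold Data.P
      rw [Real.log_prod fun k hk => (Real.rpow_pos_of_pos (norm_pos_iff.2 (hfζ k hk)) _).ne']
      apply Finset.sum_congr rfl
      intro k hk
      rw [Real.log_rpow (norm_pos_iff.2 (hfζ k hk))]
    rw [hlogP, hv]
    ring
  -- upper bound
  have hupper : circleAverage v c r ≤ 0 := by
    apply circleAverage_nonpos_off_zeros hHd hHc hr
    intro ζ hζ hHζ
    have h1 : g ζ ≠ 0 := left_ne_zero_of_mul hHζ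
    have h2 : ∀ k ∈ Finset.range N, f ζ - D.z k ≠ 0 :=
      Finset.prod_ne_zero_iff.1 (right_ne_zero_of_mul hHζ)
    rw [hval ζ h1 h2]
    exact Real.log_nonpos (mul_nonneg (D.U_nonneg _ _ _) (norm_nonneg _)) (hUN ζ hζ).le
  -- the average as a sum
  have hci : ∀ k, CircleIntegrable (fun ζ => D.c k * Real.log ‖f ζ - D.z k‖) c r := by
    intro k
    exact (circleIntegrable_log (hfk k) c r).const_smul (a := D.c k)
  have hsplit : circleAverage v c r = circleAverage (fun ζ => Real.log ‖g ζ‖) c r +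
      (∑ k ∈ Finset.range N, D.c k * circleAverage (fun ζ => Real.log ‖f ζ - D.z k‖) c r +
        D.T ρ N) := by
    have hi1 : CircleIntegrable (fun ζ => ∑ k ∈ Finset.range N,
        D.c k * Real.log ‖f ζ - D.z k‖) c r := by
      have h0 := CircleIntegrable.sum (Finset.range N) (f := fun k ζ =>
        D.c k * Real.log ‖f ζ - D.z k‖) (c := c) (R := r) fun k _ => hci k
      have h1 : (∑ k ∈ Finset.range N, fun ζ => D.c k * Real.log ‖f ζ - D.z k‖) =
          fun ζ => ∑ k ∈ Finset.range N, D.c k * Real.log ‖f ζ - D.z k‖ := by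
        ext ζ
        simp
      rwa [h1] at h0
    have hi2 : CircleIntegrable (fun _ : ℂ => D.T ρ N) c r := circleIntegrable_const _ _ _
    have hi3 : CircleIntegrable (fun ζ => ∑ k ∈ Finset.range N,
        D.c k * Real.log ‖f ζ - D.z k‖ + D.T ρ N) c r := hi1.add hi2
    rw [hv, circleAverage_fun_add (circleIntegrable_log hg c r) hi3,
      circleAverage_fun_add hi1 hi2, circleAverage_const, circleAverage_fun_sum fun k _ => hci k]
    congr 3
    funext k
    exact circleAverage_fun_smul (a := D.c k)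
  -- lower bound
  have hlow1 : Real.log ‖g c‖ ≤ circleAverage (fun ζ => Real.log ‖g ζ‖) c r :=
    jensen_one hg hgc hr
  have hlow2 : ∑ k ∈ Finset.range N, D.c k * Real.log ‖f c - D.z k‖ + (1 + |V0|) ≤
      ∑ k ∈ Finset.range N, D.c k * circleAverage (fun ζ => Real.log ‖f ζ - D.z k‖) c r := by
    have hj := jensen_two (hfk j) (hfc j) hr (d := d) (by rw [hd, sub_self]) hdr
    rw [hlogr] at hj
    rw [← Finset.add_sum_erase _ _ hjN, ← Finset.add_sum_erase _ (fun k => D.c k *
      circleAverage (fun ζ => Real.log ‖f ζ - D.z k‖) c r) hjN]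
    have h1 : ∑ k ∈ (Finset.range N).erase j, D.c k * Real.log ‖f c - D.z k‖ ≤
        ∑ k ∈ (Finset.range N).erase j,
          D.c k * circleAverage (fun ζ => Real.log ‖f ζ - D.z k‖) c r := by
      apply Finset.sum_le_sum
      intro k _
      exact mul_le_mul_of_nonneg_left (jensen_one (hfk k) (hfc k) hr) (D.pos k).le
    have h2 := mul_le_mul_of_nonneg_left hj (D.pos j).le
    rw [mul_add, mul_div_cancel₀ _ (D.pos j).ne'] at h2
    linarith
  -- conclusion
  have hcen := hval c hgc fun k _ => hfc k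
  have hcρ : ‖f c‖ ≤ ρ := hρ c (mem_closedBall_self hr.le)
  have hge : V0 ≤ Real.log (D.U ρ N (f c) * ‖g c‖) := by
    apply Real.log_le_log (mul_pos hWc (norm_pos_iff.2 hgc))
    exact mul_le_mul_of_nonneg_right (D.weight_le_U hcρ N) (norm_nonneg _)
  rw [← hcen] at hge
  have hvc : v c = Real.log ‖g c‖ +
    (∑ k ∈ Finset.range N, D.c k * Real.log ‖f c - D.z k‖ + D.T ρ N) := rfl
  have := neg_abs_le V0
  rw [hsplit] at hupper
  linarith


section

variable (D : Data) {E : Type*} [NormedAddCommGroup E] [NormedSpace ℂ E] {V : E → ℝ}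

/-- Entire curves: nonzero second coordinate forces constant first coordinate. -/
theorem Data.curve_const (hV : Gauge V) {F : ℂ → ℂ × E} (hF : Differentiable ℂ F)
    (hM : ∀ ζ, F ζ ∈ D.dom V)
    {ζ0 : ℂ} (h0 : (F ζ0).2 ≠ 0) (ζ : ℂ) : (F ζ).1 = (F ζ0).1 := by
  obtain ⟨ℓ, hℓ1, hℓ2⟩ := exists_dual_vector'' ℂ (F ζ0).2
  have hℓle : ∀ w : E, ‖ℓ w‖ ≤ ‖w‖ := fun w =>
    (ℓ.le_opNorm w).trans (by nlinarith [norm_nonneg w])
  set f : ℂ → ℂ := fun ζ => (F ζ).1 with hf
  set g : ℂ → ℂ := fun ζ => ℓ (F ζ).2 with hg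
  have hfd : Differentiable ℂ f := hF.fst
  have hgd : Differentiable ℂ g := ℓ.differentiable.comp hF.snd
  have hdom : ∀ ζ, D.weight (f ζ) * ‖g ζ‖ < 1 := by
    intro ζ
    exact (mul_le_mul_of_nonneg_left (hℓle _) (D.weight_nonneg _)).trans_lt
      (D.norm_lt_of_mem hV (hM ζ))
  have hg0 : g ζ0 ≠ 0 := by
    intro h
    have h5 : ℓ (F ζ0).2 = 0 := h
    rw [hℓ2] at h5
    have h6 : ‖(F ζ0).2‖ = 0 := by simpa using h5
    exact h0 (norm_eq_zero.1 h6)
  have han : AnalyticOnNhd ℂ f univ := fun x _ => hfd.analyticAt x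
  rcases han.is_constant_or_isOpen isPreconnected_univ with ⟨w, hw⟩ | hop
  · have h1 := hw ζ (mem_univ _)
    have h2 := hw ζ0 (mem_univ _)
    change f ζ = f ζ0
    rw [h1, h2]
  · exfalso
    have hs : IsOpen {ζ | g ζ ≠ 0} := isOpen_ne_fun hgd.continuous continuous_const
    obtain ⟨x, ⟨c, hc, rfl⟩, hx⟩ := D.exists_weight_pos (hop _ (subset_univ _) hs)
      ⟨f ζ0, ζ0, hg0, rfl⟩
    obtain ⟨_, ⟨j, rfl⟩, ⟨d, -, hd⟩⟩ := D.dense.exists_mem_open (hop univ (subset_univ _) isOpen_univ)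
      ⟨f ζ0, ζ0, mem_univ _, rfl⟩ |> fun ⟨j, hj⟩ => (⟨D.z j, ⟨j, rfl⟩, hj⟩ :
        ∃ x, x ∈ Set.range D.z ∧ x ∈ f '' univ)
    exact D.no_curve hfd hgd hdom hc hx hd

/-- Holomorphic maps from a complex normed space into the domain. -/
theorem Data.entire_map (hV : Gauge V) {W : Type*} [NormedAddCommGroup W] [NormedSpace ℂ W]
    {F : W → ℂ × E} (hF : Differentiable ℂ F) (hM : ∀ v, F v ∈ D.dom V) :
    (∀ v, (F v).2 = 0) ∨ ∃ x0, ∀ v, (F v).1 = x0 := by
  by_cases h : ∀ v, (F v).2 = 0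
  · exact Or.inl h
  · push Not at h
    obtain ⟨u, hu⟩ := h
    refine Or.inr ⟨(F u).1, fun p => ?_⟩
    have h1 := D.curve_const hV (F := fun ζ : ℂ => F (u + ζ • (p - u))) (by
      apply hF.comp
      fun_prop) (fun ζ => hM _) (ζ0 := 0) (by simpa using hu) 1
    simpa using h1

end

end H73SK
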