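import Mathlib
import Pool.Agent.H73.SK.Curves
import Pool.Agent.H73.SK.Affine

/-! Biholomorphic maps between two of the domains: the first coordinate. -/

open Filter Topology Set Metric

namespace H73SK

/-- A pair of mutually inverse holomorphic maps between two domains. -/
structure Pair {E : Type*} [NormedAddCommGroup E] [NormedSpace ℂ E] (D D' : Data)
    (V V' : E → ℝ) (F G : ℂ × E → ℂ × E) : Prop where
  hV : Gauge V
  hV' : Gauge V'
  hF : DifferentiableOn ℂ F (D.dom V)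
  hG : DifferentiableOn ℂ G (D'.dom V')
  mF : MapsTo F (D.dom V) (D'.dom V')
  mG : MapsTo G (D'.dom V') (D.dom V)
  gf : ∀ p ∈ D.dom V, G (F p) = p
  fg : ∀ q ∈ D'.dom V', F (G q) = q

variable {E : Type*} [NormedAddCommGroup E] [NormedSpace ℂ E] {D D' : Data}
  {V V' : E → ℝ} {F G : ℂ × E → ℂ × E}

-- density of good fibres
omit [NormedSpace ℂ E] in
lemma Data.eq_of_dense (D : Data) (hV : Gauge V) {Y : Type*} [TopologicalSpace Y] [T2Space Y] {f g : ℂ × E → Y}
    (hf : ContinuousOn f (D.dom V)) (hg : ContinuousOn g (D.dom V)) {S : Set ℂ} (hS : Dense S)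
    (h : ∀ p ∈ D.dom V, p.1 ∈ S → f p = g p) : ∀ p ∈ D.dom V, f p = g p := by
  rintro ⟨x, w⟩ hp
  obtain ⟨u, hu, hlim⟩ := mem_closure_iff_seq_limit.1 (hS x)
  have h1 : Tendsto (fun n => ((u n, w) : ℂ × E)) atTop (𝓝 (x, w)) :=
    hlim.prodMk_nhds tendsto_const_nhds
  have hmem : ∀ᶠ n in atTop, ((u n, w) : ℂ × E) ∈ D.dom V := h1 ((D.isOpen_dom hV).mem_nhds hp)
  have hfc : ContinuousAt f (x, w) := hf.continuousAt ((D.isOpen_dom hV).mem_nhds hp)
  have hgc : ContinuousAt g (x, w) := hg.continuousAt ((D.isOpen_dom hV).mem_nhds hp)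
  have h2 := hfc.tendsto.comp h1
  have h3 := hgc.tendsto.comp h1
  refine tendsto_nhds_unique (h2.congr' ?_) h3
  filter_upwards [hmem] with n hn
  exact h _ hn (hu n)

lemma Data.dense_pos (D : Data) : Dense {x : ℂ | 0 < D.weight x} := by
  rw [dense_iff_inter_open]
  intro V hV hne
  obtain ⟨x, hx, hpos⟩ := D.exists_weight_pos hV hne
  exact ⟨x, hx, hpos⟩

namespace Pair

lemma symm (P : Pair D D' V V' F G) : Pair D' D V' V G F :=
  ⟨P.hV', P.hV, P.hG, P.hF, P.mG, P.mF, P.fg, P.gf⟩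

lemma comp_entire (P : Pair D D' V V' F G) {W : Type*} [NormedAddCommGroup W] [NormedSpace ℂ W]
    {γ : W → ℂ × E} (hγ : Differentiable ℂ γ) (hM : ∀ v, γ v ∈ D.dom V) :
    Differentiable ℂ fun v => F (γ v) := by
  intro v
  have h1 : DifferentiableAt ℂ F (γ v) := P.hF.differentiableAt ((D.isOpen_dom P.hV).mem_nhds (hM v))
  exact h1.comp v (hγ v)

lemma injOn (P : Pair D D' V V' F G) {p q : ℂ × E} (hp : p ∈ D.dom V) (hq : q ∈ D.dom V)
    (h : F p = F q) : p = q := by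
  rw [← P.gf p hp, h, P.gf q hq]

/-- an entire map into a fibre of positive weight is constant -/
lemma fibre_const (D : Data) (hV : Gauge V) {W : Type*} [NormedAddCommGroup W] [NormedSpace ℂ W]
    {γ : W → ℂ × E} (hγ : Differentiable ℂ γ) (hM : ∀ v, γ v ∈ D.dom V) {x0 : ℂ}
    (h0 : ∀ v, (γ v).1 = x0) (hW : 0 < D.weight x0) (u v : W) : γ u = γ v := by
  have h1 : (γ u).2 = (γ v).2 := by
    have h2 : Differentiable ℂ fun v => (γ v).2 := hγ.snd
    apply h2.apply_eq_apply_of_bounded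
    rw [isBounded_iff_forall_norm_le]
    refine ⟨1 / D.weight x0, ?_⟩
    rintro _ ⟨v, rfl⟩
    have h3 := D.norm_lt_of_mem hV (hM v)
    rw [h0 v] at h3
    rw [le_div_iff₀ hW]
    simp only
    linarith
  exact Prod.ext ((h0 u).trans (h0 v).symm) h1

/-- the line `w = 0` is mapped into the line `w = 0` -/
lemma snd_zero [Nontrivial E] (P : Pair D D' V V' F G) (x : ℂ) : (F (x, 0)).2 = 0 := by
  by_contra hne
  have hline : Differentiable ℂ fun ζ : ℂ => ((ζ, (0 : E)) : ℂ × E) := by fun_prop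
  have hd := P.comp_entire hline fun ζ => D.mem_dom_zero P.hV ζ
  have hm : ∀ ζ : ℂ, F (ζ, (0 : E)) ∈ D'.dom V' := fun ζ => P.mF (D.mem_dom_zero P.hV ζ)
  set x0 := (F (x, (0 : E))).1 with hx0
  have h1 : ∀ ζ, (F (ζ, (0 : E))).1 = x0 := fun ζ => D'.curve_const P.hV' hd hm hne ζ
  have hW : D'.weight x0 = 0 := by
    by_contra hW
    have hWpos : 0 < D'.weight x0 := lt_of_le_of_ne (D'.weight_nonneg _) (Ne.symm hW)
    have h2 := fibre_const D' P.hV' hd hm h1 hWpos 0 1
    have h3 := P.injOn (D.mem_dom_zero P.hV 0) (D.mem_dom_zero P.hV 1) h2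
    exact zero_ne_one (congrArg Prod.fst h3)
  have hmem : ∀ w : E, ((x0, w) : ℂ × E) ∈ D'.dom V' := D'.mem_dom_of_weight hW
  have hGd : Differentiable ℂ fun w : E => G (x0, w) :=
    P.symm.comp_entire (γ := fun w : E => ((x0, w) : ℂ × E)) (by fun_prop) hmem
  have hG2 : ∀ w : E, (G (x0, w)).2 = 0 := by
    rcases D.entire_map P.hV hGd fun w => P.mG (hmem w) with h | ⟨y, hy⟩
    · exact h
    · exfalso
      have e0 : G (x0, (F ((0 : ℂ), (0 : E))).2) = (0, 0) := by
        have : (x0, (F ((0 : ℂ), (0 : E))).2) = F (0, 0) := Prod.ext (h1 0).symm rfl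
        rw [this, P.gf _ (D.mem_dom_zero P.hV 0)]
      have e1 : G (x0, (F ((1 : ℂ), (0 : E))).2) = (1, 0) := by
        have : (x0, (F ((1 : ℂ), (0 : E))).2) = F (1, 0) := Prod.ext (h1 1).symm rfl
        rw [this, P.gf _ (D.mem_dom_zero P.hV 1)]
      have f0 := hy (F ((0 : ℂ), (0 : E))).2
      have f1 := hy (F ((1 : ℂ), (0 : E))).2
      rw [e0] at f0
      rw [e1] at f1
      exact zero_ne_one (f0.trans f1.symm)
  obtain ⟨w0, hw0⟩ := exists_ne (0 : E)
  have hk : ∀ (k : ℕ) (w : E), (F (D.z k, w)).2 = 0 := by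
    intro k
    have hFd : Differentiable ℂ fun w : E => F (D.z k, w) :=
      P.comp_entire (γ := fun w : E => ((D.z k, w) : ℂ × E)) (by fun_prop) (D.mem_dom_z k)
    rcases D'.entire_map P.hV' hFd fun w => P.mF (D.mem_dom_z k w) with h | ⟨y, hy⟩
    · exact h
    · exfalso
      have h5 : y = x0 := (hy 0).symm.trans (h1 (D.z k))
      have h6 : F (D.z k, w0) = (x0, (F (D.z k, w0)).2) := Prod.ext ((hy w0).trans h5) rfl
      have h7 := hG2 (F (D.z k, w0)).2
      rw [← h6, P.gf _ (D.mem_dom_z k w0)] at h7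
      exact hw0 h7
  have hall : ∀ p ∈ D.dom V, (F p).2 = 0 := by
    apply D.eq_of_dense P.hV (f := fun p => (F p).2) (g := fun _ => (0 : E))
      (P.hF.continuousOn.snd) continuousOn_const D.dense
    rintro ⟨y, w⟩ _ ⟨k, hk'⟩
    simp only at hk'
    rw [← hk']
    exact hk k w
  have h8 := hall (G (D'.z 0, w0)) (P.mG (D'.mem_dom_z 0 w0))
  rw [P.fg _ (D'.mem_dom_z 0 w0)] at h8
  exact hw0 h8

/-- the induced affine map of the base -/
lemma exists_affine [Nontrivial E] (P : Pair D D' V V' F G) :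
    ∃ α β : ℂ, α ≠ 0 ∧ ∀ p ∈ D.dom V, (F p).1 = α * p.1 + β := by
  set σ : ℂ → ℂ := fun x => (F (x, 0)).1 with hσ
  set τ : ℂ → ℂ := fun x => (G (x, 0)).1 with hτ
  have hline : Differentiable ℂ fun ζ : ℂ => ((ζ, (0 : E)) : ℂ × E) := by fun_prop
  have hσd : Differentiable ℂ σ := (P.comp_entire hline fun ζ => D.mem_dom_zero P.hV ζ).fst
  have hτd : Differentiable ℂ τ := (P.symm.comp_entire hline fun ζ => D'.mem_dom_zero P.hV' ζ).fst
  have hF0 : ∀ x, F (x, 0) = (σ x, 0) := fun x => Prod.ext rfl (P.snd_zero x)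
  have hG0 : ∀ x, G (x, 0) = (τ x, 0) := fun x => Prod.ext rfl (P.symm.snd_zero x)
  have hτσ : ∀ x, τ (σ x) = x := by
    intro x
    have := P.gf _ (D.mem_dom_zero P.hV (E := E) x)
    rw [hF0, hG0] at this
    exact congrArg Prod.fst this
  have hστ : ∀ x, σ (τ x) = x := by
    intro x
    have := P.fg _ (D'.mem_dom_zero P.hV' (E := E) x)
    rw [hG0, hF0] at this
    exact congrArg Prod.fst this
  obtain ⟨α, β, hα, hαβ⟩ := affine_of_inverse hσd hτd hτσ
  refine ⟨α, β, hα, ?_⟩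
  have hk : ∀ (k : ℕ) (w : E), (F (D.z k, w)).1 = σ (D.z k) := by
    intro k w
    have hFd : Differentiable ℂ fun w : E => F (D.z k, w) :=
      P.comp_entire (γ := fun w : E => ((D.z k, w) : ℂ × E)) (by fun_prop) (D.mem_dom_z k)
    rcases D'.entire_map P.hV' hFd fun w => P.mF (D.mem_dom_z k w) with h | ⟨y, hy⟩
    · exfalso
      obtain ⟨w0, hw0⟩ := exists_ne (0 : E)
      have h1 : F (D.z k, w0) = F (τ (F (D.z k, w0)).1, 0) := by
        rw [hF0, hστ]
        exact Prod.ext rfl (h w0)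
      have h2 := P.injOn (D.mem_dom_z k w0) (D.mem_dom_zero P.hV _) h1
      exact hw0 (congrArg Prod.snd h2)
    · rw [hy w, ← hy 0]
  apply D.eq_of_dense P.hV (f := fun p => (F p).1) (g := fun p => α * p.1 + β)
    (P.hF.continuousOn.fst) (by fun_prop) D.dense
  rintro ⟨y, w⟩ _ ⟨k, hk'⟩
  simp only at hk' ⊢
  rw [← hk', hk k w, hαβ]

end Pair

end H73SK
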