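import Mathlib
import Pool.Agent.H73.SK.Rigid

/-! Biholomorphic maps between two of the domains: the fibres. -/

open Filter Topology Set Metric

namespace H73SK

namespace Pair

section normed

variable {E : Type*} [NormedAddCommGroup E] [NormedSpace ℂ E] {D D' : Data}
  {V V' : E → ℝ} {F G : ℂ × E → ℂ × E} {α β : ℂ}

/-- the base map of the inverse -/
lemma base_symm (P : Pair D D' V V' F G) (hα : α ≠ 0)
    (hb : ∀ p ∈ D.dom V, (F p).1 = α * p.1 + β) :
    ∀ q ∈ D'.dom V', (G q).1 = α⁻¹ * q.1 + -(α⁻¹ * β) := by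
  intro q hq
  have h1 := hb (G q) (P.mG hq)
  rw [P.fg q hq] at h1
  rw [h1]
  field_simp
  ring

lemma weight_pos_image [Nontrivial E] (P : Pair D D' V V' F G) (hα : α ≠ 0)
    (hb : ∀ p ∈ D.dom V, (F p).1 = α * p.1 + β) {x : ℂ} (hx : 0 < D.weight x) :
    0 < D'.weight (α * x + β) := by
  by_contra hW
  have hW0 : D'.weight (α * x + β) = 0 := le_antisymm (not_lt.1 hW) (D'.weight_nonneg _)
  have hmem : ∀ w : E, ((α * x + β, w) : ℂ × E) ∈ D'.dom V' := D'.mem_dom_of_weight hW0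
  have hGd : Differentiable ℂ fun w : E => G (α * x + β, w) :=
    P.symm.comp_entire (γ := fun w : E => ((α * x + β, w) : ℂ × E)) (by fun_prop) hmem
  have h1 : ∀ w : E, (G (α * x + β, w)).1 = x := by
    intro w
    rw [P.base_symm hα hb _ (hmem w)]
    field_simp
    ring
  obtain ⟨w0, hw0⟩ := exists_ne (0 : E)
  have h2 := fibre_const D P.hV hGd (fun w => P.mG (hmem w)) h1 hx w0 0
  have h3 := P.symm.injOn (hmem w0) (hmem 0) h2
  exact hw0 (congrArg Prod.snd h3)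

end normed

section nrmfib

variable {E : Type*} [NormedAddCommGroup E] [NormedSpace ℂ E] {D D' : Data}
  {F G : ℂ × E → ℂ × E} {α β : ℂ}

omit [NormedSpace ℂ E] in
lemma mem_ball_iff {D : Data} {x : ℂ} (hx : 0 < D.weight x) (w : E) :
    w ∈ ball (0 : E) (1 / D.weight x) ↔ ((x, w) : ℂ × E) ∈ D.dom (nrm E) := by
  rw [mem_ball_zero_iff, mem_nrm, lt_div_iff₀ hx, mul_comm]

lemma differentiableOn_fibre (P : Pair D D' (nrm E) (nrm E) F G) {x : ℂ} (hx : 0 < D.weight x) :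
    DifferentiableOn ℂ (fun w : E => (F (x, w)).2) (ball 0 (1 / D.weight x)) := by
  intro w hw
  have h1 : DifferentiableAt ℂ F (x, w) :=
    P.hF.differentiableAt ((D.isOpen_dom P.hV).mem_nhds ((mem_ball_iff hx w).1 hw))
  have h2 : DifferentiableAt ℂ (fun w : E => ((x, w) : ℂ × E)) w := by fun_prop
  exact (h1.comp w h2).snd.differentiableWithinAt

lemma schwarz_le [Nontrivial E] (P : Pair D D' (nrm E) (nrm E) F G)
    (hb : ∀ p ∈ D.dom (nrm E), (F p).1 = α * p.1 + β) {x : ℂ} (hx : 0 < D.weight x)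
    (hx' : 0 < D'.weight (α * x + β)) {w : E} (hw : ((x, w) : ℂ × E) ∈ D.dom (nrm E)) :
    D'.weight (α * x + β) * ‖(F (x, w)).2‖ ≤ D.weight x * ‖w‖ := by
  have h0 : (F (x, (0 : E))).2 = 0 := P.snd_zero x
  have hmaps : MapsTo (fun w : E => (F (x, w)).2) (ball 0 (1 / D.weight x))
      (closedBall ((fun w : E => (F (x, w)).2) 0) (1 / D'.weight (α * x + β))) := by
    intro w hw
    simp only
    rw [h0, mem_closedBall_zero_iff, le_div_iff₀ hx']
    have hw' := (mem_ball_iff hx w).1 hw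
    have h1 := P.mF hw'
    rw [mem_nrm, hb _ hw'] at h1
    linarith
  have h2 := Complex.dist_le_div_mul_dist_of_mapsTo_ball (P.differentiableOn_fibre hx) hmaps
    ((mem_ball_iff hx w).2 hw)
  rw [h0, dist_zero_right, dist_zero_right, div_div_div_cancel_left' (hc := one_ne_zero)] at h2
  rw [mul_comm, ← le_div_iff₀ hx']
  calc ‖(F (x, w)).2‖ ≤ D.weight x / D'.weight (α * x + β) * ‖w‖ := h2
    _ = _ := by ring

lemma schwarz_eq [Nontrivial E] (P : Pair D D' (nrm E) (nrm E) F G) (hα : α ≠ 0)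
    (hb : ∀ p ∈ D.dom (nrm E), (F p).1 = α * p.1 + β) {x : ℂ} (hx : 0 < D.weight x)
    {w : E} (hw : ((x, w) : ℂ × E) ∈ D.dom (nrm E)) :
    D'.weight (α * x + β) * ‖(F (x, w)).2‖ = D.weight x * ‖w‖ := by
  have hx' := P.weight_pos_image hα hb hx
  apply le_antisymm (P.schwarz_le hb hx hx' hw)
  have h1 : F (x, w) = (α * x + β, (F (x, w)).2) := Prod.ext (hb _ hw) rfl
  have h2 : ((α * x + β, (F (x, w)).2) : ℂ × E) ∈ D'.dom (nrm E) := by
    rw [← h1]
    exact P.mF hw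
  have h3 : α⁻¹ * (α * x + β) + -(α⁻¹ * β) = x := by
    field_simp
    ring
  have h4 := P.symm.schwarz_le (P.base_symm hα hb) hx' (by rw [h3]; exact hx) h2
  rw [h3, ← h1, P.gf _ hw] at h4
  exact h4

end nrmfib

section inner

variable {E : Type*} [NormedAddCommGroup E] [InnerProductSpace ℂ E] {D D' : Data}
  {F G : ℂ × E → ℂ × E} {α β : ℂ}

/-- the fibre map is homogeneous -/
lemma fibre_homog [Nontrivial E] (P : Pair D D' (nrm E) (nrm E) F G) (hα : α ≠ 0)
    (hb : ∀ p ∈ D.dom (nrm E), (F p).1 = α * p.1 + β) {x : ℂ} (hx : 0 < D.weight x)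
    {w : E} (hw : ((x, w) : ℂ × E) ∈ D.dom (nrm E)) {ζ : ℂ} (hζ : D.weight x * ‖ζ • w‖ < 1) :
    (F (x, ζ • w)).2 = ζ • (F (x, w)).2 := by
  rcases eq_or_ne w 0 with rfl | hw0
  · simp [P.snd_zero x]
  have hwpos : 0 < ‖w‖ := norm_pos_iff.2 hw0
  have hx' := P.weight_pos_image hα hb hx
  have hWw : 0 < D.weight x * ‖w‖ := mul_pos hx hwpos
  set R₁ : ℝ := 1 / (D.weight x * ‖w‖) with hR₁
  set R₂ : ℝ := 1 / D'.weight (α * x + β) with hR₂
  set φ : ℂ → E := fun ζ => (F (x, ζ • w)).2 with hφ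
  have hmem : ∀ ζ ∈ ball (0 : ℂ) R₁, ((x, ζ • w) : ℂ × E) ∈ D.dom (nrm E) := by
    intro ζ hζ
    rw [mem_ball_zero_iff, hR₁, lt_div_iff₀ hWw] at hζ
    rw [mem_nrm, norm_smul]
    linarith
  have h0 : φ 0 = 0 := by
    rw [hφ]
    simp only [zero_smul]
    exact P.snd_zero x
  have hφd : DifferentiableOn ℂ φ (ball 0 R₁) := by
    intro ζ hζ
    have h1 : DifferentiableAt ℂ F (x, ζ • w) :=
      P.hF.differentiableAt ((D.isOpen_dom P.hV).mem_nhds (hmem ζ hζ))
    have h2 : DifferentiableAt ℂ (fun ζ : ℂ => ((x, ζ • w) : ℂ × E)) ζ := by fun_prop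
    exact (h1.comp ζ h2).snd.differentiableWithinAt
  have hmaps : MapsTo φ (ball 0 R₁) (closedBall (φ 0) R₂) := by
    intro ζ hζ
    rw [h0, mem_closedBall_zero_iff, hR₂, le_div_iff₀ hx']
    have h1 := P.mF (hmem ζ hζ)
    rw [mem_nrm, hb _ (hmem ζ hζ)] at h1
    change ‖(F (x, ζ • w)).2‖ * _ ≤ 1
    linarith
  have hone : (1 : ℂ) ∈ ball (0 : ℂ) R₁ := by
    rw [mem_ball_zero_iff, norm_one, hR₁, lt_div_iff₀ hWw, one_mul]
    exact hw
  have hφ1 : φ 1 = (F (x, w)).2 := by rw [hφ]; simp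
  have hds : dslope φ 0 1 = (F (x, w)).2 := by
    rw [dslope_of_ne _ one_ne_zero, slope_def_module, h0, hφ1]
    simp
  have heq : ‖dslope φ 0 1‖ = R₂ / R₁ := by
    rw [hds, hR₁, hR₂, div_div_div_cancel_left' (hc := one_ne_zero), eq_div_iff hx'.ne']
    have := P.schwarz_eq hα hb hx hw
    linarith
  have hζb : ζ ∈ ball (0 : ℂ) R₁ := by
    rw [mem_ball_zero_iff, hR₁, lt_div_iff₀ hWw]
    rw [norm_smul] at hζ
    linarith
  have hsc : StrictConvexSpace ℝ E := by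
    let _ : InnerProductSpace ℝ E := InnerProductSpace.complexToReal
    infer_instance
  have haff := Complex.affine_of_mapsTo_ball_of_norm_dslope_eq_div hφd hmaps hone heq hζb
  simp only [hds, h0, zero_add, sub_zero] at haff
  exact haff

/-- the fibre map is linear -/
lemma fibre_linear [Nontrivial E] (P : Pair D D' (nrm E) (nrm E) F G) (hα : α ≠ 0)
    (hb : ∀ p ∈ D.dom (nrm E), (F p).1 = α * p.1 + β) {x : ℂ} (hx : 0 < D.weight x) :
    ∃ A : E →L[ℂ] E, ∀ w : E, ((x, w) : ℂ × E) ∈ D.dom (nrm E) → (F (x, w)).2 = A w := by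
  have hdiff : DifferentiableAt ℂ (fun w : E => (F (x, w)).2) 0 :=
    (P.differentiableOn_fibre hx).differentiableAt (ball_mem_nhds _ (by positivity))
  refine ⟨fderiv ℂ (fun w : E => (F (x, w)).2) 0, fun w hw => ?_⟩
  have h1 : HasFDerivAt (fun w : E => (F (x, w)).2)
      (fderiv ℂ (fun w : E => (F (x, w)).2) 0) ((0 : ℂ) • w) := by
    rw [zero_smul]
    exact hdiff.hasFDerivAt
  have h2 : HasDerivAt (fun ζ : ℂ => ζ • w) w 0 := by
    simpa using (hasDerivAt_id (0 : ℂ)).smul_const w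
  have h3 := h1.comp_hasDerivAt (0 : ℂ) h2
  have h4 : HasDerivAt (fun ζ : ℂ => ζ • (F (x, w)).2) (F (x, w)).2 0 := by
    simpa using (hasDerivAt_id (0 : ℂ)).smul_const (F (x, w)).2
  have h5 : (fun ζ : ℂ => (F (x, ζ • w)).2) =ᶠ[𝓝 0] fun ζ : ℂ => ζ • (F (x, w)).2 := by
    have h6 : ∀ᶠ ζ : ℂ in 𝓝 0, D.weight x * ‖ζ • w‖ < 1 := by
      have hc : ContinuousAt (fun ζ : ℂ => D.weight x * ‖ζ • w‖) 0 := by fun_prop
      apply hc.eventually_lt_const
      simp
    filter_upwards [h6] with ζ hζ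
    exact P.fibre_homog hα hb hx hw hζ
  have h7 := h4.congr_of_eventuallyEq h5
  exact h7.unique h3

end inner

end Pair

end H73SK
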