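import Mathlib
import Pool.Agent.H73.SK.Fibre

/-! Biholomorphic maps between two of the domains: the masses. -/

open Filter Topology Set Metric

namespace H73SK

namespace Data

/-- upper bound of the weight by one factor -/
lemma weight_le_single (D : Data) (j : ℕ) {ρ : ℝ} {y : ℂ} (hy : ‖y‖ ≤ ρ) :
    D.weight y ≤ ‖y - D.z j‖ ^ D.c j * Real.exp (∑' k, D.e ρ k) := by
  refine le_of_tendsto (D.P_tendsto y) ?_
  filter_upwards [eventually_gt_atTop j] with N hN
  unfold P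
  rw [← Finset.mul_prod_erase _ _ (Finset.mem_range.2 hN)]
  apply mul_le_mul_of_nonneg_left _ (D.factor_nonneg y j)
  calc ∏ k ∈ (Finset.range N).erase j, ‖y - D.z k‖ ^ D.c k
      ≤ ∏ k ∈ (Finset.range N).erase j, Real.exp (D.e ρ k) :=
        Finset.prod_le_prod (fun k _ => D.factor_nonneg y k) fun k _ => D.factor_le hy k
    _ = Real.exp (∑ k ∈ (Finset.range N).erase j, D.e ρ k) := (Real.exp_sum _ _).symm
    _ ≤ _ := by
        apply Real.exp_le_exp.2
        exact (D.summable_e ρ).sum_le_tsum _ fun k _ => D.e_nonneg ρ k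

/-- transformation of the weight under an affine map carrying the masses -/
lemma weight_affine {D D' : Data} {α β : ℂ} (hα : α ≠ 0) {π : ℕ ≃ ℕ}
    (hπ : ∀ k, D'.z (π k) = α * D.z k + β ∧ D'.c (π k) = D.c k) (x : ℂ) :
    D'.weight (α * x + β) = ‖α‖ ^ D.mass * D.weight x := by
  have hα' : 0 < ‖α‖ := norm_pos_iff.2 hα
  have h1 : HasProd (fun k => ‖α * x + β - D'.z (π k)‖ ^ D'.c (π k)) (D'.weight (α * x + β)) :=
    (Equiv.hasProd_iff π).2 (D'.hasProd_weight (α * x + β))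
  have h2 : HasProd (fun k => ‖α‖ ^ D.c k) (‖α‖ ^ D.mass) := by
    have h3 : HasSum (fun k => D.c k * Real.log ‖α‖) (D.mass * Real.log ‖α‖) :=
      D.summable_c.hasSum.mul_right _
    have h4 := h3.rexp
    have h5 : (Real.exp ∘ fun k => D.c k * Real.log ‖α‖) = fun k => ‖α‖ ^ D.c k := by
      funext k
      simp only [Function.comp_apply]
      rw [Real.rpow_def_of_pos hα', mul_comm]
    rw [h5] at h4
    rwa [Real.rpow_def_of_pos hα', mul_comm]
  have h6 := h2.mul (D.hasProd_weight x)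
  have h7 : (fun k => ‖α‖ ^ D.c k * ‖x - D.z k‖ ^ D.c k) =
      fun k => ‖α * x + β - D'.z (π k)‖ ^ D'.c (π k) := by
    funext k
    rw [(hπ k).1, (hπ k).2, ← Real.mul_rpow hα'.le (norm_nonneg _), ← norm_mul]
    congr 2
    ring
  rw [h7] at h6
  exact h1.unique h6

lemma mass_eq {D D' : Data} {π : ℕ ≃ ℕ} (hπ : ∀ k, D'.c (π k) = D.c k) : D'.mass = D.mass := by
  unfold mass
  rw [← π.tsum_eq D'.c]
  exact tsum_congr hπ

lemma mass_pos (D : Data) : 0 < D.mass := by
  unfold mass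
  exact D.summable_c.tsum_pos (fun k => (D.pos k).le) 0 (D.pos 0)

end Data

/-- local comparison of two weights -/
def LocLe (D D' : Data) (α β : ℂ) : Prop :=
  ∀ a : ℂ, ∃ C : ℝ, 0 < C ∧ ∃ r0 : ℝ, 0 < r0 ∧ ∀ x, ‖x - a‖ ≤ r0 →
    D.weight x ≤ C * D'.weight (α * x + β)

namespace Pair

variable {E : Type*} [NormedAddCommGroup E] [InnerProductSpace ℂ E] {D D' : Data}
  {F G : ℂ × E → ℂ × E} {α β : ℂ}

/-- local comparison of the weights -/
lemma local_le [Nontrivial E] (P : Pair D D' (nrm E) (nrm E) F G) (hα : α ≠ 0)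
    (hb : ∀ p ∈ D.dom (nrm E), (F p).1 = α * p.1 + β) : LocLe D D' α β := by
  intro a
  obtain ⟨w1, hw1⟩ := exists_ne (0 : E)
  -- a nonzero vector in the fibre over a, small enough
  obtain ⟨ε, hε, hball⟩ := Metric.isOpen_iff.1 (D.isOpen_dom P.hV) (a, 0) (D.mem_dom_zero P.hV a)
  have hw1pos : 0 < ‖w1‖ := norm_pos_iff.2 hw1
  set s : ℝ := ε / (2 * ‖w1‖) with hs
  have hspos : 0 < s := by positivity
  set w0 : E := (s : ℂ) • w1 with hw0
  have hw0n : ‖w0‖ = ε / 2 := by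
    rw [hw0, norm_smul, Complex.norm_real, Real.norm_eq_abs, abs_of_pos hspos, hs]
    field_simp
  have hw0pos : 0 < ‖w0‖ := by rw [hw0n]; positivity
  have hmem : ∀ x, ‖x - a‖ ≤ ε / 2 → ((x, w0) : ℂ × E) ∈ D.dom (nrm E) := by
    intro x hx
    apply hball
    rw [mem_ball, Prod.dist_eq, dist_eq_norm, dist_zero_right]
    apply max_lt <;> linarith
  obtain ⟨C, hC⟩ : ∃ C, ∀ x ∈ closedBall a (ε / 2), ‖(F (x, w0)).2‖ ≤ C := by
    apply (isCompact_closedBall a (ε / 2)).exists_bound_of_continuousOn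
    have h1 : ContinuousOn (fun p => (F p).2) (D.dom (nrm E)) := P.hF.continuousOn.snd
    apply h1.comp (f := fun x : ℂ => ((x, w0) : ℂ × E)) (by fun_prop)
    intro x hx
    rw [mem_closedBall, dist_eq_norm] at hx
    exact hmem x hx
  refine ⟨(|C| + 1) / ‖w0‖, by positivity, ε / 2, by positivity, fun x hx => ?_⟩
  rcases eq_or_lt_of_le (D.weight_nonneg x) with h0 | h0
  · rw [← h0]
    have := D'.weight_nonneg (α * x + β)
    positivity
  · have h2 := P.schwarz_eq hα hb h0 (hmem x hx)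
    have h3 := hC x (by rw [mem_closedBall, dist_eq_norm]; exact hx)
    rw [div_mul_eq_mul_div, le_div_iff₀ hw0pos, ← h2]
    have h4 := D'.weight_nonneg (α * x + β)
    have h5 : ‖(F (x, w0)).2‖ ≤ |C| + 1 := h3.trans ((le_abs_self C).trans (by linarith))
    rw [mul_comm (|C| + 1)]
    exact mul_le_mul_of_nonneg_left h5 h4

end Pair

/-- every mass of the target is dominated by a mass of the source -/
lemma mass_le {D D' : Data} {α β : ℂ} (hα : α ≠ 0) (hL : LocLe D D' α β) (j : ℕ) {a : ℂ} (ha : α * a + β = D'.z j) :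
    ∃ k, D.z k = a ∧ D'.c j ≤ D.c k := by
  by_contra hcon
  push Not at hcon
  have hα' : 0 < ‖α‖ := norm_pos_iff.2 hα
  -- the mass at a
  obtain ⟨m, hm0, hmj, hmb⟩ : ∃ m : ℝ, 0 ≤ m ∧ m < D'.c j ∧ ∀ k, D.z k = a → D.c k ≤ m := by
    by_cases hex : ∃ k, D.z k = a
    · obtain ⟨k, hk⟩ := hex
      refine ⟨D.c k, (D.pos k).le, hcon k hk, fun k' hk' => ?_⟩
      rw [D.inj (hk'.trans hk.symm)]
    · push Not at hex
      exact ⟨0, le_rfl, D'.pos j, fun k hk => (hex k hk).elim⟩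
  set ε : ℝ := (D'.c j - m) / 2 with hε
  have hεpos : 0 < ε := by rw [hε]; linarith
  obtain ⟨κ, hκ, r0, hr0, hlow⟩ := D.exists_lower a hm0 hmb hεpos
  obtain ⟨C, hC, r1, hr1, hloc⟩ := hL a
  set ρ : ℝ := ‖D'.z j‖ + ‖α‖ * r1 with hρ
  set K : ℝ := Real.exp (∑' k, D'.e ρ k) with hK
  have hKpos : 0 < K := Real.exp_pos _
  -- main inequality for small r
  have hmain : ∀ r : ℝ, 0 < r → r < r0 → r ≤ 1 → 2 * r ≤ r1 →
      κ ≤ C * K * (2 * ‖α‖) ^ D'.c j * r ^ ε := by
    intro r hr hrr0 hr1' hrr1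
    obtain ⟨t, ht, hle⟩ := hlow r hr hrr0 hr1'
    have htpos : 0 < t := by linarith [ht.1]
    have hnorm : ‖(r : ℂ) * t‖ = r * t := by
      rw [norm_mul, Complex.norm_real, Complex.norm_real, Real.norm_eq_abs, Real.norm_eq_abs,
        abs_of_pos hr, abs_of_pos htpos]
    have hrt : r * t ≤ 2 * r := by nlinarith [ht.2]
    have h1 := hloc (a + r * t) (by rw [add_sub_cancel_left, hnorm]; linarith)
    have h2 : α * (a + r * t) + β - D'.z j = α * (r * t) := by rw [← ha]; ring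
    have h2n : ‖α * (a + r * t) + β - D'.z j‖ = ‖α‖ * (r * t) := by
      rw [h2, norm_mul, hnorm]
    have h3 : ‖α * (a + r * t) + β‖ ≤ ρ := by
      have h4 : α * (a + r * t) + β = D'.z j + α * (r * t) := by rw [← ha]; ring
      rw [h4]
      refine (norm_add_le _ _).trans ?_
      rw [norm_mul, hnorm, hρ]
      have : ‖α‖ * (r * t) ≤ ‖α‖ * r1 := mul_le_mul_of_nonneg_left (by linarith) hα'.le
      linarith
    have h5 := D'.weight_le_single j h3
    rw [h2n] at h5
    have h6 : (‖α‖ * (r * t)) ^ D'.c j ≤ (2 * ‖α‖) ^ D'.c j * r ^ D'.c j := by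
      rw [← Real.mul_rpow (by positivity) hr.le]
      apply Real.rpow_le_rpow (by positivity) _ (D'.pos j).le
      nlinarith [mul_nonneg hα'.le hr.le]
    have h7 : κ * r ^ (m + ε) ≤ C * (((2 * ‖α‖) ^ D'.c j * r ^ D'.c j) * K) := by
      calc κ * r ^ (m + ε) ≤ D.weight (a + r * t) := hle
        _ ≤ C * D'.weight (α * (a + r * t) + β) := h1
        _ ≤ _ := by
          apply mul_le_mul_of_nonneg_left _ hC.le
          exact h5.trans (mul_le_mul_of_nonneg_right h6 hKpos.le)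
    have h8 : r ^ D'.c j = r ^ (m + ε) * r ^ ε := by
      rw [← Real.rpow_add hr]
      congr 1
      rw [hε]; ring
    rw [h8] at h7
    have h9 : 0 < r ^ (m + ε) := Real.rpow_pos_of_pos hr _
    have h10 : r ^ (m + ε) * κ ≤ r ^ (m + ε) * (C * K * (2 * ‖α‖) ^ D'.c j * r ^ ε) := by
      calc r ^ (m + ε) * κ = κ * r ^ (m + ε) := mul_comm _ _
        _ ≤ _ := h7
        _ = _ := by ring
    exact le_of_mul_le_mul_left h10 h9
  -- r → 0
  have hlim : Tendsto (fun r : ℝ => C * K * (2 * ‖α‖) ^ D'.c j * r ^ ε) (𝓝[>] 0) (𝓝 0) := by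
    have h1 : ContinuousAt (fun r : ℝ => C * K * (2 * ‖α‖) ^ D'.c j * r ^ ε) 0 :=
      continuousAt_const.mul (Real.continuousAt_rpow_const _ _ (Or.inr hεpos.le))
    have h2 := h1.tendsto
    rw [Real.zero_rpow hεpos.ne', mul_zero] at h2
    exact h2.mono_left nhdsWithin_le_nhds
  have hκ0 : κ ≤ 0 := by
    refine ge_of_tendsto hlim ?_
    have h3 : ∀ᶠ r : ℝ in 𝓝[>] 0, r < min (min r0 1) (r1 / 2) :=
      nhdsWithin_le_nhds (Iio_mem_nhds (by positivity))
    filter_upwards [h3, self_mem_nhdsWithin] with r hr hrpos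
    have h4 : r < min r0 1 := lt_of_lt_of_le hr (min_le_left _ _)
    exact hmain r hrpos (lt_of_lt_of_le h4 (min_le_left _ _))
      (lt_of_lt_of_le h4 (min_le_right _ _)).le
      (by linarith [lt_of_lt_of_le hr (min_le_right _ _)])
  linarith

/-- the affine map carries the masses of the source to the masses of the target -/
lemma exists_perm {D D' : Data} {α β : ℂ} (hα : α ≠ 0) (hL : LocLe D D' α β)
    (hL' : LocLe D' D α⁻¹ (-(α⁻¹ * β))) :
    ∃ π : ℕ ≃ ℕ, ∀ k, D'.z (π k) = α * D.z k + β ∧ D'.c (π k) = D.c k := by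
  have hα' : α⁻¹ ≠ 0 := inv_ne_zero hα
  have h1 : ∀ j, ∃ k, α * D.z k + β = D'.z j ∧ D'.c j ≤ D.c k := by
    intro j
    obtain ⟨k, hk, hc⟩ := mass_le hα hL j (a := α⁻¹ * D'.z j + -(α⁻¹ * β)) (by
      field_simp; ring)
    refine ⟨k, ?_, hc⟩
    rw [hk]
    field_simp
    ring
  have h2 : ∀ k, ∃ j, D'.z j = α * D.z k + β ∧ D.c k ≤ D'.c j := by
    intro k
    obtain ⟨j, hj, hc⟩ := mass_le hα' hL' k (a := α * D.z k + β) (by
      field_simp; ring)
    exact ⟨j, hj, hc⟩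
  choose p hp hpc using h2
  choose q hq hqc using h1
  have hqp : ∀ k, q (p k) = k := by
    intro k
    apply D.inj
    have h3 := hq (p k)
    rw [hp k] at h3
    exact mul_left_cancel₀ hα (add_right_cancel h3)
  have hpq : ∀ j, p (q j) = j := by
    intro j
    apply D'.inj
    rw [hp (q j), hq j]
  refine ⟨⟨p, q, hqp, hpq⟩, fun k => ⟨hp k, ?_⟩⟩
  apply le_antisymm _ (hpc k)
  have := hqc (p k)
  rwa [hqp k] at this


end H73SK
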