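import Mathlib
import Pool.Agent.H73.SK.Masses
import Pool.Agent.H73.SK.Defs

/-! All biholomorphic maps between two of the domains. -/

open Filter Topology Set Metric

namespace H73SK

namespace Pair

variable {E : Type*} [NormedAddCommGroup E] [InnerProductSpace ℂ E] {D D' : Data}
  {F G : ℂ × E → ℂ × E} {α β : ℂ}

lemma smul_mem {D : Data} {p : ℂ × E} (hp : p ∈ D.dom (nrm E)) {s : ℝ} (hs0 : 0 ≤ s) (hs1 : s ≤ 1) :
    (p.1, (s : ℂ) • p.2) ∈ D.dom (nrm E) := by
  rw [mem_nrm] at hp ⊢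
  refine lt_of_le_of_lt ?_ hp
  apply mul_le_mul_of_nonneg_left _ (D.weight_nonneg _)
  simp only
  rw [norm_smul, Complex.norm_real, Real.norm_eq_abs, abs_of_nonneg hs0]
  exact mul_le_of_le_one_left (norm_nonneg _) hs1

lemma snd_homog [Nontrivial E] (P : Pair D D' (nrm E) (nrm E) F G) (hα : α ≠ 0)
    (hb : ∀ p ∈ D.dom (nrm E), (F p).1 = α * p.1 + β) {s : ℝ} (hs0 : 0 ≤ s) (hs1 : s ≤ 1) :
    ∀ p ∈ D.dom (nrm E), (F (p.1, (s : ℂ) • p.2)).2 = (s : ℂ) • (F p).2 := by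
  apply D.eq_of_dense P.hV (f := fun p => (F (p.1, (s : ℂ) • p.2)).2) (g := fun p => (s : ℂ) • (F p).2)
    _ (P.hF.continuousOn.snd.const_smul _) D.dense_pos
  · rintro ⟨x, w⟩ hp hx
    apply P.fibre_homog hα hb hx hp
    have := smul_mem hp hs0 hs1
    rwa [mem_nrm] at this
  · have h1 : ContinuousOn (fun p => (F p).2) (D.dom (nrm E)) := P.hF.continuousOn.snd
    apply h1.comp (f := fun p : ℂ × E => (p.1, (s : ℂ) • p.2)) (by fun_prop)
    intro p hp
    exact smul_mem hp hs0 hs1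

lemma snd_norm [Nontrivial E] (P : Pair D D' (nrm E) (nrm E) F G) (hα : α ≠ 0)
    (hb : ∀ p ∈ D.dom (nrm E), (F p).1 = α * p.1 + β) :
    ∀ p ∈ D.dom (nrm E), ‖(F p).2‖ = ‖α‖ ^ (-D.mass) * ‖p.2‖ := by
  obtain ⟨π, hπ⟩ := exists_perm hα (P.local_le hα hb) (P.symm.local_le (inv_ne_zero hα) (P.base_symm hα hb))
  have hα' : 0 < ‖α‖ := norm_pos_iff.2 hα
  apply D.eq_of_dense P.hV (f := fun p => ‖(F p).2‖) (g := fun p => ‖α‖ ^ (-D.mass) * ‖p.2‖)
    P.hF.continuousOn.snd.norm (by fun_prop) D.dense_pos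
  rintro ⟨x, w⟩ hp hx
  have h1 := P.schwarz_eq hα hb hx hp
  rw [Data.weight_affine hα hπ] at h1
  have hx' : (0 : ℝ) < D.weight x := hx
  have h2 : ‖α‖ ^ D.mass * ‖(F (x, w)).2‖ = ‖w‖ := by
    apply mul_left_cancel₀ hx'.ne'
    linarith
  simp only
  rw [← h2, ← mul_assoc, ← Real.rpow_add hα', neg_add_cancel, Real.rpow_zero, one_mul]

/-- All biholomorphic maps are affine. -/
theorem structure_thm [Nontrivial E] [FiniteDimensional ℂ E] (P : Pair D D' (nrm E) (nrm E) F G) :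
    ∃ (α β : ℂ) (U : E ≃ₗᵢ[ℂ] E), α ≠ 0 ∧
      (∃ π : ℕ ≃ ℕ, ∀ k, D'.z (π k) = α * D.z k + β ∧ D'.c (π k) = D.c k) ∧
      ∀ p ∈ D.dom (nrm E), F p = (α * p.1 + β, ((‖α‖ ^ (-D.mass) : ℝ) : ℂ) • U p.2) := by
  obtain ⟨α, β, hα, hb⟩ := P.exists_affine
  have hα' : 0 < ‖α‖ := norm_pos_iff.2 hα
  have hperm := exists_perm hα (P.local_le hα hb) (P.symm.local_le (inv_ne_zero hα) (P.base_symm hα hb))
  set lam : ℝ := ‖α‖ ^ (-D.mass) with hlam
  have hlampos : 0 < lam := Real.rpow_pos_of_pos hα' _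
  have hnorm := P.snd_norm hα hb
  obtain ⟨x1, -, hx1⟩ := D.exists_weight_pos isOpen_univ (univ_nonempty)
  obtain ⟨A, hA⟩ := P.fibre_linear hα hb hx1
  -- scaling factors
  set s : E → ℂ → ℝ := fun w x => 1 / (1 + D.weight x * ‖w‖) with hs
  have hden : ∀ (w : E) (x : ℂ), 0 < 1 + D.weight x * ‖w‖ := fun w x => by
    have := mul_nonneg (D.weight_nonneg x) (norm_nonneg w)
    linarith
  have hspos : ∀ (w : E) (x : ℂ), 0 < s w x := fun w x => one_div_pos.2 (hden w x)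
  have hsmem : ∀ (w : E) (x : ℂ), ((x, (s w x : ℂ) • w) : ℂ × E) ∈ D.dom (nrm E) := by
    intro w x
    rw [mem_nrm]
    simp only
    rw [norm_smul, Complex.norm_real, Real.norm_eq_abs, abs_of_pos (hspos w x)]
    have h1 : D.weight x * (s w x * ‖w‖) = D.weight x * ‖w‖ / (1 + D.weight x * ‖w‖) := by
      rw [hs]; ring
    rw [h1, div_lt_one (hden w x)]
    linarith
  -- independence of the scaling
  have hscale : ∀ (w : E) (x : ℂ) (t t' : ℝ), 0 < t → t ≤ t' → ((x, (t' : ℂ) • w) : ℂ × E) ∈ D.dom (nrm E) →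
      ((t : ℂ)⁻¹) • (F (x, (t : ℂ) • w)).2 = ((t' : ℂ)⁻¹) • (F (x, (t' : ℂ) • w)).2 := by
    intro w x t t' ht htt' hmem
    have ht' : 0 < t' := lt_of_lt_of_le ht htt'
    have htc : (t : ℂ) ≠ 0 := by exact_mod_cast ht.ne'
    have htc' : (t' : ℂ) ≠ 0 := by exact_mod_cast ht'.ne'
    have h1 := P.snd_homog hα hb (s := t / t') (div_nonneg ht.le ht'.le)
      ((div_le_one ht').2 htt') _ hmem
    simp only [smul_smul] at h1
    push_cast at h1
    rw [div_mul_cancel₀ _ htc'] at h1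
    rw [h1, smul_smul]
    congr 1
    field_simp
  have hscale' : ∀ (w : E) (x : ℂ) (t t' : ℝ), 0 < t → 0 < t' →
      ((x, (t : ℂ) • w) : ℂ × E) ∈ D.dom (nrm E) → ((x, (t' : ℂ) • w) : ℂ × E) ∈ D.dom (nrm E) →
      ((t : ℂ)⁻¹) • (F (x, (t : ℂ) • w)).2 = ((t' : ℂ)⁻¹) • (F (x, (t' : ℂ) • w)).2 := by
    intro w x t t' ht ht' hm hm'
    rcases le_total t t' with h | h
    · exact hscale w x t t' ht h hm'
    · exact (hscale w x t' t ht' h hm).symm
  set b : E → ℂ → E := fun w x => ((s w x : ℂ)⁻¹) • (F (x, (s w x : ℂ) • w)).2 with hbdef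
  have hbt : ∀ (w : E) (x : ℂ) (t : ℝ), 0 < t → ((x, (t : ℂ) • w) : ℂ × E) ∈ D.dom (nrm E) →
      b w x = ((t : ℂ)⁻¹) • (F (x, (t : ℂ) • w)).2 :=
    fun w x t ht hm => hscale' w x _ _ (hspos w x) ht (hsmem w x) hm
  have hbd : ∀ w, Differentiable ℂ (b w) := by
    intro w x0
    have hev : ∀ᶠ x in 𝓝 x0, ((x, (s w x0 : ℂ) • w) : ℂ × E) ∈ D.dom (nrm E) := by
      have hc : ContinuousAt (fun x : ℂ => ((x, (s w x0 : ℂ) • w) : ℂ × E)) x0 := by fun_prop
      exact hc ((D.isOpen_dom P.hV).mem_nhds (hsmem w x0))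
    have heq : b w =ᶠ[𝓝 x0] fun x => ((s w x0 : ℂ)⁻¹) • (F (x, (s w x0 : ℂ) • w)).2 := by
      filter_upwards [hev] with x hx
      exact hbt w x _ (hspos w x0) hx
    have h1 : DifferentiableAt ℂ F (x0, (s w x0 : ℂ) • w) :=
      P.hF.differentiableAt ((D.isOpen_dom P.hV).mem_nhds (hsmem w x0))
    have h2 : DifferentiableAt ℂ (fun x : ℂ => ((x, (s w x0 : ℂ) • w) : ℂ × E)) x0 := by fun_prop
    exact (((h1.comp x0 h2).snd).const_smul _).congr_of_eventuallyEq heq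
  have hbn : ∀ w x, ‖b w x‖ = lam * ‖w‖ := by
    intro w x
    have hsp := hspos w x
    rw [hbdef]
    simp only
    rw [norm_smul, hnorm _ (hsmem w x), norm_smul, norm_inv, Complex.norm_real, Real.norm_eq_abs,
      abs_of_pos hsp]
    field_simp
    rw [mul_comm]
  have hbconst : ∀ w x, b w x = b w x1 := by
    intro w x
    apply (hbd w).apply_eq_apply_of_bounded
    rw [isBounded_iff_forall_norm_le]
    exact ⟨lam * ‖w‖, by rintro _ ⟨x, rfl⟩; exact (hbn w x).le⟩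
  have hbA : ∀ w, b w x1 = A w := by
    intro w
    have hsp := hspos w x1
    have hsc : (s w x1 : ℂ) ≠ 0 := by exact_mod_cast hsp.ne'
    rw [hbdef]
    simp only
    rw [hA _ (hsmem w x1), map_smul, smul_smul, inv_mul_cancel₀ hsc, one_smul]
  have hAnorm : ∀ w, ‖A w‖ = lam * ‖w‖ := fun w => by rw [← hbA, hbn]
  have hFA : ∀ p ∈ D.dom (nrm E), (F p).2 = A p.2 := by
    rintro ⟨x, w⟩ hp
    have h1 := hbt w x 1 one_pos (by simpa using hp)
    rw [hbconst, hbA] at h1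
    simpa using h1.symm
  have hlamc : (lam : ℂ) ≠ 0 := by exact_mod_cast hlampos.ne'
  set V : E →ₗᵢ[ℂ] E :=
    { toLinearMap := ((lam : ℂ)⁻¹) • (A : E →ₗ[ℂ] E)
      norm_map' := by
        intro w
        simp only [LinearMap.smul_apply, ContinuousLinearMap.coe_coe]
        rw [norm_smul, hAnorm, norm_inv, Complex.norm_real, Real.norm_eq_abs, abs_of_pos hlampos,
          ← mul_assoc, inv_mul_cancel₀ hlampos.ne', one_mul] } with hV
  refine ⟨α, β, V.toLinearIsometryEquiv rfl, hα, hperm, fun p hp => ?_⟩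
  refine Prod.ext (hb p hp) ?_
  simp only
  rw [hFA p hp, LinearIsometry.toLinearIsometryEquiv_apply]
  change A p.2 = (lam : ℂ) • (((lam : ℂ)⁻¹) • A p.2)
  rw [smul_smul, mul_inv_cancel₀ hlamc, one_smul]

end Pair

/-- Description of all biholomorphic maps from one of the domains onto another. -/
theorem biholo_iff {E : Type*} [NormedAddCommGroup E] [InnerProductSpace ℂ E] [Nontrivial E]
    [FiniteDimensional ℂ E] (D D' : Data) (F : ℂ × E → ℂ × E) :
    IsBiholo F (D.dom (nrm E)) (D'.dom (nrm E)) ↔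
      ∃ (α β : ℂ) (U : E ≃ₗᵢ[ℂ] E), α ≠ 0 ∧
        (∃ π : ℕ ≃ ℕ, ∀ k, D'.z (π k) = α * D.z k + β ∧ D'.c (π k) = D.c k) ∧
        ∀ p ∈ D.dom (nrm E), F p = (α * p.1 + β, ((‖α‖ ^ (-D.mass) : ℝ) : ℂ) • U p.2) := by
  constructor
  · rintro ⟨hF, mF, G, hG, mG, gf, fg⟩
    exact Pair.structure_thm ⟨gauge_norm E, gauge_norm E, hF, hG, mF, mG, gf, fg⟩
  · rintro ⟨α, β, U, hα, ⟨π, hπ⟩, hF⟩
    have hα' : 0 < ‖α‖ := norm_pos_iff.2 hα
    set lam : ℝ := ‖α‖ ^ (-D.mass) with hlam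
    have hlampos : 0 < lam := Real.rpow_pos_of_pos hα' _
    have hlamc : (lam : ℂ) ≠ 0 := by exact_mod_cast hlampos.ne'
    have hlamm : ‖α‖ ^ D.mass * lam = 1 := by
      rw [hlam, ← Real.rpow_add hα', add_neg_cancel, Real.rpow_zero]
    have hU : Differentiable ℂ fun w : E => U w := U.toContinuousLinearEquiv.differentiable
    have hU' : Differentiable ℂ fun w : E => U.symm w :=
      U.symm.toContinuousLinearEquiv.differentiable
    have hGm : ∀ q ∈ D'.dom (nrm E),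
        ((α⁻¹ * (q.1 - β), ((lam : ℂ)⁻¹) • U.symm q.2) : ℂ × E) ∈ D.dom (nrm E) := by
      intro q hq
      rw [mem_nrm] at hq
      rw [mem_nrm]
      simp only
      rw [norm_smul, U.symm.norm_map, norm_inv, Complex.norm_real, Real.norm_eq_abs,
        abs_of_pos hlampos]
      have h2 : α * (α⁻¹ * (q.1 - β)) + β = q.1 := by
        rw [← mul_assoc, mul_inv_cancel₀ hα]; ring
      have h3 := Data.weight_affine hα hπ (α⁻¹ * (q.1 - β))
      rw [h2] at h3
      rw [h3] at hq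
      have h4 : lam⁻¹ = ‖α‖ ^ D.mass := (eq_inv_of_mul_eq_one_left hlamm).symm
      rw [h4]
      calc D.weight (α⁻¹ * (q.1 - β)) * (‖α‖ ^ D.mass * ‖q.2‖)
          = ‖α‖ ^ D.mass * D.weight (α⁻¹ * (q.1 - β)) * ‖q.2‖ := by ring
        _ < 1 := hq
    refine ⟨?_, ?_, fun q => (α⁻¹ * (q.1 - β), ((lam : ℂ)⁻¹) • U.symm q.2), ?_, hGm, ?_, ?_⟩
    · have h1 : DifferentiableOn ℂ (fun p : ℂ × E => (α * p.1 + β, (lam : ℂ) • U p.2))
          (D.dom (nrm E)) := by
        apply Differentiable.differentiableOn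
        apply Differentiable.prodMk
        · fun_prop
        · exact (hU.comp differentiable_snd).const_smul _
      exact h1.congr hF
    · intro p hp
      rw [hF p hp, mem_nrm]
      simp only
      rw [Data.weight_affine hα hπ, norm_smul, U.norm_map, Complex.norm_real, Real.norm_eq_abs,
        abs_of_pos hlampos]
      rw [mem_nrm] at hp
      calc ‖α‖ ^ D.mass * D.weight p.1 * (lam * ‖p.2‖)
          = (‖α‖ ^ D.mass * lam) * (D.weight p.1 * ‖p.2‖) := by ring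
        _ < 1 := by rw [hlamm, one_mul]; exact hp
    · apply Differentiable.differentiableOn
      apply Differentiable.prodMk
      · fun_prop
      · exact (hU'.comp differentiable_snd).const_smul _
    · intro p hp
      rw [hF p hp]
      refine Prod.ext ?_ ?_
      · simp only
        rw [add_sub_cancel_right, ← mul_assoc, inv_mul_cancel₀ hα, one_mul]
      · simp only
        rw [map_smul, U.symm_apply_apply, smul_smul, inv_mul_cancel₀ hlamc, one_smul]
    · intro q hq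
      rw [hF _ (hGm q hq)]
      refine Prod.ext ?_ ?_
      · simp only
        rw [← mul_assoc, mul_inv_cancel₀ hα]; ring
      · simp only
        rw [map_smul, U.apply_symm_apply, smul_smul, mul_inv_cancel₀ hlamc, one_smul]

end H73SK
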