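import Mathlib
import Pool.Agent.H73.SK.Curves

/-! Discs in the domain through a point of the line `w = 0`: a bound for the derivative. -/

open Filter Topology Set Metric MeasureTheory Real MeromorphicOn

namespace H73SK

/-- sub-mean-value inequality on a disc -/
lemma jensen_one' {h : ℂ → ℂ} {c : ℂ} {r : ℝ} (hr : 0 < r)
    (han : AnalyticOnNhd ℂ h (closedBall c |r|)) (hc : h c ≠ 0) :
    Real.log ‖h c‖ ≤ circleAverage (fun ζ => Real.log ‖h ζ‖) c r := by
  have h1 := han.circleAverage_log_norm hr.ne' hc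
  have h2 : 0 ≤ ∑ᶠ u, (divisor h (closedBall c |r|) u : ℝ) * Real.log (r * ‖c - u‖⁻¹) :=
    finsum_nonneg fun u => jensen_terms_nonneg hr han u
  rw [h1]
  linarith

lemma circleAverage_nonpos_off_zeros' {v : ℂ → ℝ} {H : ℂ → ℂ} {c : ℂ} {r : ℝ} (hr : 0 < r)
    (hH : AnalyticOnNhd ℂ H (closedBall c |r|)) (hc : H c ≠ 0)
    (hv : ∀ ζ ∈ sphere c r, H ζ ≠ 0 → v ζ ≤ 0) :
    circleAverage v c r ≤ 0 := by
  classical
  set v' : ℂ → ℝ := fun ζ => if H ζ = 0 then 0 else -v ζ with hv'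
  have hcod : H ⁻¹' {0}ᶜ ∈ codiscreteWithin (sphere c |r|) := by
    have h2 := hH.preimage_zero_mem_codiscreteWithin hc (mem_closedBall_self (abs_nonneg r))
      ((convex_closedBall c |r|).isConnected ⟨c, mem_closedBall_self (abs_nonneg r)⟩)
    exact codiscreteWithin_mono sphere_subset_closedBall h2
  have hEq : (-v) =ᶠ[codiscreteWithin (sphere c |r|)] v' := by
    filter_upwards [hcod] with ζ hζ
    have hne : H ζ ≠ 0 := by simpa using hζ
    simp [hv', hne]
  have h3 : circleAverage (-v) c r = circleAverage v' c r :=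
    circleAverage_congr_codiscreteWithin hEq hr.ne'
  have h4 : 0 ≤ circleAverage v' c r := by
    apply circleAverage_nonneg_of_nonneg
    intro ζ hζ
    rw [abs_of_pos hr] at hζ
    rw [hv']
    beta_reduce
    split_ifs with h
    · exact le_rfl
    · have := hv ζ hζ h
      linarith
  have h5 : circleAverage (-v) c r = -circleAverage v c r := by
    have h6 : (-v) = ((-1 : ℝ) • v) := by
      ext ζ
      simp
    rw [h6, circleAverage_smul]
    simp
  rw [← h3, h5] at h4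
  linarith

lemma circleIntegrable_log' {h : ℂ → ℂ} {c : ℂ} {r : ℝ}
    (han : AnalyticOnNhd ℂ h (closedBall c |r|)) :
    CircleIntegrable (fun ζ => Real.log ‖h ζ‖) c r :=
  MeromorphicOn.circleIntegrable_log_norm fun z hz =>
    (han z (sphere_subset_closedBall hz)).meromorphicAt

variable (D : Data)

/-- scalar version on a smaller circle -/
lemma Data.royden_aux {f h : ℂ → ℂ} {r : ℝ} (hr : 0 < r)
    (hf : AnalyticOnNhd ℂ f (closedBall 0 |r|)) (hh : AnalyticOnNhd ℂ h (closedBall 0 |r|))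
    (hdom : ∀ ζ ∈ sphere (0 : ℂ) r, D.weight (f ζ) * (r * ‖h ζ‖) < 1) (hh0 : h 0 ≠ 0)
    (hW : 0 < D.weight (f 0)) : D.weight (f 0) * (r * ‖h 0‖) ≤ 1 := by
  by_contra hcon
  push Not at hcon
  have har : |r| = r := abs_of_pos hr
  obtain ⟨ρ, hρ⟩ : ∃ ρ, ∀ ζ ∈ closedBall (0 : ℂ) |r|, ‖f ζ‖ ≤ ρ :=
    (isCompact_closedBall _ _).exists_bound_of_continuousOn hf.continuousOn
  have hsc : sphere (0 : ℂ) r ⊆ closedBall 0 |r| := by
    rw [har]; exact sphere_subset_closedBall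
  set K : Set (ℂ × ℂ) := (fun ζ => (f ζ, (r : ℂ) * h ζ)) '' sphere (0 : ℂ) r with hK
  have hKc : IsCompact K := by
    apply (isCompact_sphere (0 : ℂ) r).image_of_continuousOn
    exact (hf.continuousOn.mono hsc).prodMk (continuousOn_const.mul (hh.continuousOn.mono hsc))
  have hnr : ∀ y : ℂ, ‖(r : ℂ) * y‖ = r * ‖y‖ := fun y => by
    rw [norm_mul, Complex.norm_real, Real.norm_eq_abs, har]
  have hKD : K ⊆ D.dom (nrm ℂ) := by
    rintro _ ⟨ζ, hζ, rfl⟩
    rw [mem_nrm]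
    simp only
    rw [hnr]
    exact hdom ζ hζ
  have hKρ : ∀ p ∈ K, ‖p.1‖ ≤ ρ := by
    rintro _ ⟨ζ, hζ, rfl⟩
    exact hρ ζ (hsc hζ)
  obtain ⟨N, hN⟩ := D.exists_U_lt_of_compact (gauge_norm ℂ) hKc hKD hKρ
  have hUN : ∀ ζ ∈ sphere (0 : ℂ) r, D.U ρ N (f ζ) * (r * ‖h ζ‖) < 1 := by
    intro ζ hζ
    have h1 := hN (f ζ, (r : ℂ) * h ζ) ⟨ζ, hζ, rfl⟩
    simp only [nrm] at h1
    rwa [hnr] at h1
  have hfk : ∀ k, AnalyticOnNhd ℂ (fun ζ => f ζ - D.z k) (closedBall 0 |r|) :=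
    fun k => hf.sub analyticOnNhd_const
  have hfc : ∀ k, f 0 - D.z k ≠ 0 := by
    intro k hk
    rw [sub_eq_zero.1 hk, D.weight_z] at hW
    exact lt_irrefl _ hW
  set H : ℂ → ℂ := fun ζ => h ζ * ∏ k ∈ Finset.range N, (f ζ - D.z k) with hH
  have hHa : AnalyticOnNhd ℂ H (closedBall 0 |r|) := by
    apply hh.mul
    exact Finset.analyticOnNhd_fun_prod _ fun k _ => hfk k
  have hHc : H 0 ≠ 0 := mul_ne_zero hh0 (Finset.prod_ne_zero_iff.2 fun k _ => hfc k)
  set v : ℂ → ℝ := fun ζ => Real.log ‖h ζ‖ +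
    (∑ k ∈ Finset.range N, D.c k * Real.log ‖f ζ - D.z k‖ + (D.T ρ N + Real.log r)) with hv
  have hval : ∀ ζ, h ζ ≠ 0 → (∀ k ∈ Finset.range N, f ζ - D.z k ≠ 0) →
      v ζ = Real.log (D.U ρ N (f ζ) * (r * ‖h ζ‖)) := by
    intro ζ hhζ hfζ
    have hP : 0 < D.P N (f ζ) := Finset.prod_pos fun k hk =>
      Real.rpow_pos_of_pos (norm_pos_iff.2 (hfζ k hk)) _
    have hhp : 0 < ‖h ζ‖ := norm_pos_iff.2 hhζ
    unfold Data.U
    rw [Real.log_mul (mul_pos hP (Real.exp_pos _)).ne' (mul_pos hr hhp).ne',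
      Real.log_mul hP.ne' (Real.exp_pos _).ne', Real.log_exp, Real.log_mul hr.ne' hhp.ne']
    have hlogP : Real.log (D.P N (f ζ)) =
        ∑ k ∈ Finset.range N, D.c k * Real.log ‖f ζ - D.z k‖ := by
      unfold Data.P
      rw [Real.log_prod fun k hk => (Real.rpow_pos_of_pos (norm_pos_iff.2 (hfζ k hk)) _).ne']
      apply Finset.sum_congr rfl
      intro k hk
      rw [Real.log_rpow (norm_pos_iff.2 (hfζ k hk))]
    rw [hlogP, hv]
    ring
  have hupper : circleAverage v 0 r ≤ 0 := by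
    apply circleAverage_nonpos_off_zeros' hr hHa hHc
    intro ζ hζ hHζ
    have h1 : h ζ ≠ 0 := left_ne_zero_of_mul hHζ
    have h2 : ∀ k ∈ Finset.range N, f ζ - D.z k ≠ 0 :=
      Finset.prod_ne_zero_iff.1 (right_ne_zero_of_mul hHζ)
    rw [hval ζ h1 h2]
    exact Real.log_nonpos (mul_nonneg (D.U_nonneg _ _ _) (by positivity)) (hUN ζ hζ).le
  have hci : ∀ k, CircleIntegrable (fun ζ => D.c k * Real.log ‖f ζ - D.z k‖) 0 r := by
    intro k
    exact (circleIntegrable_log' (hfk k)).const_smul (a := D.c k)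
  have hsplit : circleAverage v 0 r = circleAverage (fun ζ => Real.log ‖h ζ‖) 0 r +
      (∑ k ∈ Finset.range N, D.c k * circleAverage (fun ζ => Real.log ‖f ζ - D.z k‖) 0 r +
        (D.T ρ N + Real.log r)) := by
    have hi1 : CircleIntegrable (fun ζ => ∑ k ∈ Finset.range N,
        D.c k * Real.log ‖f ζ - D.z k‖) 0 r := by
      have h0 := CircleIntegrable.sum (Finset.range N) (f := fun k ζ =>
        D.c k * Real.log ‖f ζ - D.z k‖) (c := 0) (R := r) fun k _ => hci k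
      have h1 : (∑ k ∈ Finset.range N, fun ζ => D.c k * Real.log ‖f ζ - D.z k‖) =
          fun ζ => ∑ k ∈ Finset.range N, D.c k * Real.log ‖f ζ - D.z k‖ := by
        ext ζ
        simp
      rwa [h1] at h0
    have hi2 : CircleIntegrable (fun _ : ℂ => D.T ρ N + Real.log r) 0 r :=
      circleIntegrable_const _ _ _
    have hi3 : CircleIntegrable (fun ζ => ∑ k ∈ Finset.range N,
        D.c k * Real.log ‖f ζ - D.z k‖ + (D.T ρ N + Real.log r)) 0 r := hi1.add hi2
    rw [hv, circleAverage_fun_add (circleIntegrable_log' hh) hi3,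
      circleAverage_fun_add hi1 hi2, circleAverage_const, circleAverage_fun_sum fun k _ => hci k]
    congr 3
    funext k
    exact circleAverage_fun_smul (a := D.c k)
  have hlow1 : Real.log ‖h 0‖ ≤ circleAverage (fun ζ => Real.log ‖h ζ‖) 0 r :=
    jensen_one' hr hh hh0
  have hlow2 : ∑ k ∈ Finset.range N, D.c k * Real.log ‖f 0 - D.z k‖ ≤
      ∑ k ∈ Finset.range N, D.c k * circleAverage (fun ζ => Real.log ‖f ζ - D.z k‖) 0 r := by
    apply Finset.sum_le_sum
    intro k _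
    exact mul_le_mul_of_nonneg_left (jensen_one' hr (hfk k) (hfc k)) (D.pos k).le
  have hcen := hval 0 hh0 fun k _ => hfc k
  have hcρ : ‖f 0‖ ≤ ρ := hρ 0 (mem_closedBall_self (abs_nonneg r))
  have hrh : 0 < r * ‖h 0‖ := mul_pos hr (norm_pos_iff.2 hh0)
  have hge : 0 < Real.log (D.U ρ N (f 0) * (r * ‖h 0‖)) := by
    apply Real.log_pos
    exact hcon.trans_le (mul_le_mul_of_nonneg_right (D.weight_le_U hcρ N) hrh.le)
  rw [← hcen] at hge
  have hvc : v 0 = Real.log ‖h 0‖ +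
    (∑ k ∈ Finset.range N, D.c k * Real.log ‖f 0 - D.z k‖ + (D.T ρ N + Real.log r)) := rfl
  rw [hsplit] at hupper
  linarith

variable {E : Type*} [NormedAddCommGroup E] [NormedSpace ℂ E] {V : E → ℝ}

/-- A holomorphic disc of radius `R` in the domain, centred at `(x, 0)` and with vertical velocity
`w0`, satisfies `R * W x * ‖w0‖ ≤ 1`. -/
theorem Data.royden (hV : Gauge V) {f : ℂ → ℂ × E} {R : ℝ} (hR : 0 < R)
    (hf : DifferentiableOn ℂ f (ball 0 R)) (hM : MapsTo f (ball 0 R) (D.dom V)) {x : ℂ}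
    (hf0 : f 0 = (x, 0)) {w0 : E} (hder : deriv (fun ζ => (f ζ).2) 0 = w0)
    : D.weight x * (R * ‖w0‖) ≤ 1 := by
  rcases eq_or_lt_of_le (D.weight_nonneg x) with hW | hW
  · rw [← hW, zero_mul]; exact zero_le_one
  rcases eq_or_ne w0 0 with hw0 | hw0
  · rw [hw0, norm_zero, mul_zero, mul_zero]; exact zero_le_one
  obtain ⟨ℓ, hℓ1, hℓ2⟩ := exists_dual_vector'' ℂ w0
  have hℓle : ∀ w : E, ‖ℓ w‖ ≤ ‖w‖ := fun w =>
    (ℓ.le_opNorm w).trans (by nlinarith [norm_nonneg w])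
  set f1 : ℂ → ℂ := fun ζ => (f ζ).1 with hf1
  set g : ℂ → ℂ := fun ζ => ℓ (f ζ).2 with hg
  have hf1d : DifferentiableOn ℂ f1 (ball 0 R) := hf.fst
  have hf2d : DifferentiableOn ℂ (fun ζ => (f ζ).2) (ball 0 R) := hf.snd
  have hgd : DifferentiableOn ℂ g (ball 0 R) := ℓ.differentiable.comp_differentiableOn hf2d
  have hmem : (0 : ℂ) ∈ ball (0 : ℂ) R := mem_ball_self hR
  have hnhds : ball (0 : ℂ) R ∈ 𝓝 (0 : ℂ) := ball_mem_nhds _ hR
  set h : ℂ → ℂ := dslope g 0 with hh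
  have hhd : DifferentiableOn ℂ h (ball 0 R) := (Complex.differentiableOn_dslope hnhds).2 hgd
  have hg0 : g 0 = 0 := by
    change ℓ (f 0).2 = 0
    rw [hf0]; simp
  have hh0 : h 0 = ‖w0‖ := by
    have h1 : HasDerivAt (fun ζ => (f ζ).2) w0 0 := by
      rw [← hder]
      exact (hf2d.differentiableAt hnhds).hasDerivAt
    have h2 : HasDerivAt g (ℓ w0) 0 := ℓ.hasFDerivAt.comp_hasDerivAt (0 : ℂ) h1
    rw [hh, dslope_same, h2.deriv, hℓ2]
    rfl
  have hw0pos : 0 < ‖w0‖ := norm_pos_iff.2 hw0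
  have hf10 : f1 0 = x := by
    change (f 0).1 = x
    rw [hf0]
  have hmain : ∀ r, 0 < r → r < R → D.weight x * (r * ‖w0‖) ≤ 1 := by
    intro r hr hrR
    have har : |r| = r := abs_of_pos hr
    have hsub : closedBall (0 : ℂ) |r| ⊆ ball 0 R := by
      rw [har]; exact closedBall_subset_ball hrR
    have hfa : AnalyticOnNhd ℂ f1 (closedBall 0 |r|) :=
      (hf1d.analyticOnNhd isOpen_ball).mono hsub
    have hha : AnalyticOnNhd ℂ h (closedBall 0 |r|) :=
      (hhd.analyticOnNhd isOpen_ball).mono hsub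
    have h3 := D.royden_aux hr hfa hha (fun ζ hζ => by
      have hζR : ζ ∈ ball (0 : ℂ) R := hsub (by rw [har]; exact sphere_subset_closedBall hζ)
      have hζn : ‖ζ‖ = r := by simpa using hζ
      have hζ0 : ζ ≠ 0 := by
        rintro rfl
        rw [norm_zero] at hζn
        linarith
      have h4 : r * ‖h ζ‖ = ‖g ζ‖ := by
        rw [hh, dslope_of_ne _ hζ0, slope_def_field, hg0, sub_zero, sub_zero, norm_div, hζn]
        field_simp
      rw [h4]
      exact (mul_le_mul_of_nonneg_left (hℓle _) (D.weight_nonneg _)).trans_lt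
        (D.norm_lt_of_mem hV (hM hζR))) (by rw [hh0]; exact_mod_cast hw0pos.ne')
      (by rw [hf10]; exact hW)
    rw [hf10, hh0] at h3
    simpa using h3
  have hlim : Tendsto (fun r : ℝ => D.weight x * (r * ‖w0‖)) (𝓝[<] R)
      (𝓝 (D.weight x * (R * ‖w0‖))) := by
    have : ContinuousAt (fun r : ℝ => D.weight x * (r * ‖w0‖)) R := by fun_prop
    exact this.tendsto.mono_left nhdsWithin_le_nhds
  refine le_of_tendsto hlim ?_
  filter_upwards [Ioo_mem_nhdsLT hR] with r hr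
  exact hmain r hr.1 hr.2

end H73SK
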