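import Mathlib
import Pool.Agent.H73.SK.Royden
import Pool.Agent.H73.SK.Defs

/-! The domain is not an increasing union of open sets biholomorphic to convex open sets. -/

open Filter Topology Set Metric

namespace H73SK

variable (D : Data) {E : Type*} [NormedAddCommGroup E] [NormedSpace ℂ E] {V : E → ℝ}

/-- compact subsets are eventually contained in the members of an exhaustion -/
lemma eventually_subset {X : Type*} [TopologicalSpace X] {B : ℕ → Set X} (hB : Monotone B)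
    (hBo : ∀ j, IsOpen (B j)) {K : Set X} (hK : IsCompact K) (hKB : K ⊆ ⋃ j, B j) :
    ∀ᶠ j in atTop, K ⊆ B j := by
  obtain ⟨j0, hj0⟩ := hK.elim_directed_cover B hBo hKB hB.directed_le
  filter_upwards [eventually_ge_atTop j0] with j hj
  exact hj0.trans (hB hj)

/-- bounded holomorphic functions on an exhaustion are asymptotically constant along entire
curves -/
lemma curve_asymp {X : Type*} [NormedAddCommGroup X] [NormedSpace ℂ X] {B : ℕ → Set X}
    (hB : Monotone B) (hBo : ∀ j, IsOpen (B j)) {h : ℕ → X → ℂ}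
    (hd : ∀ j, DifferentiableOn ℂ (h j) (B j)) (hb : ∀ j, ∀ q ∈ B j, ‖h j q‖ ≤ 1)
    {γ : ℂ → X} (hγ : Differentiable ℂ γ) (hM : ∀ ζ, γ ζ ∈ ⋃ j, B j) (ζ : ℂ) :
    Tendsto (fun j => h j (γ ζ) - h j (γ 0)) atTop (𝓝 0) := by
  rw [Metric.tendsto_atTop']
  intro ε hε
  set R : ℝ := ‖ζ‖ + 1 + 2 * ‖ζ‖ / ε with hR
  have hRpos : 0 < R := by positivity
  have hζR : ‖ζ‖ < R := by
    have : 0 ≤ 2 * ‖ζ‖ / ε := by positivity
    linarith
  have hRε : 2 / R * ‖ζ‖ < ε := by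
    rw [div_mul_eq_mul_div, div_lt_iff₀ hRpos, hR]
    have : ε * (2 * ‖ζ‖ / ε) = 2 * ‖ζ‖ := by field_simp
    nlinarith [norm_nonneg ζ]
  have hK : IsCompact (γ '' closedBall 0 R) := (isCompact_closedBall _ _).image hγ.continuous
  have hev := eventually_subset hB hBo hK (by rintro _ ⟨t, -, rfl⟩; exact hM t)
  obtain ⟨N, hN⟩ := eventually_atTop.1 hev
  refine ⟨N, fun j hj => ?_⟩
  have hsub := hN j hj.le
  have hmem : ∀ t ∈ ball (0 : ℂ) R, γ t ∈ B j := fun t ht =>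
    hsub ⟨t, ball_subset_closedBall ht, rfl⟩
  have hdiff : DifferentiableOn ℂ (fun t => h j (γ t)) (ball 0 R) := by
    intro t ht
    have h1 : DifferentiableAt ℂ (h j) (γ t) :=
      (hd j).differentiableAt ((hBo j).mem_nhds (hmem t ht))
    exact (h1.comp t (hγ t)).differentiableWithinAt
  have hmaps : MapsTo (fun t => h j (γ t)) (ball 0 R) (closedBall (h j (γ 0)) 2) := by
    intro t ht
    rw [mem_closedBall, dist_eq_norm]
    have h1 := hb j _ (hmem t ht)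
    have h2 := hb j _ (hmem 0 (mem_ball_self hRpos))
    exact (norm_sub_le _ _).trans (by linarith)
  have h3 := Complex.dist_le_div_mul_dist_of_mapsTo_ball hdiff hmaps
    (show ζ ∈ ball (0 : ℂ) R by simpa using hζR)
  rw [dist_zero_right] at h3
  rw [dist_zero_right, ← dist_eq_norm]
  exact h3.trans_lt hRε

/-- bounded holomorphic functions on an exhaustion of the domain are asymptotically constant -/
lemma Data.asymp (hV : Gauge V) {B : ℕ → Set (ℂ × E)} (hB : Monotone B)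
    (hBo : ∀ j, IsOpen (B j)) (hBU : ⋃ j, B j = D.dom V) {h : ℕ → ℂ × E → ℂ}
    (hd : ∀ j, DifferentiableOn ℂ (h j) (B j)) (hb : ∀ j, ∀ q ∈ B j, ‖h j q‖ ≤ 1)
    {p : ℂ × E} (hp : p ∈ D.dom V) :
    Tendsto (fun j => h j p - h j (0, 0)) atTop (𝓝 0) := by
  obtain ⟨x, w⟩ := p
  rw [Metric.tendsto_atTop']
  intro ε hε
  -- a horizontal disc
  obtain ⟨r, hr, hball⟩ := Metric.isOpen_iff.1 (D.isOpen_dom hV) (x, w) hp
  have hr2 : 0 < r / 2 := by linarith
  have hdisc : ∀ x' : ℂ, ‖x' - x‖ ≤ r / 2 → ((x', w) : ℂ × E) ∈ D.dom V := by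
    intro x' hx'
    apply hball
    rw [Metric.mem_ball, Prod.dist_eq, dist_self, dist_eq_norm]
    exact max_lt (by linarith) hr
  obtain ⟨k, hk⟩ : ∃ k, ‖D.z k - x‖ < min (r / 2) (ε * r / 12) := by
    obtain ⟨_, hy, ⟨k, rfl⟩⟩ := D.dense.exists_dist_lt x
      (show 0 < min (r / 2) (ε * r / 12) by positivity) |> fun ⟨k, hk⟩ =>
        (⟨D.z k, hk, ⟨k, rfl⟩⟩ : ∃ y, dist x y < min (r / 2) (ε * r / 12) ∧ y ∈ Set.range D.z)
    exact ⟨k, by rwa [dist_comm, dist_eq_norm] at hy⟩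
  have hk1 : ‖D.z k - x‖ < r / 2 := hk.trans_le (min_le_left _ _)
  have hk2 : ‖D.z k - x‖ < ε * r / 12 := hk.trans_le (min_le_right _ _)
  have hKd : IsCompact ((fun x' : ℂ => ((x', w) : ℂ × E)) '' closedBall x (r / 2)) :=
    (isCompact_closedBall _ _).image (by fun_prop)
  have hev1 := eventually_subset hB hBo hKd (by
    rintro _ ⟨t, ht, rfl⟩
    rw [hBU]
    rw [mem_closedBall, dist_eq_norm] at ht
    exact hdisc t ht)
  have c1 := curve_asymp hB hBo hd hb (γ := fun ζ : ℂ => ((ζ, 0) : ℂ × E)) (by fun_prop)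
    (fun ζ => by rw [hBU]; exact D.mem_dom_zero hV ζ) (D.z k)
  have c2 := curve_asymp hB hBo hd hb (γ := fun ζ : ℂ => ((D.z k, ζ • w) : ℂ × E)) (by fun_prop)
    (fun ζ => by rw [hBU]; exact D.mem_dom_z k _) 1
  simp only [one_smul, zero_smul] at c2
  rw [Metric.tendsto_atTop'] at c1 c2
  obtain ⟨N1, hN1⟩ := c1 (ε / 3) (by linarith)
  obtain ⟨N2, hN2⟩ := c2 (ε / 3) (by linarith)
  obtain ⟨N3, hN3⟩ := eventually_atTop.1 hev1
  refine ⟨max N1 (max N2 N3), fun j hj => ?_⟩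
  have hj1 : N1 < j := (le_max_left _ _).trans_lt hj
  have hj2 : N2 < j := ((le_max_left _ _).trans (le_max_right _ _)).trans_lt hj
  have hj3 : N3 ≤ j := (((le_max_right _ _).trans (le_max_right _ _)).trans_lt hj).le
  have e1 := hN1 j hj1
  have e2 := hN2 j hj2
  have hsub := hN3 j hj3
  have hmem : ∀ t ∈ ball x (r / 2), ((t, w) : ℂ × E) ∈ B j := fun t ht =>
    hsub ⟨t, ball_subset_closedBall ht, rfl⟩
  have hdiff : DifferentiableOn ℂ (fun t : ℂ => h j (t, w)) (ball x (r / 2)) := by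
    intro t ht
    have h1 : DifferentiableAt ℂ (h j) (t, w) :=
      (hd j).differentiableAt ((hBo j).mem_nhds (hmem t ht))
    have h2 : DifferentiableAt ℂ (fun t : ℂ => ((t, w) : ℂ × E)) t := by fun_prop
    exact (h1.comp t h2).differentiableWithinAt
  have hmaps : MapsTo (fun t : ℂ => h j (t, w)) (ball x (r / 2)) (closedBall (h j (x, w)) 2) := by
    intro t ht
    rw [mem_closedBall, dist_eq_norm]
    have h1 := hb j _ (hmem t ht)
    have h2 := hb j _ (hmem x (mem_ball_self hr2))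
    exact (norm_sub_le _ _).trans (by linarith)
  have e3 := Complex.dist_le_div_mul_dist_of_mapsTo_ball hdiff hmaps
    (show D.z k ∈ ball x (r / 2) by rwa [mem_ball, dist_eq_norm])
  rw [dist_eq_norm, dist_eq_norm] at e3
  have e4 : 2 / (r / 2) * ‖D.z k - x‖ < ε / 3 := by
    rw [div_mul_eq_mul_div, div_lt_iff₀ hr2]
    nlinarith
  rw [dist_zero_right] at e1 e2 ⊢
  have e5 : h j (x, w) - h j (0, 0) = -(h j (D.z k, w) - h j (x, w)) +
      ((h j (D.z k, w) - h j (D.z k, 0)) + (h j (D.z k, 0) - h j (0, 0))) := by ring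
  rw [e5]
  refine (norm_add_le _ _).trans_lt ?_
  have e6 := norm_add_le (h j (D.z k, w) - h j (D.z k, 0)) (h j (D.z k, 0) - h j (0, 0))
  rw [norm_neg]
  linarith

/-- second order estimate -/
lemma second_order {φ : ℂ → ℂ} {ρ : ℝ} (hρ : 0 < ρ) (hφ : DifferentiableOn ℂ φ (ball 0 ρ))
    (hb : ∀ ζ ∈ ball (0 : ℂ) ρ, ‖φ ζ‖ ≤ 1) {ζ : ℂ} (hζ : ζ ∈ ball (0 : ℂ) ρ) :
    ‖φ ζ - φ 0 - ζ * deriv φ 0‖ ≤ 4 * (‖ζ‖ / ρ) ^ 2 := by
  have hnh : ball (0 : ℂ) ρ ∈ 𝓝 (0 : ℂ) := ball_mem_nhds _ hρ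
  have hda : DifferentiableAt ℂ φ 0 := hφ.differentiableAt hnh
  have h0 : ‖φ 0‖ ≤ 1 := hb 0 (mem_ball_self hρ)
  have hderiv : ‖deriv φ 0‖ ≤ 2 / ρ := by
    apply Complex.norm_deriv_le_div_of_mapsTo_ball hφ _ hρ
    intro t ht
    rw [mem_closedBall, dist_eq_norm]
    exact (norm_sub_le _ _).trans (by linarith [hb t ht])
  set g : ℂ → ℂ := fun ζ => φ ζ - ζ * deriv φ 0 with hg
  have hgd : DifferentiableOn ℂ g (ball 0 ρ) := by
    apply hφ.sub
    fun_prop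
  have hg0 : g 0 = φ 0 := by simp [hg]
  have hmaps : MapsTo g (ball 0 ρ) (closedBall (g 0) 4) := by
    intro t ht
    rw [mem_closedBall, dist_eq_norm, hg0]
    have h1 : ‖t * deriv φ 0‖ ≤ 2 := by
      rw [norm_mul]
      rw [mem_ball_zero_iff] at ht
      calc ‖t‖ * ‖deriv φ 0‖ ≤ ρ * (2 / ρ) :=
            mul_le_mul ht.le hderiv (norm_nonneg _) hρ.le
        _ = 2 := by field_simp
    have h2 : g t - φ 0 = φ t - φ 0 - t * deriv φ 0 := by simp only [hg]; ring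
    rw [h2]
    have h3 := norm_sub_le (φ t - φ 0) (t * deriv φ 0)
    have h4 := norm_sub_le (φ t) (φ 0)
    linarith [hb t ht]
  have hlo : (fun ζ => g ζ - g 0) =o[𝓝 0] fun ζ => ‖ζ - 0‖ ^ 1 := by
    have h5 := hda.hasDerivAt.isLittleO
    simp only [sub_zero, pow_one] at h5 ⊢
    refine (h5.norm_right).congr_left fun t => ?_
    simp only [hg, smul_eq_mul]
    ring
  have h6 := Complex.dist_le_mul_div_pow_of_mapsTo_ball_of_isLittleO (n := 1) hgd hmaps hlo hζ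
  rw [dist_eq_norm, dist_zero_right, hg0] at h6
  have h7 : g ζ - φ 0 = φ ζ - φ 0 - ζ * deriv φ 0 := by simp only [hg]; ring
  rw [h7] at h6
  exact h6

/-- in a convex open set, seen through a biholomorphic map, there is a bounded holomorphic
function with large vertical derivative -/
lemma Data.exists_fun (hV : Gauge V) {B : Set (ℂ × E)} (hBo : IsOpen B) (hBD : B ⊆ D.dom V)
    {Y : Type*} [NormedAddCommGroup Y] [NormedSpace ℂ Y] {Ω : Set Y} (hΩo : IsOpen Ω)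
    (hΩ : Convex ℝ Ω) {ψ : ℂ × E → Y} (hψ : IsBiholo ψ B Ω) {x : ℂ} {w0 : E}
    (hp : ((x, 0) : ℂ × E) ∈ B) {R : ℝ} (hR : 0 < R)
    (hRW : 1 < D.weight x * (R * ‖w0‖)) :
    ∃ h : ℂ × E → ℂ, DifferentiableOn ℂ h B ∧ (∀ q ∈ B, ‖h q‖ ≤ 1) ∧
      Real.exp (-1) / R ≤ ‖deriv (fun ζ : ℂ => h (x, ζ • w0)) 0‖ := by
  obtain ⟨hψd, hψm, θ, hθd, hθm, hθψ, hψθ⟩ := hψ
  set a : Y := ψ (x, 0) with ha
  have haΩ : a ∈ Ω := hψm hp
  -- vertical line through p
  have hline : HasDerivAt (fun ζ : ℂ => ((x, ζ • w0) : ℂ × E)) ((0 : ℂ), w0) 0 := by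
    apply HasDerivAt.prodMk (hasDerivAt_const _ _)
    simpa using (hasDerivAt_id (0 : ℂ)).smul_const w0
  have hψp : HasFDerivAt ψ (fderiv ℂ ψ (x, 0)) (x, 0) :=
    (hψd.differentiableAt (hBo.mem_nhds hp)).hasFDerivAt
  set u : Y := fderiv ℂ ψ (x, 0) (0, w0) with hu
  have hψline : HasDerivAt (fun ζ : ℂ => ψ (x, ζ • w0)) u 0 := by
    have h1 : HasFDerivAt ψ (fderiv ℂ ψ (x, 0)) (x, (0 : ℂ) • w0) := by
      rw [zero_smul]; exact hψp
    exact h1.comp_hasDerivAt (0 : ℂ) hline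
  -- the affine disc leaves Ω
  obtain ⟨τ, hτR, hτ⟩ : ∃ τ : ℂ, ‖τ‖ < R ∧ a + τ • u ∉ Ω := by
    by_contra hcon
    push Not at hcon
    have hin : ∀ τ ∈ ball (0 : ℂ) R, a + τ • u ∈ Ω := fun τ hτ =>
      hcon τ (by simpa using hτ)
    set f : ℂ → ℂ × E := fun τ => θ (a + τ • u) with hf
    have hfd : DifferentiableOn ℂ f (ball 0 R) := by
      intro τ hτ
      have h1 : DifferentiableAt ℂ θ (a + τ • u) :=
        hθd.differentiableAt (hΩo.mem_nhds (hin τ hτ))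
      have h2 : DifferentiableAt ℂ (fun τ : ℂ => a + τ • u) τ := by fun_prop
      exact (h1.comp τ h2).differentiableWithinAt
    have hfm : MapsTo f (ball 0 R) (D.dom V) := fun τ hτ => hBD (hθm (hin τ hτ))
    have hf0 : f 0 = (x, 0) := by
      rw [hf]
      simp only [zero_smul, add_zero]
      rw [ha, hθψ _ hp]
    have hθa : HasFDerivAt θ (fderiv ℂ θ a) a :=
      (hθd.differentiableAt (hΩo.mem_nhds haΩ)).hasFDerivAt
    -- θ ∘ ψ = id near p
    have hcomp : HasFDerivAt (fun q => θ (ψ q)) ((fderiv ℂ θ a).comp (fderiv ℂ ψ (x, 0)))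
        (x, 0) := by
      have h1 : HasFDerivAt θ (fderiv ℂ θ a) (ψ (x, 0)) := hθa
      exact h1.comp (x, 0) hψp
    have hid : HasFDerivAt (fun q => θ (ψ q)) (ContinuousLinearMap.id ℂ (ℂ × E)) (x, 0) := by
      apply (hasFDerivAt_id (𝕜 := ℂ) ((x, 0) : ℂ × E)).congr_of_eventuallyEq
      filter_upwards [hBo.mem_nhds hp] with q hq
      exact hθψ q hq
    have hinv : fderiv ℂ θ a u = (0, w0) := by
      have h2 := hcomp.unique hid
      have h3 := congrArg (fun L => L ((0 : ℂ), w0)) h2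
      simpa using h3
    have hfder : HasDerivAt f (0, w0) 0 := by
      have h1 : HasDerivAt (fun τ : ℂ => a + τ • u) u 0 := by
        simpa using ((hasDerivAt_id (0 : ℂ)).smul_const u).const_add a
      have h2 : HasFDerivAt θ (fderiv ℂ θ a) (a + (0 : ℂ) • u) := by
        rw [zero_smul, add_zero]; exact hθa
      have h3 := h2.comp_hasDerivAt (0 : ℂ) h1
      rw [hinv] at h3
      exact h3
    have hf2' : HasDerivAt (fun ζ => (f ζ).2) w0 0 :=
      (ContinuousLinearMap.snd ℂ ℂ E).hasFDerivAt.comp_hasDerivAt (0 : ℂ) hfder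
    have hf2 : deriv (fun ζ => (f ζ).2) 0 = w0 := hf2'.deriv
    have := D.royden hV hR hfd hfm hf0 hf2
    linarith
  -- a separating functional
  obtain ⟨ℓ, hℓ⟩ := RCLike.geometric_hahn_banach_open_point (𝕜 := ℂ) hΩ hΩo hτ
  set b : Y := a + τ • u with hb
  set s : ℝ := (ℓ b).re - (ℓ a).re with hs
  have hspos : 0 < s := by
    have := hℓ a haΩ
    simp only [RCLike.re_to_complex] at this
    linarith
  have hsle : s ≤ R * ‖ℓ u‖ := by
    have h1 : s = (τ * ℓ u).re := by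
      rw [hs, hb, map_add, map_smul, smul_eq_mul, Complex.add_re]
      ring
    rw [h1]
    calc (τ * ℓ u).re ≤ ‖τ * ℓ u‖ := Complex.re_le_norm _
      _ = ‖τ‖ * ‖ℓ u‖ := norm_mul _ _
      _ ≤ R * ‖ℓ u‖ := mul_le_mul_of_nonneg_right hτR.le (norm_nonneg _)
  refine ⟨fun q => Complex.exp ((ℓ (ψ q) - ℓ b) / s), ?_, ?_, ?_⟩
  · have h1 : DifferentiableOn ℂ (fun q => ℓ (ψ q)) B := ℓ.differentiable.comp_differentiableOn hψd
    have h2 : DifferentiableOn ℂ (fun q => (ℓ (ψ q) - ℓ b) / s) B := by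
      simpa only [div_eq_mul_inv] using (h1.sub_const (ℓ b)).mul_const ((s : ℂ)⁻¹)
    exact h2.cexp
  · intro q hq
    rw [Complex.norm_exp]
    apply Real.exp_le_one_iff.2
    have h1 := hℓ _ (hψm hq)
    simp only [RCLike.re_to_complex] at h1
    have h2 : ((ℓ (ψ q) - ℓ b) / s).re = ((ℓ (ψ q)).re - (ℓ b).re) / s := by
      rw [Complex.div_ofReal_re, Complex.sub_re]
    rw [h2]
    apply div_nonpos_of_nonpos_of_nonneg _ hspos.le
    linarith
  · have h1 : HasDerivAt (fun ζ : ℂ => ℓ (ψ (x, ζ • w0))) (ℓ u) 0 :=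
      ℓ.hasFDerivAt.comp_hasDerivAt (0 : ℂ) hψline
    have h2 : HasDerivAt (fun ζ : ℂ => (ℓ (ψ (x, ζ • w0)) - ℓ b) / s) (ℓ u / s) 0 :=
      (h1.sub_const _).div_const _
    have h3 := h2.cexp
    rw [h3.deriv, norm_mul, zero_smul, Complex.norm_exp]
    have h4 : ((ℓ (ψ (x, 0)) - ℓ b) / s).re = -1 := by
      rw [Complex.div_ofReal_re, Complex.sub_re, ← ha, div_eq_iff hspos.ne', hs]
      ring
    rw [h4, norm_div, Complex.norm_real, Real.norm_eq_abs, abs_of_pos hspos, div_eq_mul_inv]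
    apply mul_le_mul_of_nonneg_left _ (Real.exp_pos _).le
    rw [inv_eq_one_div, div_le_div_iff₀ hR hspos]
    linarith

theorem Data.not_convexExhaustible [Nontrivial E] (hV : Gauge V) :
    ¬ ConvexExhaustible (D.dom V) := by
  rintro ⟨B, Ω, ψ, hB, hBU, hj⟩
  have hBo : ∀ j, IsOpen (B j) := fun j => (hj j).1
  have hBD : ∀ j, B j ⊆ D.dom V := fun j => by
    rw [← hBU]; exact subset_iUnion B j
  obtain ⟨w0, hw0⟩ := exists_ne (0 : E)
  have hw0pos : 0 < ‖w0‖ := norm_pos_iff.2 hw0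
  obtain ⟨x, -, hx⟩ := D.exists_weight_pos isOpen_univ univ_nonempty
  set R : ℝ := 2 / (D.weight x * ‖w0‖) with hR
  have hRpos : 0 < R := by positivity
  have hRW : 1 < D.weight x * (R * ‖w0‖) := by
    have : D.weight x * (R * ‖w0‖) = 2 := by rw [hR]; field_simp
    rw [this]; norm_num
  set δ : ℝ := Real.exp (-1) / R with hδ
  have hδpos : 0 < δ := div_pos (Real.exp_pos _) hRpos
  have hex : ∀ j, ∃ h : ℂ × E → ℂ, DifferentiableOn ℂ h (B j) ∧ (∀ q ∈ B j, ‖h q‖ ≤ 1) ∧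
      (((x, 0) : ℂ × E) ∈ B j → δ ≤ ‖deriv (fun ζ : ℂ => h (x, ζ • w0)) 0‖) := by
    intro j
    by_cases hp : ((x, 0) : ℂ × E) ∈ B j
    · obtain ⟨h, h1, h2, h3⟩ := D.exists_fun hV (hBo j) (hBD j) (hj j).2.1 (hj j).2.2.1
        (hj j).2.2.2 hp hRpos hRW
      exact ⟨h, h1, h2, fun _ => h3⟩
    · exact ⟨fun _ => 0, differentiableOn_const _, by simp, fun h => (hp h).elim⟩
  choose h hd hb hder using hex
  -- a vertical disc in the domain
  obtain ⟨ρ, hρ, hρD⟩ : ∃ ρ : ℝ, 0 < ρ ∧ ∀ ζ : ℂ, ‖ζ‖ ≤ ρ → ((x, ζ • w0) : ℂ × E) ∈ D.dom V := by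
    have hc : ContinuousAt (fun ζ : ℂ => ((x, ζ • w0) : ℂ × E)) 0 := by fun_prop
    have h1 : D.dom V ∈ 𝓝 ((x, (0 : ℂ) • w0) : ℂ × E) := by
      rw [zero_smul]; exact (D.isOpen_dom hV).mem_nhds (D.mem_dom_zero hV x)
    obtain ⟨ε, hε, hball⟩ := Metric.mem_nhds_iff.1 (hc h1)
    refine ⟨ε / 2, by linarith, fun ζ hζ => hball ?_⟩
    rw [mem_ball_zero_iff]
    linarith
  have hKc : IsCompact ((fun ζ : ℂ => ((x, ζ • w0) : ℂ × E)) '' closedBall 0 ρ) :=
    (isCompact_closedBall _ _).image (by fun_prop)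
  have hev := eventually_subset hB hBo hKc (by
    rintro _ ⟨t, ht, rfl⟩
    rw [hBU]
    exact hρD t (by simpa using ht))
  -- the point of evaluation
  set t : ℝ := min (ρ / 2) (δ * ρ ^ 2 / 8) with ht
  have htpos : 0 < t := by positivity
  have htρ : t < ρ := (min_le_left _ _).trans_lt (by linarith)
  have ht2 : t ≤ δ * ρ ^ 2 / 8 := min_le_right _ _
  have hmemt : ((x, (t : ℂ) • w0) : ℂ × E) ∈ D.dom V := hρD t (by
    rw [Complex.norm_real, Real.norm_eq_abs, abs_of_pos htpos]; exact htρ.le)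
  have a1 := D.asymp hV hB hBo hBU hd hb hmemt
  have a2 := D.asymp hV hB hBo hBU hd hb (D.mem_dom_zero hV x)
  have a3 : Tendsto (fun j => h j (x, (t : ℂ) • w0) - h j (x, 0)) atTop (𝓝 0) := by
    have := a1.sub a2
    simpa using this
  rw [Metric.tendsto_atTop'] at a3
  obtain ⟨N, hN⟩ := a3 (t * δ / 2) (by positivity)
  obtain ⟨N', hN'⟩ := eventually_atTop.1 hev
  set j := max (N + 1) N' with hjdef
  have e1 := hN j (lt_of_lt_of_le (Nat.lt_succ_self N) (le_max_left _ _))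
  have hsub := hN' j (le_max_right _ _)
  have hmem : ∀ ζ ∈ ball (0 : ℂ) ρ, ((x, ζ • w0) : ℂ × E) ∈ B j := fun ζ hζ =>
    hsub ⟨ζ, ball_subset_closedBall hζ, rfl⟩
  have hp : ((x, 0) : ℂ × E) ∈ B j := by simpa using hmem 0 (mem_ball_self hρ)
  have hφd : DifferentiableOn ℂ (fun ζ : ℂ => h j (x, ζ • w0)) (ball 0 ρ) := by
    intro ζ hζ
    have h1 : DifferentiableAt ℂ (h j) (x, ζ • w0) :=
      (hd j).differentiableAt ((hBo j).mem_nhds (hmem ζ hζ))
    have h2 : DifferentiableAt ℂ (fun ζ : ℂ => ((x, ζ • w0) : ℂ × E)) ζ := by fun_prop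
    exact (h1.comp ζ h2).differentiableWithinAt
  have htn : ‖(t : ℂ)‖ = t := by rw [Complex.norm_real, Real.norm_eq_abs, abs_of_pos htpos]
  have e2 := second_order hρ hφd (fun ζ hζ => hb j _ (hmem ζ hζ))
    (ζ := (t : ℂ)) (by rw [mem_ball_zero_iff, htn]; exact htρ)
  rw [zero_smul, htn] at e2
  have e3 := hder j hp
  rw [dist_zero_right] at e1
  have e4 : t * δ ≤ ‖(t : ℂ) * deriv (fun ζ : ℂ => h j (x, ζ • w0)) 0‖ := by
    rw [norm_mul, htn]
    exact mul_le_mul_of_nonneg_left e3 htpos.le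
  have e5 : ‖(t : ℂ) * deriv (fun ζ : ℂ => h j (x, ζ • w0)) 0‖ ≤
      ‖h j (x, (t : ℂ) • w0) - h j (x, 0)‖ +
      ‖h j (x, (t : ℂ) • w0) - h j (x, 0) - (t : ℂ) * deriv (fun ζ : ℂ => h j (x, ζ • w0)) 0‖ := by
    have := norm_sub_le (h j (x, (t : ℂ) • w0) - h j (x, 0))
      (h j (x, (t : ℂ) • w0) - h j (x, 0) - (t : ℂ) * deriv (fun ζ : ℂ => h j (x, ζ • w0)) 0)
    rwa [sub_sub_cancel] at this
  have e6 : 4 * (t / ρ) ^ 2 ≤ t * δ / 2 := by
    rw [div_pow, mul_div_assoc', div_le_iff₀ (by positivity)]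
    nlinarith
  linarith

end H73SK
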