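import Mathlib
import Pool.Agent.H73.SK.Defs

/-! A fibrewise radial diffeomorphism criterion. -/

open Filter Topology Set Metric

namespace H73SK

section Abstract

variable {A E : Type*} [NormedAddCommGroup A] [NormedSpace ℝ A] [FiniteDimensional ℝ A]
  [NormedAddCommGroup E] [NormedSpace ℝ E] [FiniteDimensional ℝ E]

/-- the fibrewise radial map -/
def radial (h : A × E → ℝ) (p : A × E) : A × E := (p.1, h p • p.2)

lemma deriv_nonneg_of_monotone_left {γ : ℝ → ℝ} {γ' : ℝ} (hγ : HasDerivAt γ γ' 1)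
    (hmono : ∀ t ∈ Icc (0 : ℝ) 1, γ t ≤ γ 1) : 0 ≤ γ' := by
  have h1 : Tendsto (slope γ 1) (𝓝[<] 1) (𝓝 γ') :=
    (hasDerivAt_iff_tendsto_slope.1 hγ).mono_left
      (nhdsWithin_mono _ fun x hx => ne_of_lt hx)
  refine ge_of_tendsto h1 ?_
  have h2 : Ioo (0 : ℝ) 1 ∈ 𝓝[<] (1 : ℝ) := Ioo_mem_nhdsLT (by norm_num)
  filter_upwards [h2] with t ht
  rw [slope_def_field]
  apply div_nonneg_of_nonpos
  · linarith [hmono t ⟨ht.1.le, ht.2.le⟩]
  · linarith [ht.2]

/-- the derivative of the radial map -/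
noncomputable def radialDeriv (c : ℝ) (h' : A × E →L[ℝ] ℝ) (w : E) : A × E →L[ℝ] A × E :=
  (ContinuousLinearMap.fst ℝ A E).prod
    (c • ContinuousLinearMap.snd ℝ A E + h'.smulRight w)

omit [FiniteDimensional ℝ A] [FiniteDimensional ℝ E] in
lemma radialDeriv_injective {c : ℝ} (hc : 0 < c) {h' : A × E →L[ℝ] ℝ} {w : E}
    (hh : 0 ≤ h' (0, w)) : Function.Injective (radialDeriv c h' w) := by
  rw [injective_iff_map_eq_zero]
  rintro ⟨a, v⟩ hv
  have h1 : a = 0 := congrArg Prod.fst hv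
  have h2 : c • v + h' (a, v) • w = 0 := congrArg Prod.snd hv
  subst h1
  set l := h' ((0 : A), v) with hl
  have h3 : v = (-(l / c)) • w := by
    have h4 : c • v = -(l • w) := eq_neg_of_add_eq_zero_left h2
    calc v = c⁻¹ • (c • v) := by rw [smul_smul, inv_mul_cancel₀ hc.ne', one_smul]
      _ = _ := by rw [h4, smul_neg, smul_smul, neg_smul, div_eq_inv_mul]
  have h5 : l = -(l / c) * h' ((0 : A), w) := by
    have h6 : ((0 : A), v) = (-(l / c)) • ((0 : A), w) := by
      rw [h3]; simp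
    calc l = h' ((0 : A), v) := rfl
      _ = h' ((-(l / c)) • ((0 : A), w)) := by rw [← h6]
      _ = _ := by rw [map_smul, smul_eq_mul]
  have h7 : l * (1 + h' ((0 : A), w) / c) = 0 := by
    have : l / c * h' ((0 : A), w) = l * (h' ((0 : A), w) / c) := by ring
    rw [mul_add, mul_one]
    linarith
  have h8 : 0 < 1 + h' ((0 : A), w) / c := by positivity
  have h9 : l = 0 := by
    rcases mul_eq_zero.1 h7 with h | h
    · exact h
    · exact (h8.ne' h).elim
  rw [h9] at h3
  rw [h3]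
  simp

theorem diffeo_of_radial {M : Set (A × E)} (hMo : IsOpen M) {h : A × E → ℝ}
    (hh : ContDiffOn ℝ (⊤ : ℕ∞) h M) (h1 : ∀ p ∈ M, 1 ≤ h p)
    (hstar : ∀ p ∈ M, ∀ t ∈ Icc (0 : ℝ) 1, (p.1, t • p.2) ∈ M ∧ h (p.1, t • p.2) ≤ h p)
    (hsurj : ∀ (x : A) (v : E), v ≠ 0 → ∃ t > 0, (x, t • v) ∈ M ∧ 1 ≤ t * h (x, t • v))
    (hzero : ∀ x : A, (x, (0 : E)) ∈ M) : DiffeoToWhole M := by
  classical
  have hcE : CompleteSpace E := FiniteDimensional.complete ℝ E
  have hcA : CompleteSpace A := FiniteDimensional.complete ℝ A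
  -- injectivity
  have hinj : ∀ p ∈ M, ∀ q ∈ M, radial h p = radial h q → p = q := by
    have key : ∀ (x : A) (w w' : E), (x, w) ∈ M → (x, w') ∈ M → ∀ l : ℝ, 0 ≤ l → l ≤ 1 →
        w' = l • w → h (x, w) • w = h (x, w') • w' → w = w' := by
      intro x w w' hw hw' l hl0 hl1 hlw hE
      by_cases hw0 : w = 0
      · rw [hlw, hw0, smul_zero]
      have h2 := (hstar (x, w) hw l ⟨hl0, hl1⟩).2
      simp only at h2
      rw [← hlw] at h2
      rw [hlw, smul_smul, ← hlw] at hE
      have h3 : h (x, w) = h (x, w') * l := by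
        have h4 : (h (x, w) - h (x, w') * l) • w = 0 := by rw [sub_smul, hE, sub_self]
        rcases smul_eq_zero.1 h4 with h | h
        · linarith
        · exact (hw0 h).elim
      have h5 := h1 _ hw'
      have h6 : l = 1 := by
        apply le_antisymm hl1
        by_contra hlt
        push Not at hlt
        nlinarith
      rw [hlw, h6, one_smul]
    rintro ⟨x, w⟩ hp ⟨x', w'⟩ hq hE
    have hx : x = x' := congrArg Prod.fst hE
    subst hx
    have hw : h (x, w) • w = h (x, w') • w' := congrArg Prod.snd hE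
    have hpos : 0 < h (x, w) := lt_of_lt_of_le one_pos (h1 _ hp)
    have hpos' : 0 < h (x, w') := lt_of_lt_of_le one_pos (h1 _ hq)
    set l := h (x, w) / h (x, w') with hl
    have hl0 : 0 < l := div_pos hpos hpos'
    have hlw : w' = l • w := by
      calc w' = (h (x, w'))⁻¹ • (h (x, w') • w') := by
            rw [smul_smul, inv_mul_cancel₀ hpos'.ne', one_smul]
        _ = l • w := by rw [← hw, smul_smul, hl, div_eq_inv_mul]
    have hlw' : w = l⁻¹ • w' := by rw [hlw, smul_smul, inv_mul_cancel₀ hl0.ne', one_smul]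
    rcases le_total l 1 with hl1 | hl1
    · rw [key x w w' hp hq l hl0.le hl1 hlw hw]
    · rw [← key x w' w hq hp l⁻¹ (inv_nonneg.2 hl0.le) (inv_le_one_of_one_le₀ hl1) hlw' hw.symm]
  -- surjectivity
  have hsur : ∀ q : A × E, ∃ p ∈ M, radial h p = q := by
    rintro ⟨x, v⟩
    by_cases hv : v = 0
    · exact ⟨(x, 0), hzero x, by simp [radial, hv]⟩
    obtain ⟨T, hT, hTM, hT1⟩ := hsurj x v hv
    have hsub : ∀ t ∈ Icc (0 : ℝ) T, (x, t • v) ∈ M := by
      intro t ht
      have h2 := (hstar (x, T • v) hTM (t / T) ⟨div_nonneg ht.1 hT.le,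
        (div_le_one hT).2 ht.2⟩).1
      simpa [smul_smul, div_mul_cancel₀ _ hT.ne'] using h2
    have hcont : ContinuousOn (fun t : ℝ => t * h (x, t • v)) (Icc 0 T) := by
      apply ContinuousOn.mul continuousOn_id
      apply hh.continuousOn.comp (by fun_prop) hsub
    have hIVT := intermediate_value_Icc hT.le hcont
    obtain ⟨t, ht, hteq⟩ := hIVT (show (1 : ℝ) ∈ Icc _ _ from ⟨by simp, hT1⟩)
    refine ⟨(x, t • v), hsub t ht, ?_⟩
    unfold radial
    simp only [Prod.mk.injEq, true_and]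
    rw [smul_smul, mul_comm]
    simp only at hteq
    rw [hteq, one_smul]
  choose Ψ hΨM hΨ using hsur
  -- smoothness of the radial map
  have hΦ : ContDiffOn ℝ (⊤ : ℕ∞) (radial h) M :=
    contDiff_fst.contDiffOn.prodMk (hh.smul contDiff_snd.contDiffOn)
  refine ⟨radial h, Ψ, hΦ, ?_, hΨM, fun p hp => hinj _ (hΨM _) _ hp (hΨ _), hΨ⟩
  rw [contDiff_iff_contDiffAt]
  intro q
  set p := Ψ q with hp
  have hpM : p ∈ M := hΨM q
  have hpq : radial h p = q := hΨ q
  have hΦp : ContDiffAt ℝ (⊤ : ℕ∞) (radial h) p := hΦ.contDiffAt (hMo.mem_nhds hpM)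
  have hhp : ContDiffAt ℝ (⊤ : ℕ∞) h p := hh.contDiffAt (hMo.mem_nhds hpM)
  have hhd : HasFDerivAt h (fderiv ℝ h p) p :=
    (hhp.differentiableAt (by simp)).hasFDerivAt
  have hder : HasFDerivAt (radial h) (radialDeriv (h p) (fderiv ℝ h p) p.2) p := by
    unfold radial radialDeriv
    exact hasFDerivAt_fst.prodMk (hhd.smul hasFDerivAt_snd)
  have hnn : 0 ≤ fderiv ℝ h p (0, p.2) := by
    have hγ : HasDerivAt (fun t : ℝ => h (p.1, t • p.2)) (fderiv ℝ h p (0, p.2)) 1 := by
      have h2 : HasDerivAt (fun t : ℝ => (p.1, t • p.2)) ((0 : A), p.2) 1 := by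
        apply HasDerivAt.prodMk (hasDerivAt_const _ _)
        simpa using (hasDerivAt_id (1 : ℝ)).smul_const p.2
      have h3 : HasFDerivAt h (fderiv ℝ h p) (p.1, (1 : ℝ) • p.2) := by
        rw [one_smul]
        exact hhd
      exact h3.comp_hasDerivAt (1 : ℝ) h2
    apply deriv_nonneg_of_monotone_left hγ
    intro t ht
    have := (hstar p hpM t ht).2
    simpa using this
  have hpos : 0 < h p := lt_of_lt_of_le one_pos (h1 _ hpM)
  have hinjd := radialDeriv_injective hpos hnn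
  have hsurd : Function.Surjective (radialDeriv (h p) (fderiv ℝ h p) p.2) :=
    (LinearMap.injective_iff_surjective
      (f := (radialDeriv (h p) (fderiv ℝ h p) p.2 : A × E →ₗ[ℝ] A × E))).1 hinjd
  set e := ContinuousLinearEquiv.ofBijective (radialDeriv (h p) (fderiv ℝ h p) p.2)
    (LinearMap.ker_eq_bot.2 hinjd) (LinearMap.range_eq_top.2 hsurd) with he
  have hder' : HasFDerivAt (radial h) (e : A × E →L[ℝ] A × E) p := by
    rw [he, ContinuousLinearEquiv.coe_ofBijective]
    exact hder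
  have hn : ((⊤ : ℕ∞) : WithTop ℕ∞) ≠ 0 := by simp
  have hst := hΦp.hasStrictFDerivAt' hder' hn
  have hL := hΦp.to_localInverse hder' hn
  rw [hpq] at hL
  refine hL.congr_of_eventuallyEq ?_
  have h4 : ∀ᶠ y in 𝓝 q, radial h (hst.localInverse (radial h) e p y) = y := by
    have := hst.eventually_right_inverse
    rwa [hpq] at this
  have h5 : ∀ᶠ y in 𝓝 q, hst.localInverse (radial h) e p y ∈ M := by
    have h6 := hst.localInverse_tendsto
    rw [hpq] at h6
    exact h6 (hMo.mem_nhds hpM)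
  filter_upwards [h4, h5] with y hy1 hy2
  apply hinj _ (hΨM y) _ hy2
  rw [hΨ y]
  exact hy1.symm

end Abstract

end H73SK
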