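import Mathlib
import Pool.Agent.H73.SK.Weight
import Pool.Agent.H73.SK.Radial

/-! Smooth strictly decreasing approximations of the square of the weight, and the
diffeomorphism of the domain with the whole space. -/

open Filter Topology Set Metric Finset

namespace H73SK

/-- `1 + ‖x‖ ^ 2` -/
noncomputable def Ax (x : ℂ) : ℝ := 1 + ‖x‖ ^ 2

lemma Ax_pos (x : ℂ) : 0 < Ax x := by unfold Ax; positivity

lemma one_le_Ax (x : ℂ) : 1 ≤ Ax x := by
  unfold Ax
  nlinarith [sq_nonneg ‖x‖]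

lemma contDiff_Ax : ContDiff ℝ (⊤ : ℕ∞) Ax := by
  unfold Ax
  exact contDiff_const.add (contDiff_norm_sq ℝ)

lemma Ax_mul (x y : ℂ) : ‖x - y‖ ^ 2 ≤ Ax x * Ax y := by
  unfold Ax
  have h := norm_sub_le x y
  have h0 := norm_nonneg (x - y)
  have h1 : ‖x - y‖ ^ 2 ≤ (‖x‖ + ‖y‖) ^ 2 := pow_le_pow_left₀ h0 h 2
  nlinarith [sq_nonneg (‖x‖ * ‖y‖ - 1)]

namespace Data

variable (D : Data)

/-- normalised squared distance, in `[0, 1]` -/
noncomputable def q (k : ℕ) (x : ℂ) : ℝ := ‖x - D.z k‖ ^ 2 / (Ax x * Ax (D.z k))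

lemma q_nonneg (k : ℕ) (x : ℂ) : 0 ≤ D.q k x :=
  div_nonneg (sq_nonneg _) (mul_pos (Ax_pos _) (Ax_pos _)).le

lemma q_le_one (k : ℕ) (x : ℂ) : D.q k x ≤ 1 :=
  (div_le_one (mul_pos (Ax_pos _) (Ax_pos _))).2 (Ax_mul _ _)

lemma contDiff_q (k : ℕ) : ContDiff ℝ (⊤ : ℕ∞) (D.q k) := by
  unfold q
  apply ContDiff.div
  · exact (contDiff_norm_sq ℝ).comp (contDiff_id.sub contDiff_const)
  · exact contDiff_Ax.mul contDiff_const
  · intro x
    exact (mul_pos (Ax_pos _) (Ax_pos _)).ne'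

/-- the smoothing factor -/
noncomputable def sf (k : ℕ) (ε : ℝ) (x : ℂ) : ℝ := (D.q k x + ε) / (1 + ε)

lemma sf_pos {k : ℕ} {ε : ℝ} (hε : 0 < ε) (x : ℂ) : 0 < D.sf k ε x := by
  have := D.q_nonneg k x
  unfold sf
  positivity

lemma sf_nonneg {k : ℕ} {ε : ℝ} (hε : 0 ≤ ε) (x : ℂ) : 0 ≤ D.sf k ε x := by
  have := D.q_nonneg k x
  unfold sf
  positivity

lemma sf_le_one {k : ℕ} {ε : ℝ} (hε : 0 ≤ ε) (x : ℂ) : D.sf k ε x ≤ 1 := by
  unfold sf
  rw [div_le_one (by positivity)]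
  linarith [D.q_le_one k x]

lemma sf_mono {k : ℕ} {ε ε' : ℝ} (hε : 0 ≤ ε) (h : ε ≤ ε') (x : ℂ) : D.sf k ε x ≤ D.sf k ε' x := by
  unfold sf
  rw [div_le_div_iff₀ (by positivity) (by linarith)]
  have := D.q_le_one k x
  nlinarith

lemma sf_zero (k : ℕ) (x : ℂ) : D.sf k 0 x = D.q k x := by
  unfold sf; simp

/-- the common factor -/
noncomputable def cf (x : ℂ) : ℝ :=
  Real.exp (D.mass * Real.log (Ax x) + ∑' k, D.c k * Real.log (Ax (D.z k)))

lemma cf_pos (x : ℂ) : 0 < D.cf x := Real.exp_pos _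

lemma contDiff_cf : ContDiff ℝ (⊤ : ℕ∞) D.cf := by
  unfold cf
  apply ContDiff.exp
  apply ContDiff.add _ contDiff_const
  exact contDiff_const.mul (contDiff_Ax.log fun x => (Ax_pos x).ne')

/-- finite products of smoothing factors -/
noncomputable def R (N : ℕ) (ε : ℝ) (x : ℂ) : ℝ := ∏ k ∈ range N, D.sf k ε x ^ D.c k

lemma R_nonneg (N : ℕ) {ε : ℝ} (hε : 0 ≤ ε) (x : ℂ) : 0 ≤ D.R N ε x :=
  Finset.prod_nonneg fun _ _ => Real.rpow_nonneg (D.sf_nonneg hε x) _

lemma R_pos (N : ℕ) {ε : ℝ} (hε : 0 < ε) (x : ℂ) : 0 < D.R N ε x :=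
  Finset.prod_pos fun _ _ => Real.rpow_pos_of_pos (D.sf_pos hε x) _

lemma R_mono (N : ℕ) {ε ε' : ℝ} (hε : 0 ≤ ε) (h : ε ≤ ε') (x : ℂ) : D.R N ε x ≤ D.R N ε' x := by
  apply Finset.prod_le_prod
  · intro k _
    exact Real.rpow_nonneg (D.sf_nonneg hε x) _
  · intro k _
    exact Real.rpow_le_rpow (D.sf_nonneg hε x) (D.sf_mono hε h x) (D.pos k).le

lemma R_anti {N N' : ℕ} (h : N ≤ N') {ε : ℝ} (hε : 0 ≤ ε) (x : ℂ) : D.R N' ε x ≤ D.R N ε x := by
  apply Finset.prod_le_prod_of_subset_of_le_one (Finset.range_mono h)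
  · intro k _
    exact Real.rpow_nonneg (D.sf_nonneg hε x) _
  · intro k _ _
    exact Real.rpow_le_one (D.sf_nonneg hε x) (D.sf_le_one hε x) (D.pos k).le

lemma R_contDiff (N : ℕ) {ε : ℝ} (hε : 0 < ε) : ContDiff ℝ (⊤ : ℕ∞) (D.R N ε) := by
  unfold R
  apply contDiff_prod
  intro k _
  apply ContDiff.rpow_const_of_ne
  · unfold sf
    exact ((D.contDiff_q k).add contDiff_const).div_const _
  · intro x
    exact (D.sf_pos hε x).ne'

lemma R_tendsto (N : ℕ) (x : ℂ) : Tendsto (fun ε => D.R N ε x) (𝓝[≥] 0) (𝓝 (D.R N 0 x)) := by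
  unfold R
  apply tendsto_finsetProd
  intro k _
  have h1 : ContinuousAt (fun ε => D.sf k ε x) 0 := by
    unfold sf
    apply ContinuousAt.div
    · fun_prop
    · fun_prop
    · norm_num
  have h2 : ContinuousAt (fun ε => D.sf k ε x ^ D.c k) 0 :=
    h1.rpow_const (Or.inr (D.pos k).le)
  exact h2.tendsto.mono_left nhdsWithin_le_nhds

lemma summable_logA : Summable fun k => D.c k * Real.log (Ax (D.z k)) := by
  have h1 : Summable fun k => D.c k * Real.log 2 + 2 * (D.c k * Real.posLog ‖D.z k‖) :=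
    (D.summable_c.mul_right _).add (D.summable_cl.mul_left 2)
  refine Summable.of_nonneg_of_le (fun k => ?_) (fun k => ?_) h1
  · exact mul_nonneg (D.pos k).le (Real.log_nonneg (one_le_Ax _))
  · have h2 : Real.log (Ax (D.z k)) ≤ Real.log 2 + 2 * Real.posLog ‖D.z k‖ := by
      have h3 : Ax (D.z k) ≤ 2 * (max 1 ‖D.z k‖) ^ 2 := by
        unfold Ax
        have h4 : 1 ≤ max 1 ‖D.z k‖ := le_max_left _ _
        have h5 : ‖D.z k‖ ≤ max 1 ‖D.z k‖ := le_max_right _ _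
        nlinarith [norm_nonneg (D.z k)]
      have h6 : 0 < max 1 ‖D.z k‖ := lt_of_lt_of_le one_pos (le_max_left _ _)
      calc Real.log (Ax (D.z k)) ≤ Real.log (2 * (max 1 ‖D.z k‖) ^ 2) :=
            Real.log_le_log (Ax_pos _) h3
        _ = Real.log 2 + 2 * Real.log (max 1 ‖D.z k‖) := by
            rw [Real.log_mul two_ne_zero (by positivity), Real.log_pow]
            norm_num
        _ = _ := by rw [Real.posLog_eq_log_max_one (norm_nonneg _)]
    nlinarith [D.pos k]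

/-- the normalised finite products tend to the square of the weight -/
lemma cfR_tendsto (x : ℂ) : Tendsto (fun N => D.cf x * D.R N 0 x) atTop (𝓝 (D.weight x ^ 2)) := by
  have hform : ∀ N, D.cf x * D.R N 0 x = D.P N x ^ 2 *
      Real.exp ((D.mass - ∑ k ∈ range N, D.c k) * Real.log (Ax x) +
        (∑' k, D.c k * Real.log (Ax (D.z k)) -
          ∑ k ∈ range N, D.c k * Real.log (Ax (D.z k)))) := by
    intro N
    have h1 : D.R N 0 x = D.P N x ^ 2 * Real.exp (-((∑ k ∈ range N, D.c k) * Real.log (Ax x) +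
        ∑ k ∈ range N, D.c k * Real.log (Ax (D.z k)))) := by
      unfold R P
      rw [← Finset.prod_pow, Finset.sum_mul, ← Finset.sum_add_distrib, ← Finset.sum_neg_distrib,
        Real.exp_sum, ← Finset.prod_mul_distrib]
      apply Finset.prod_congr rfl
      intro k _
      rw [sf_zero]
      unfold q
      have hAA : 0 < Ax x * Ax (D.z k) := mul_pos (Ax_pos _) (Ax_pos _)
      rw [Real.div_rpow (sq_nonneg _) hAA.le, div_eq_mul_inv]
      congr 1
      · rw [← Real.rpow_natCast, ← Real.rpow_natCast, ← Real.rpow_mul (norm_nonneg _),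
          ← Real.rpow_mul (norm_nonneg _), mul_comm]
      · rw [← Real.rpow_neg hAA.le, Real.rpow_def_of_pos hAA,
          Real.log_mul (Ax_pos _).ne' (Ax_pos _).ne']
        congr 1
        ring
    rw [h1]
    unfold cf
    rw [mul_comm, mul_assoc, ← Real.exp_add]
    congr 2
    ring
  simp_rw [hform]
  have h2 : Tendsto (fun N => D.P N x ^ 2) atTop (𝓝 (D.weight x ^ 2)) := (D.P_tendsto x).pow 2
  have h3 : Tendsto (fun N => (D.mass - ∑ k ∈ range N, D.c k) * Real.log (Ax x) +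
        (∑' k, D.c k * Real.log (Ax (D.z k)) -
          ∑ k ∈ range N, D.c k * Real.log (Ax (D.z k)))) atTop (𝓝 0) := by
    have h4 : Tendsto (fun N => ∑ k ∈ range N, D.c k) atTop (𝓝 D.mass) :=
      D.summable_c.hasSum.tendsto_sum_nat
    have h5 := D.summable_logA.hasSum.tendsto_sum_nat
    have h6 := ((h4.const_sub D.mass).mul_const (Real.log (Ax x))).add (h5.const_sub
      (∑' k, D.c k * Real.log (Ax (D.z k))))
    simpa using h6
  have h7 := h2.mul ((Real.continuous_exp.tendsto 0).comp h3)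
  simpa using h7

lemma weight_sq_le (x : ℂ) (N : ℕ) : D.weight x ^ 2 ≤ D.cf x * D.R N 0 x := by
  refine le_of_tendsto (D.cfR_tendsto x) ?_
  filter_upwards [eventually_ge_atTop N] with M hM
  exact mul_le_mul_of_nonneg_left (D.R_anti hM le_rfl x) (D.cf_pos x).le

/-- `1 / (j + 1)` -/
noncomputable def ep (j : ℕ) : ℝ := 1 / ((j : ℝ) + 1)

lemma ep_pos (j : ℕ) : 0 < ep j := by unfold ep; positivity

lemma ep_succ_lt (j : ℕ) : ep (j + 1) < ep j := by
  unfold ep
  apply one_div_lt_one_div_of_lt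
  · positivity
  · push_cast; linarith

/-- the smooth strictly decreasing approximations of `weight ^ 2` -/
noncomputable def u (j : ℕ) (x : ℂ) : ℝ := (1 + ep j) * (D.cf x * D.R j (ep j) x)

lemma u_pos (j : ℕ) (x : ℂ) : 0 < D.u j x :=
  mul_pos (by linarith [ep_pos j]) (mul_pos (D.cf_pos x) (D.R_pos j (ep_pos j) x))

lemma u_contDiff (j : ℕ) : ContDiff ℝ (⊤ : ℕ∞) (D.u j) :=
  contDiff_const.mul (D.contDiff_cf.mul (D.R_contDiff j (ep_pos j)))

lemma u_succ_lt (j : ℕ) (x : ℂ) : D.u (j + 1) x < D.u j x := by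
  unfold u
  have h1 : D.R (j + 1) (ep (j + 1)) x ≤ D.R j (ep j) x :=
    (D.R_anti (Nat.le_succ j) (ep_pos _).le x).trans
      (D.R_mono j (ep_pos _).le (ep_succ_lt j).le x)
  have h2 := D.cf_pos x
  have h3 := D.R_pos (j + 1) (ep_pos (j + 1)) x
  have h4 := ep_succ_lt j
  have h5 := ep_pos (j + 1)
  have h6 : D.cf x * D.R (j + 1) (ep (j + 1)) x ≤ D.cf x * D.R j (ep j) x :=
    mul_le_mul_of_nonneg_left h1 h2.le
  have h7 : 0 < D.cf x * D.R (j + 1) (ep (j + 1)) x := mul_pos h2 h3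
  nlinarith

lemma weight_sq_lt_u (j : ℕ) (x : ℂ) : D.weight x ^ 2 < D.u j x := by
  have h1 := D.weight_sq_le x j
  have h2 : D.cf x * D.R j 0 x ≤ D.cf x * D.R j (ep j) x :=
    mul_le_mul_of_nonneg_left (D.R_mono j le_rfl (ep_pos j).le x) (D.cf_pos x).le
  have h3 : 0 < D.cf x * D.R j (ep j) x := mul_pos (D.cf_pos x) (D.R_pos j (ep_pos j) x)
  unfold u
  nlinarith [ep_pos j]

lemma exists_u_lt {x : ℂ} {t : ℝ} (ht : 0 ≤ t) (h : D.weight x ^ 2 * t < 1) :
    ∃ j, D.u j x * t < 1 := by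
  obtain ⟨N, hN⟩ := (((D.cfR_tendsto x).mul_const t).eventually_lt_const h).exists
  have h1 : Tendsto ep atTop (𝓝[≥] 0) := by
    rw [tendsto_nhdsWithin_iff]
    refine ⟨tendsto_one_div_add_atTop_nhds_zero_nat, Eventually.of_forall fun j => (ep_pos j).le⟩
  have h2 : Tendsto (fun j => (1 + ep j) * (D.cf x * D.R N (ep j) x) * t) atTop
      (𝓝 ((1 + 0) * (D.cf x * D.R N 0 x) * t)) := by
    apply Tendsto.mul_const
    apply Tendsto.mul
    · exact (tendsto_one_div_add_atTop_nhds_zero_nat (𝕜 := ℝ)).const_add 1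
    · exact ((D.R_tendsto N x).comp h1).const_mul _
  rw [add_zero, one_mul] at h2
  obtain ⟨j, hj, hjN⟩ := ((h2.eventually_lt_const hN).and (eventually_ge_atTop N)).exists
  refine ⟨j, lt_of_le_of_lt ?_ hj⟩
  apply mul_le_mul_of_nonneg_right _ ht
  unfold u
  apply mul_le_mul_of_nonneg_left _ (by linarith [ep_pos j])
  exact mul_le_mul_of_nonneg_left (D.R_anti hjN (ep_pos j).le x) (D.cf_pos x).le

end Data

end H73SK
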