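import Mathlib
import Pool.Agent.H73.SK.Smooth

/-! The domain is diffeomorphic to the whole space. -/

open Filter Topology Set Metric Finset

set_option linter.unusedSectionVars false

namespace H73SK

namespace Data

variable (D : Data)

/-- the increasing squared radii -/
noncomputable def Q (j : ℕ) (x : ℂ) : ℝ := (D.u j x)⁻¹

lemma Q_pos (j : ℕ) (x : ℂ) : 0 < D.Q j x := inv_pos.2 (D.u_pos j x)

lemma Q_succ (j : ℕ) (x : ℂ) : D.Q j x < D.Q (j + 1) x :=
  inv_strictAnti₀ (D.u_pos _ _) (D.u_succ_lt j x)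

lemma Q_strictMono (x : ℂ) : StrictMono fun j => D.Q j x :=
  strictMono_nat_of_lt_succ fun j => D.Q_succ j x

lemma Q_contDiff (j : ℕ) : ContDiff ℝ (⊤ : ℕ∞) (D.Q j) :=
  (D.u_contDiff j).inv fun x => (D.u_pos j x).ne'

section norm

variable {E : Type*} [NormedAddCommGroup E] {V : E → ℝ}

lemma mem_dom_of_Q (hV : Gauge V) {p : ℂ × E} {j : ℕ} (h : V p.2 ^ 2 < D.Q j p.1) :
    p ∈ D.dom V := by
  rw [mem_dom]
  have h1 : D.u j p.1 * V p.2 ^ 2 < 1 := by
    have := mul_lt_mul_of_pos_left h (D.u_pos j p.1)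
    rwa [Q, mul_inv_cancel₀ (D.u_pos j p.1).ne'] at this
  have h2 : (D.weight p.1 * V p.2) ^ 2 < 1 := by
    rw [mul_pow]
    exact (mul_le_mul_of_nonneg_right (D.weight_sq_lt_u j p.1).le (sq_nonneg _)).trans_lt h1
  exact (sq_lt_one_iff₀ (mul_nonneg (D.weight_nonneg _) (hV.nonneg _))).1 h2

lemma exists_Q_of_mem (hV : Gauge V) {p : ℂ × E} (h : p ∈ D.dom V) :
    ∃ j, V p.2 ^ 2 < D.Q j p.1 := by
  rw [mem_dom] at h
  have h2 : D.weight p.1 ^ 2 * V p.2 ^ 2 < 1 := by
    rw [← mul_pow]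
    exact (sq_lt_one_iff₀ (mul_nonneg (D.weight_nonneg _) (hV.nonneg _))).2 h
  obtain ⟨j, hj⟩ := D.exists_u_lt (sq_nonneg _) h2
  refine ⟨j, ?_⟩
  unfold Q
  rw [inv_eq_one_div, lt_div_iff₀ (D.u_pos j p.1), mul_comm]
  exact hj

/-- the steps -/
noncomputable def S (V : E → ℝ) (j : ℕ) (p : ℂ × E) : ℝ :=
  Real.smoothTransition ((V p.2 ^ 2 - D.Q j p.1) / (D.Q (j + 1) p.1 - D.Q j p.1))

lemma S_nonneg (j : ℕ) (p : ℂ × E) : 0 ≤ D.S V j p := Real.smoothTransition.nonneg _

lemma S_eq_zero {j : ℕ} {p : ℂ × E} (h : V p.2 ^ 2 ≤ D.Q j p.1) : D.S V j p = 0 := by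
  apply Real.smoothTransition.zero_of_nonpos
  apply div_nonpos_of_nonpos_of_nonneg
  · linarith
  · linarith [D.Q_succ j p.1]

lemma S_eq_one {j : ℕ} {p : ℂ × E} (h : D.Q (j + 1) p.1 ≤ V p.2 ^ 2) : D.S V j p = 1 := by
  apply Real.smoothTransition.one_of_one_le
  rw [one_le_div (by linarith [D.Q_succ j p.1])]
  linarith

lemma S_mono {j : ℕ} {x : ℂ} {w w' : E} (h0 : 0 ≤ V w) (h : V w ≤ V w') :
    D.S V j (x, w) ≤ D.S V j (x, w') := by
  apply Real.smoothTransition.monotone
  have h1 : V w ^ 2 ≤ V w' ^ 2 := pow_le_pow_left₀ h0 h 2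
  have h2 := D.Q_succ j x
  simp only
  apply div_le_div_of_nonneg_right _ (by linarith)
  linarith

/-- the radial factor -/
noncomputable def hfun (V : E → ℝ) (p : ℂ × E) : ℝ := 1 + ∑' j, D.S V j p

lemma hfun_eq {J : ℕ} {p : ℂ × E} (h : V p.2 ^ 2 ≤ D.Q J p.1) :
    D.hfun V p = 1 + ∑ j ∈ range J, D.S V j p := by
  unfold hfun
  rw [tsum_eq_sum]
  intro j hj
  apply D.S_eq_zero
  have h1 : J ≤ j := by
    by_contra hlt
    exact hj (Finset.mem_range.2 (not_le.1 hlt))
  exact h.trans ((D.Q_strictMono p.1).monotone h1)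

end norm

section real

variable {E : Type*} [NormedAddCommGroup E] [NormedSpace ℝ E] [FiniteDimensional ℝ E]
  {V : E → ℝ}

/-- A domain whose gauge has a smooth square and increases along rays is diffeomorphic to the
whole space. -/
theorem diffeoToWhole (hV : Gauge V) (hsm : ContDiff ℝ (⊤ : ℕ∞) fun w => V w ^ 2)
    (hray : ∀ (w : E) (t : ℝ), 0 ≤ t → t ≤ 1 → V (t • w) ≤ V w) :
    DiffeoToWhole (D.dom V) := by
  apply diffeo_of_radial (D.isOpen_dom hV) (h := D.hfun V)
  · -- smoothness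
    intro p hp
    obtain ⟨J, hJ⟩ := D.exists_Q_of_mem hV hp
    have hopen : {p' : ℂ × E | V p'.2 ^ 2 < D.Q J p'.1} ∈ 𝓝 p :=
      (isOpen_lt ((hV.cont.comp continuous_snd).pow 2)
        ((D.Q_contDiff J).continuous.comp continuous_fst)).mem_nhds hJ
    have heq : D.hfun V =ᶠ[𝓝 p] fun p' : ℂ × E => 1 + ∑ j ∈ range J, D.S V j p' := by
      filter_upwards [hopen] with p' hp'
      exact D.hfun_eq (le_of_lt hp')
    have hsm : ContDiff ℝ (⊤ : ℕ∞) fun p' : ℂ × E => 1 + ∑ j ∈ range J, D.S V j p' := by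
      apply contDiff_const.add
      apply ContDiff.sum
      intro j _
      unfold S
      apply Real.smoothTransition.contDiff.comp
      apply ContDiff.div
      · apply ContDiff.sub
        · exact hsm.comp contDiff_snd
        · exact (D.Q_contDiff j).comp contDiff_fst
      · exact ((D.Q_contDiff (j + 1)).comp contDiff_fst).sub ((D.Q_contDiff j).comp contDiff_fst)
      · intro p'
        have := D.Q_succ j p'.1
        linarith
    exact (hsm.contDiffAt.congr_of_eventuallyEq heq).contDiffWithinAt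
  · intro p _
    unfold hfun
    have : 0 ≤ ∑' j, D.S V j p := tsum_nonneg fun j => D.S_nonneg j p
    linarith
  · -- monotone along rays
    intro p hp t ht
    obtain ⟨J, hJ⟩ := D.exists_Q_of_mem hV hp
    have h1 : V (t • p.2) ≤ V p.2 := hray p.2 t ht.1 ht.2
    have h2 : V (p.1, t • p.2).2 ^ 2 < D.Q J (p.1, t • p.2).1 :=
      (pow_le_pow_left₀ (hV.nonneg _) h1 2).trans_lt hJ
    refine ⟨D.mem_dom_of_Q hV h2, ?_⟩
    rw [D.hfun_eq h2.le, D.hfun_eq hJ.le]
    gcongr with j _
    exact D.S_mono (hV.nonneg _) h1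
  · -- large values
    intro x v hv
    have hvpos : 0 < ‖v‖ := norm_pos_iff.2 hv
    have hex : ∀ n : ℕ, ∃ t : ℝ, 0 < t ∧ V (t • v) ^ 2 = D.Q n x := by
      intro n
      set T : ℝ := (1 + D.Q n x) / ‖v‖ with hT
      have hQ := D.Q_pos n x
      have hTpos : 0 < T := by positivity
      have hcont : ContinuousOn (fun t : ℝ => V (t • v) ^ 2) (Set.Icc 0 T) :=
        ((hV.cont.comp (continuous_id.smul continuous_const)).pow 2).continuousOn
      have hTv : D.Q n x ≤ V (T • v) ^ 2 := by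
        have h1 : 1 + D.Q n x ≤ V (T • v) := by
          refine le_trans (le_of_eq ?_) (hV.norm_le _)
          rw [norm_smul, Real.norm_eq_abs, abs_of_pos hTpos, hT, div_mul_cancel₀ _ hvpos.ne']
        nlinarith
      obtain ⟨t, ht, hteq⟩ := intermediate_value_Icc hTpos.le hcont
        (show D.Q n x ∈ Set.Icc _ _ from ⟨by simp [hV.zero, hQ.le], hTv⟩)
      simp only at hteq
      refine ⟨t, lt_of_le_of_ne ht.1 ?_, hteq⟩
      rintro rfl
      rw [zero_smul, hV.zero] at hteq
      simp at hteq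
      linarith
    choose t htpos htV using hex
    have hval : ∀ n : ℕ, ((n : ℝ) + 1) ≤ D.hfun V (x, t n • v) := by
      intro n
      rw [D.hfun_eq (J := n) (by simp only; rw [htV])]
      have : ∑ j ∈ range n, D.S V j (x, t n • v) = n := by
        rw [Finset.sum_congr rfl (g := fun _ => (1 : ℝ))]
        · simp
        · intro j hj
          apply D.S_eq_one
          simp only
          rw [htV]
          exact (D.Q_strictMono x).monotone (Finset.mem_range.1 hj)
      rw [this]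
      linarith
    obtain ⟨n, hn⟩ := exists_nat_ge (1 / t 0)
    refine ⟨t n, htpos n, ?_, ?_⟩
    · apply D.mem_dom_of_Q hV (j := n + 1)
      simp only
      rw [htV]
      exact D.Q_succ n x
    · have h0n : t 0 ≤ t n := by
        by_contra hlt
        push Not at hlt
        have hn0 : 0 < n := by
          rcases Nat.eq_zero_or_pos n with rfl | h
          · exact (lt_irrefl _ hlt).elim
          · exact h
        have h1 : V (t n • v) ≤ V (t 0 • v) := by
          have h2 := hray (t 0 • v) (t n / t 0) (div_nonneg (htpos n).le (htpos 0).le)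
            ((div_le_one (htpos 0)).2 hlt.le)
          rwa [smul_smul, div_mul_cancel₀ _ (htpos 0).ne'] at h2
        have h3 : D.Q n x ≤ D.Q 0 x := by
          rw [← htV n, ← htV 0]
          exact pow_le_pow_left₀ (hV.nonneg _) h1 2
        have h4 : D.Q 0 x < D.Q n x := D.Q_strictMono x hn0
        linarith
      have h1 : 1 ≤ t 0 * n := by
        rw [div_le_iff₀ (htpos 0)] at hn
        linarith
      have h2 := hval n
      have h3 := htpos 0
      have h4 : (0 : ℝ) ≤ n := Nat.cast_nonneg n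
      calc (1 : ℝ) ≤ t 0 * n := h1
        _ ≤ t n * n := mul_le_mul_of_nonneg_right h0n h4
        _ ≤ t n * D.hfun V (x, t n • v) := by
            apply mul_le_mul_of_nonneg_left _ (htpos n).le
            linarith
  · intro x
    exact D.mem_dom_zero hV x

/-- The domain is connected. -/
theorem isConnected_dom (hV : Gauge V) (hsm : ContDiff ℝ (⊤ : ℕ∞) fun w => V w ^ 2)
    (hray : ∀ (w : E) (t : ℝ), 0 ≤ t → t ≤ 1 → V (t • w) ≤ V w) :
    IsConnected (D.dom V) := by
  refine ⟨⟨(0, 0), D.mem_dom_zero hV 0⟩, ?_⟩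
  obtain ⟨Φ, Ψ, -, hΨ, hΨM, hΨΦ, -⟩ := D.diffeoToWhole hV hsm hray
  have h1 : D.dom V = Ψ '' univ := by
    apply Set.Subset.antisymm
    · intro p hp
      exact ⟨Φ p, mem_univ _, hΨΦ p hp⟩
    · rintro _ ⟨q, -, rfl⟩
      exact hΨM q
  rw [h1]
  exact isPreconnected_univ.image _ hΨ.continuous.continuousOn

end real

end Data

end H73SK
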