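import Mathlib
import Pool.Agent.H73.SK.Weight

/-! Existence of point masses with pairwise different masses, and scaling. -/

open Filter Topology Set Finset

namespace H73SK

/-- scaling of the masses -/
noncomputable def Data.scale (D : Data) (t : ℝ) (ht : 0 < t) : Data where
  z := D.z
  c k := t * D.c k
  inj := D.inj
  dense := D.dense
  pos k := mul_pos ht (D.pos k)
  summable := by
    have h := D.summable.mul_left t
    refine h.congr fun k => ?_
    ring

lemma Data.scale_mass (D : Data) (t : ℝ) (ht : 0 < t) : (D.scale t ht).mass = t * D.mass := by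
  unfold Data.mass Data.scale
  exact tsum_mul_left

/-- a dense injective sequence in the complex plane -/
lemma exists_dense_seq : ∃ z : ℕ → ℂ, Function.Injective z ∧ DenseRange z := by
  let g : ℚ × ℚ → ℂ := fun q => Complex.equivRealProdCLM.symm ((q.1 : ℝ), (q.2 : ℝ))
  have hg : Function.Injective g := by
    intro p q h
    have h1 := Complex.equivRealProdCLM.symm.injective h
    rw [Prod.mk.injEq] at h1
    exact Prod.ext (by exact_mod_cast h1.1) (by exact_mod_cast h1.2)
  have hd : DenseRange g := by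
    have h1 : DenseRange (Prod.map (fun q : ℚ => (q : ℝ)) fun q : ℚ => (q : ℝ)) :=
      Rat.denseRange_cast.prodMap Rat.denseRange_cast
    exact Complex.equivRealProdCLM.symm.surjective.denseRange.comp h1
      Complex.equivRealProdCLM.symm.continuous
  let e : ℕ ≃ ℚ × ℚ := (Denumerable.eqv (ℚ × ℚ)).symm
  exact ⟨g ∘ e, hg.comp e.injective, hd.comp e.surjective.denseRange (by fun_prop)⟩

/-- point masses decreasing faster than `2 ^ (-k)` -/
theorem exists_data : ∃ D : Data, ∀ k, 2 * D.c (k + 1) < D.c k := by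
  obtain ⟨z, hz, hd⟩ := exists_dense_seq
  set l : ℕ → ℝ := fun k => 1 + Real.posLog ‖z k‖ with hl
  have hlpos : ∀ k, 0 < l k := fun k => by
    have := Real.posLog_nonneg (x := ‖z k‖)
    rw [hl]
    positivity
  set L : ℕ → ℝ := fun k => ∑ j ∈ range (k + 1), l j with hL
  have hLl : ∀ k, l k ≤ L k := fun k =>
    single_le_sum (fun j _ => (hlpos j).le) (self_mem_range_succ k)
  have hLpos : ∀ k, 0 < L k := fun k => (hlpos k).trans_le (hLl k)
  have hLmono : ∀ k, L k ≤ L (k + 1) := by
    intro k
    rw [hL]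
    simp only
    rw [sum_range_succ _ (k + 1)]
    linarith [hlpos (k + 1)]
  set c : ℕ → ℝ := fun k => (1 / 4 : ℝ) ^ k / L k with hc
  have hcpos : ∀ k, 0 < c k := fun k => div_pos (by positivity) (hLpos k)
  refine ⟨⟨z, c, hz, hd, hcpos, ?_⟩, ?_⟩
  · refine Summable.of_nonneg_of_le (fun k => mul_nonneg (hcpos k).le (hlpos k).le) (fun k => ?_)
      (summable_geometric_of_lt_one (by norm_num : (0 : ℝ) ≤ 1 / 4) (by norm_num))
    rw [hc]
    simp only
    rw [div_mul_eq_mul_div, div_le_iff₀ (hLpos k)]
    exact mul_le_mul_of_nonneg_left (hLl k) (by positivity)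
  · intro k
    change 2 * ((1 / 4 : ℝ) ^ (k + 1) / L (k + 1)) < (1 / 4 : ℝ) ^ k / L k
    have h1 : (0 : ℝ) < (1 / 4) ^ k := by positivity
    have h2 : 2 * ((1 / 4 : ℝ) ^ (k + 1) / L (k + 1)) = ((1 / 4 : ℝ) ^ k / 2) / L (k + 1) := by
      rw [pow_succ]
      ring
    rw [h2]
    calc ((1 / 4 : ℝ) ^ k / 2) / L (k + 1) ≤ ((1 / 4 : ℝ) ^ k / 2) / L k :=
          div_le_div_of_nonneg_left (by positivity) (hLpos k) (hLmono k)
      _ < (1 / 4 : ℝ) ^ k / L k := by
          apply div_lt_div_of_pos_right _ (hLpos k)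
          linarith

/-- variation of the masses -/
noncomputable def Data.vary (D : Data) (t : ℕ → ℝ) (ht : ∀ k, t k ∈ Set.Icc (0 : ℝ) 1) :
    Data where
  z := D.z
  c k := D.c k * (1 + t k)
  inj := D.inj
  dense := D.dense
  pos k := mul_pos (D.pos k) (by linarith [(ht k).1])
  summable := by
    have h := D.summable.mul_left 2
    refine Summable.of_nonneg_of_le (fun k => ?_) (fun k => ?_) h
    · have h1 := (D.pos k).le
      have h2 := Real.posLog_nonneg (x := ‖D.z k‖)
      have h3 := (ht k).1
      positivity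
    · have h1 := (D.pos k).le
      have h2 := Real.posLog_nonneg (x := ‖D.z k‖)
      have h3 := (ht k).2
      have h4 : 0 ≤ D.c k * (1 + Real.posLog ‖D.z k‖) := by positivity
      nlinarith

lemma Data.vary_strictAnti {D : Data} (hD : ∀ k, 2 * D.c (k + 1) < D.c k) {t : ℕ → ℝ}
    (ht : ∀ k, t k ∈ Set.Icc (0 : ℝ) 1) : StrictAnti (D.vary t ht).c := by
  apply strictAnti_nat_of_succ_lt
  intro k
  change D.c (k + 1) * (1 + t (k + 1)) < D.c k * (1 + t k)
  have h1 := D.pos (k + 1)
  have h2 := D.pos k
  have h3 := (ht (k + 1)).2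
  have h4 := (ht k).1
  have h5 := hD k
  nlinarith

/-- a permutation matching two strictly decreasing sequences is the identity -/
lemma perm_eq_id {a b : ℕ → ℝ} (ha : StrictAnti a) (hb : StrictAnti b) {π : ℕ ≃ ℕ}
    (h : ∀ k, a (π k) = b k) (k : ℕ) : π k = k := by
  have hmono : StrictMono π := by
    intro i j hij
    apply ha.lt_iff_gt.1
    rw [h, h]
    exact hb hij
  have hmono' : StrictMono π.symm := by
    intro i j hij
    apply hb.lt_iff_gt.1
    rw [← h, ← h, π.apply_symm_apply, π.apply_symm_apply]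
    exact ha hij
  apply le_antisymm
  · have h1 := hmono'.le_apply (x := π k)
    rwa [π.symm_apply_apply] at h1
  · exact hmono.le_apply

end H73SK
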