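import Mathlib
import Pool.Agent.H73.SK.Masses
import Pool.Agent.H73.SK.Quad

/-! Gauges of quadratic growth: biholomorphic maps are linear in the fibre variable. -/

open Filter Topology Set Metric

namespace H73SK

section

variable {F : Type*} [NormedAddCommGroup F] [NormedSpace ℂ F]

/-- second order estimate -/
lemma second_order' {φ : ℂ → F} {ρ M : ℝ} (hρ : 0 < ρ)
    (hφ : DifferentiableOn ℂ φ (ball 0 ρ))
    (hb : ∀ ζ ∈ ball (0 : ℂ) ρ, ‖φ ζ‖ ≤ M) {ζ : ℂ} (hζ : ζ ∈ ball (0 : ℂ) ρ) :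
    ‖φ ζ - φ 0 - ζ • deriv φ 0‖ ≤ 4 * M * (‖ζ‖ / ρ) ^ 2 := by
  have hnh : ball (0 : ℂ) ρ ∈ 𝓝 (0 : ℂ) := ball_mem_nhds _ hρ
  have hda : DifferentiableAt ℂ φ 0 := hφ.differentiableAt hnh
  have h0 : ‖φ 0‖ ≤ M := hb 0 (mem_ball_self hρ)
  have hderiv : ‖deriv φ 0‖ ≤ 2 * M / ρ := by
    apply Complex.norm_deriv_le_div_of_mapsTo_ball hφ _ hρ
    intro t ht
    rw [mem_closedBall, dist_eq_norm]
    exact (norm_sub_le _ _).trans (by linarith [hb t ht])
  set g : ℂ → F := fun ζ => φ ζ - ζ • deriv φ 0 with hg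
  have hgd : DifferentiableOn ℂ g (ball 0 ρ) := by
    apply hφ.sub
    fun_prop
  have hg0 : g 0 = φ 0 := by simp [hg]
  have hmaps : MapsTo g (ball 0 ρ) (closedBall (g 0) (4 * M)) := by
    intro t ht
    rw [mem_closedBall, dist_eq_norm, hg0]
    have h1 : ‖t • deriv φ 0‖ ≤ 2 * M := by
      rw [norm_smul]
      rw [mem_ball_zero_iff] at ht
      calc ‖t‖ * ‖deriv φ 0‖ ≤ ρ * (2 * M / ρ) :=
            mul_le_mul ht.le hderiv (norm_nonneg _) hρ.le
        _ = 2 * M := by field_simp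
    have h2 : g t - φ 0 = φ t - φ 0 - t • deriv φ 0 := by simp only [hg]; abel
    rw [h2]
    have h3 := norm_sub_le (φ t - φ 0) (t • deriv φ 0)
    have h4 := norm_sub_le (φ t) (φ 0)
    linarith [hb t ht]
  have hlo : (fun ζ => g ζ - g 0) =o[𝓝 0] fun ζ => ‖ζ - 0‖ ^ 1 := by
    have h5 := hda.hasDerivAt.isLittleO
    simp only [sub_zero, pow_one] at h5 ⊢
    refine (h5.norm_right).congr_left fun t => ?_
    simp only [hg, zero_smul, sub_zero]
    abel
  have h6 := Complex.dist_le_mul_div_pow_of_mapsTo_ball_of_isLittleO (n := 1) hgd hmaps hlo hζ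
  rw [dist_eq_norm, dist_zero_right, hg0] at h6
  have h7 : g ζ - φ 0 = φ ζ - φ 0 - ζ • deriv φ 0 := by simp only [hg]; abel
  rw [h7] at h6
  exact h6

end

/-- the weight is small near the points with positive mass -/
lemma Data.weight_small (D : Data) (k : ℕ) {δ : ℝ} (hδ : 0 < δ) :
    ∀ᶠ x in 𝓝 (D.z k), D.weight x < δ := by
  set ρ : ℝ := ‖D.z k‖ + 1 with hρ
  have h0 : D.U ρ (k + 1) (D.z k) = 0 := by
    unfold U P
    rw [Finset.prod_eq_zero (Finset.mem_range.2 (Nat.lt_succ_self k)), zero_mul]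
    rw [sub_self, norm_zero, Real.zero_rpow (D.pos k).ne']
  have h1 : ∀ᶠ x in 𝓝 (D.z k), D.U ρ (k + 1) x < δ := by
    apply (D.U_continuous ρ (k + 1)).continuousAt.eventually_lt_const
    rw [h0]; exact hδ
  have h2 : ∀ᶠ x in 𝓝 (D.z k), ‖x‖ < ρ := by
    apply continuous_norm.continuousAt.eventually_lt_const
    simp [hρ]
  filter_upwards [h1, h2] with x hx1 hx2
  exact (D.weight_le_U hx2.le _).trans_lt hx1

namespace Pair

variable {E : Type*} [NormedAddCommGroup E] [NormedSpace ℂ E] {D D' : Data}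
  {V V' : E → ℝ} {F G : ℂ × E → ℂ × E} {α β : ℂ}

/-- the vertical curve through `(x, 0)` in direction `w` is holomorphic at the parameters which
stay in the domain -/
lemma vertical_diff (P : Pair D D' V V' F G) {x : ℂ} {w : E} {ζ : ℂ}
    (h : ((x, ζ • w) : ℂ × E) ∈ D.dom V) :
    DifferentiableAt ℂ (fun ζ : ℂ => (F (x, ζ • w)).2) ζ := by
  have h1 : DifferentiableAt ℂ F (x, ζ • w) := P.hF.differentiableAt ((D.isOpen_dom P.hV).mem_nhds h)
  have h2 : DifferentiableAt ℂ (fun ζ : ℂ => ((x, ζ • w) : ℂ × E)) ζ := by fun_prop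
  exact (h1.comp ζ h2).snd

/-- the vertical derivative and the vertical derivative of the inverse -/
lemma vertical_inverse [Nontrivial E] (P : Pair D D' V V' F G)
    (hb : ∀ p ∈ D.dom V, (F p).1 = α * p.1 + β) (x : ℂ) (w : E) :
    deriv (fun ζ : ℂ => (G (α * x + β, ζ • deriv (fun ζ : ℂ => (F (x, ζ • w)).2) 0)).2) 0 = w := by
  set y : E := deriv (fun ζ : ℂ => (F (x, ζ • w)).2) 0 with hy
  have hx0 : ((x, (0 : ℂ) • w) : ℂ × E) ∈ D.dom V := by
    rw [zero_smul]; exact D.mem_dom_zero P.hV x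
  have hφ : HasDerivAt (fun ζ : ℂ => (F (x, ζ • w)).2) y 0 := (P.vertical_diff hx0).hasDerivAt
  have hφ0 : (F (x, (0 : ℂ) • w)).2 = 0 := by rw [zero_smul]; exact P.snd_zero x
  have hGd : DifferentiableAt ℂ (fun v : E => (G (α * x + β, v)).2) 0 := by
    have h1 : DifferentiableAt ℂ G (α * x + β, (0 : E)) :=
      P.hG.differentiableAt ((D'.isOpen_dom P.hV').mem_nhds (D'.mem_dom_zero P.hV' _))
    have h2 : DifferentiableAt ℂ (fun v : E => ((α * x + β, v) : ℂ × E)) 0 := by fun_prop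
    exact (h1.comp (0 : E) h2).snd
  set B : E →L[ℂ] E := fderiv ℂ (fun v : E => (G (α * x + β, v)).2) 0 with hB
  have hBd : HasFDerivAt (fun v : E => (G (α * x + β, v)).2) B 0 := hGd.hasFDerivAt
  -- derivative of G along the image curve
  have h3 : HasDerivAt (fun ζ : ℂ => (G (α * x + β, (F (x, ζ • w)).2)).2) (B y) 0 := by
    have h4 : HasFDerivAt (fun v : E => (G (α * x + β, v)).2) B (F (x, (0 : ℂ) • w)).2 := by
      rw [hφ0]; exact hBd
    exact h4.comp_hasDerivAt (0 : ℂ) hφ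
  have h5 : HasDerivAt (fun ζ : ℂ => (G (α * x + β, (F (x, ζ • w)).2)).2) w 0 := by
    have h6 : HasDerivAt (fun ζ : ℂ => ζ • w) w 0 := by
      simpa using (hasDerivAt_id (0 : ℂ)).smul_const w
    apply h6.congr_of_eventuallyEq
    have h7 : ∀ᶠ ζ : ℂ in 𝓝 0, ((x, ζ • w) : ℂ × E) ∈ D.dom V := by
      have hc : ContinuousAt (fun ζ : ℂ => ((x, ζ • w) : ℂ × E)) 0 := by fun_prop
      exact hc ((D.isOpen_dom P.hV).mem_nhds hx0)
    filter_upwards [h7] with ζ hζ
    have h8 : F (x, ζ • w) = (α * x + β, (F (x, ζ • w)).2) := Prod.ext (hb _ hζ) rfl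
    rw [← h8, P.gf _ hζ]
  have h9 : B y = w := h3.unique h5
  have h10 : HasDerivAt (fun ζ : ℂ => (G (α * x + β, ζ • y)).2) (B y) 0 := by
    have h11 : HasDerivAt (fun ζ : ℂ => ζ • y) y 0 := by
      simpa using (hasDerivAt_id (0 : ℂ)).smul_const y
    have h12 : HasFDerivAt (fun v : E => (G (α * x + β, v)).2) B ((0 : ℂ) • y) := by
      rw [zero_smul]; exact hBd
    exact h12.comp_hasDerivAt (0 : ℂ) h11
  rw [h10.deriv, h9]

/-- comparison of the weights near the points with positive mass -/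
lemma growth_cmp [Nontrivial E] (P : Pair D D' V V' F G) (hα : α ≠ 0)
    (hb : ∀ p ∈ D.dom V, (F p).1 = α * p.1 + β) (hQ : QuadGrowth V) (hQ' : QuadGrowth V')
    (k : ℕ) : ∃ C3 : ℝ, 0 < C3 ∧ ∀ᶠ x in 𝓝 (D.z k), 0 < D.weight x →
      D.weight x ≤ C3 * D'.weight (α * x + β) := by
  obtain ⟨C1, hC1, C2, hC2, hVg⟩ := hQ
  obtain ⟨C1', hC1', C2', hC2', hVg'⟩ := hQ'
  obtain ⟨w0, hw0⟩ := exists_ne (0 : E)
  have hw0pos : 0 < ‖w0‖ := norm_pos_iff.2 hw0
  set a := D.z k with ha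
  obtain ⟨ε0, hε0, hball⟩ := Metric.isOpen_iff.1 (D.isOpen_dom P.hV) (a, 0) (D.mem_dom_zero P.hV a)
  set ε : ℝ := ε0 / 2 with hε
  have hεpos : 0 < ε := by positivity
  set ρ0 : ℝ := ε / ‖w0‖ with hρ0
  have hρ0pos : 0 < ρ0 := by positivity
  have hmem : ∀ x, ‖x - a‖ ≤ ε → ∀ ζ : ℂ, ‖ζ‖ ≤ ρ0 → ((x, ζ • w0) : ℂ × E) ∈ D.dom V := by
    intro x hx ζ hζ
    apply hball
    have h1 : ‖ζ • w0‖ ≤ ε := by
      rw [norm_smul]
      calc ‖ζ‖ * ‖w0‖ ≤ ρ0 * ‖w0‖ := mul_le_mul_of_nonneg_right hζ hw0pos.le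
        _ = ε := by rw [hρ0]; field_simp
    rw [mem_ball, Prod.dist_eq, dist_eq_norm, dist_zero_right]
    apply max_lt <;> linarith
  obtain ⟨CK, hCK⟩ : ∃ C, ∀ q ∈ closedBall a ε ×ˢ closedBall (0 : ℂ) ρ0,
      ‖(F (q.1, q.2 • w0)).2‖ ≤ C := by
    apply ((isCompact_closedBall a ε).prod (isCompact_closedBall (0 : ℂ) ρ0)).exists_bound_of_continuousOn
    have h1 : ContinuousOn (fun p => (F p).2) (D.dom V) := P.hF.continuousOn.snd
    apply h1.comp (f := fun q : ℂ × ℂ => ((q.1, q.2 • w0) : ℂ × E)) (by fun_prop)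
    rintro q ⟨hq1, hq2⟩
    rw [mem_closedBall, dist_eq_norm] at hq1
    rw [mem_closedBall_zero_iff] at hq2
    exact hmem _ hq1 _ hq2
  set Cy : ℝ := |CK| / ρ0 with hCy
  have hCy0 : 0 ≤ Cy := by positivity
  -- bound for the vertical derivative
  have hy : ∀ x, ‖x - a‖ ≤ ε → ‖deriv (fun ζ : ℂ => (F (x, ζ • w0)).2) 0‖ ≤ Cy := by
    intro x hx
    apply Complex.norm_deriv_le_div_of_mapsTo_ball (R₁ := ρ0) _ _ hρ0pos
    · intro ζ hζ
      rw [mem_ball_zero_iff] at hζ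
      exact (P.vertical_diff (hmem x hx ζ hζ.le)).differentiableWithinAt
    · intro ζ hζ
      rw [mem_ball_zero_iff] at hζ
      simp only [zero_smul]
      rw [P.snd_zero x, mem_closedBall_zero_iff]
      exact (hCK (x, ζ) ⟨by rwa [mem_closedBall, dist_eq_norm],
        by rw [mem_closedBall_zero_iff]; exact hζ.le⟩).trans (le_abs_self _)
  set C4 : ℝ := Real.sqrt C2' * (1 + Cy * Real.sqrt C1 / ‖w0‖) with hC4
  have hC4pos : 0 < C4 := by positivity
  refine ⟨C4 ^ 2, by positivity, ?_⟩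
  have hnear : ∀ᶠ x in 𝓝 a, ‖x - a‖ < ε := by
    have hc : ContinuousAt (fun x : ℂ => ‖x - a‖) a := by fun_prop
    apply hc.eventually_lt_const
    simpa using hεpos
  filter_upwards [hnear, D.weight_small k one_pos] with x hxε hxW hWpos
  have hW'pos := P.weight_pos_image hα hb hWpos
  set W := D.weight x with hW
  set W' := D'.weight (α * x + β) with hW'
  set y : E := deriv (fun ζ : ℂ => (F (x, ζ • w0)).2) 0 with hydef
  have hyle : ‖y‖ ≤ Cy := hy x hxε.le
  have hinv := P.vertical_inverse hb x w0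
  rw [← hydef] at hinv
  have hy0 : y ≠ 0 := by
    intro h0
    rw [h0] at hinv
    simp only [smul_zero] at hinv
    rw [deriv_const] at hinv
    exact hw0 hinv.symm
  have hypos : 0 < ‖y‖ := norm_pos_iff.2 hy0
  -- main estimate
  have hsq1 : Real.sqrt (1 / W) ^ 2 = 1 / W := Real.sq_sqrt (by positivity)
  have hmain : ‖w0‖ * (Real.sqrt (1 / (W' * C2')) - 1) ≤ ‖y‖ * Real.sqrt (C1 / W) := by
    by_cases hcase : Real.sqrt (1 / (W' * C2')) ≤ 1
    · have h1 : ‖w0‖ * (Real.sqrt (1 / (W' * C2')) - 1) ≤ 0 := by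
        apply mul_nonpos_of_nonneg_of_nonpos hw0pos.le
        linarith
      exact h1.trans (by positivity)
    push Not at hcase
    set r' : ℝ := Real.sqrt (1 / (W' * C2')) - 1 with hr'
    have hr'pos : 0 < r' := by linarith
    have hmem' : ∀ v : E, ‖v‖ < r' → ((α * x + β, v) : ℂ × E) ∈ D'.dom V' := by
      intro v hv
      rw [D'.mem_dom]
      simp only
      have h1 : V' v ≤ C2' * (1 + ‖v‖) ^ 2 := (hVg' v).2
      have h2 : (1 + ‖v‖) ^ 2 < 1 / (W' * C2') := by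
        have h3 : 1 + ‖v‖ < Real.sqrt (1 / (W' * C2')) := by linarith
        have h4 : (1 + ‖v‖) ^ 2 < Real.sqrt (1 / (W' * C2')) ^ 2 :=
          pow_lt_pow_left₀ h3 (by positivity) two_ne_zero
        rwa [Real.sq_sqrt (by positivity)] at h4
      calc W' * V' v ≤ W' * (C2' * (1 + ‖v‖) ^ 2) := mul_le_mul_of_nonneg_left h1 hW'pos.le
        _ < W' * (C2' * (1 / (W' * C2'))) := by
            apply mul_lt_mul_of_pos_left _ hW'pos
            exact mul_lt_mul_of_pos_left h2 hC2'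
        _ = 1 := by field_simp
    have hsmall : ∀ ζ ∈ ball (0 : ℂ) (r' / ‖y‖), ‖ζ • y‖ < r' := by
      intro ζ hζ
      rw [mem_ball_zero_iff, lt_div_iff₀ hypos] at hζ
      rwa [norm_smul]
    have hder := Complex.norm_deriv_le_div_of_mapsTo_ball (R₁ := r' / ‖y‖)
      (R₂ := Real.sqrt (C1 / W)) (f := fun ζ : ℂ => (G (α * x + β, ζ • y)).2) (c := 0)
      (by
        intro ζ hζ
        exact (P.symm.vertical_diff (hmem' _ (hsmall ζ hζ))).differentiableWithinAt)
      (by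
        intro ζ hζ
        simp only [zero_smul]
        rw [P.symm.snd_zero, mem_closedBall_zero_iff]
        have hq := hmem' _ (hsmall ζ hζ)
        have h1 := P.mG hq
        have h2 : (G (α * x + β, ζ • y)).1 = x := by
          rw [P.base_symm hα hb _ hq]
          field_simp
          ring
        rw [D.mem_dom, h2] at h1
        apply Real.le_sqrt_of_sq_le
        have h3 := (hVg (G (α * x + β, ζ • y)).2).1
        rw [le_div_iff₀ hWpos]
        have h4 : C1 * V (G (α * x + β, ζ • y)).2 * W ≤ C1 := by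
          have : W * V (G (α * x + β, ζ • y)).2 ≤ 1 := h1.le
          nlinarith
        nlinarith)
      (by positivity)
    rw [hinv, le_div_iff₀ (by positivity), mul_div_assoc', div_le_iff₀ hypos] at hder
    linarith
  -- conclusion
  have hR1 : 1 ≤ Real.sqrt (1 / W) := by
    rw [Real.one_le_sqrt]
    rw [le_div_iff₀ hWpos]
    linarith
  have hs1 : Real.sqrt (C1 / W) = Real.sqrt C1 * Real.sqrt (1 / W) := by
    rw [← Real.sqrt_mul hC1.le]
    congr 1
    ring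
  have hs2 : Real.sqrt (1 / W') = Real.sqrt C2' * Real.sqrt (1 / (W' * C2')) := by
    rw [← Real.sqrt_mul hC2'.le]
    congr 1
    field_simp
  have h5 : Real.sqrt (1 / W') ≤ C4 * Real.sqrt (1 / W) := by
    rw [hs2, hC4, mul_assoc]
    apply mul_le_mul_of_nonneg_left _ (Real.sqrt_nonneg _)
    rw [hs1] at hmain
    have h6 : ‖w0‖ * (Real.sqrt (1 / (W' * C2')) - 1) ≤
        Cy * (Real.sqrt C1 * Real.sqrt (1 / W)) :=
      hmain.trans (mul_le_mul_of_nonneg_right hyle (by positivity))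
    have h7 : Real.sqrt (1 / (W' * C2')) - 1 ≤ Cy * (Real.sqrt C1 * Real.sqrt (1 / W)) / ‖w0‖ := by
      rw [le_div_iff₀ hw0pos]
      linarith
    have h8 : (1 + Cy * Real.sqrt C1 / ‖w0‖) * Real.sqrt (1 / W) =
        Real.sqrt (1 / W) + Cy * (Real.sqrt C1 * Real.sqrt (1 / W)) / ‖w0‖ := by ring
    rw [h8]
    linarith
  have h9 : 1 / W' ≤ C4 ^ 2 * (1 / W) := by
    have h10 := pow_le_pow_left₀ (Real.sqrt_nonneg _) h5 2
    rwa [Real.sq_sqrt (by positivity), mul_pow, hsq1] at h10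
  rw [mul_one_div, div_le_div_iff₀ hW'pos hWpos, one_mul] at h9
  exact h9

end Pair

end H73SK
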