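import Mathlib
import Pool.Agent.H73.SK.Weight
import Pool.Agent.H73.SK.Defs

/-! `D.dom E` is holomorphically convex. -/

open Filter Topology Set Metric Finset

namespace H73SK

/-- rational approximation of the exponents, the limit form -/
lemma approx_exponents {N : ℕ} {b : ℕ → ℝ} {c : ℕ → ℝ} (hb0 : ∀ k, 0 ≤ b k)
    (hc : ∀ k, 0 < c k) {t s : ℝ} (ht : 0 ≤ t) (hs : 0 ≤ s)
    (h : ∀ m : ℕ, 0 < m → t ^ m * ∏ k ∈ range N, b k ^ ⌈c k * m⌉₊ ≤ s ^ m) :
    t * ∏ k ∈ range N, b k ^ c k ≤ s := by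
  have h1 : ∀ m : ℕ, 0 < m → t * ∏ k ∈ range N, b k ^ ((⌈c k * m⌉₊ : ℝ) / m) ≤ s := by
    intro m hm
    have hm' : (m : ℝ) ≠ 0 := by exact_mod_cast hm.ne'
    have h2 := h m hm
    have h3 : (t * ∏ k ∈ range N, b k ^ ((⌈c k * m⌉₊ : ℝ) / m)) ^ m
        = t ^ m * ∏ k ∈ range N, b k ^ ⌈c k * m⌉₊ := by
      rw [mul_pow, ← Finset.prod_pow]
      congr 1
      apply Finset.prod_congr rfl
      intro k _
      rw [← Real.rpow_natCast (b k ^ _) m, ← Real.rpow_mul (hb0 k), div_mul_cancel₀ _ hm',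
        Real.rpow_natCast]
    rw [← h3] at h2
    exact (pow_le_pow_iff_left₀ (mul_nonneg ht (Finset.prod_nonneg fun k _ =>
      Real.rpow_nonneg (hb0 k) _)) hs hm.ne').1 h2
  have h4 : Tendsto (fun m : ℕ => t * ∏ k ∈ range N, b k ^ ((⌈c k * m⌉₊ : ℝ) / m)) atTop
      (𝓝 (t * ∏ k ∈ range N, b k ^ c k)) := by
    apply Tendsto.const_mul
    apply tendsto_finsetProd
    intro k _
    have h5 : Tendsto (fun m : ℕ => (⌈c k * m⌉₊ : ℝ) / m) atTop (𝓝 (c k)) :=
      (tendsto_nat_ceil_mul_div_atTop (hc k).le).comp tendsto_natCast_atTop_atTop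
    exact ((Real.continuousAt_const_rpow' (hc k).ne').tendsto).comp h5
  refine le_of_tendsto h4 ?_
  filter_upwards [eventually_gt_atTop 0] with m hm
  exact h1 m hm

namespace Data

variable (D : Data) {E E' : Type*} [NormedAddCommGroup E] [NormedSpace ℂ E]
  [FiniteDimensional ℂ E] [NormedAddCommGroup E'] [NormedSpace ℂ E'] {Θ : E → E'}

theorem isCompact_holHull (hΘ : Differentiable ℂ Θ) (hV : Gauge fun w => ‖Θ w‖)
    (K : Set (ℂ × E)) (hKM : K ⊆ D.dom fun w => ‖Θ w‖) (hK : IsCompact K) :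
    IsCompact (holHull (D.dom fun w => ‖Θ w‖) K) := by
  rcases K.eq_empty_or_nonempty with rfl | hne
  · have : holHull (D.dom fun w => ‖Θ w‖) (∅ : Set (ℂ × E)) = ∅ := by
      ext p
      simp only [holHull, mem_ofPred_eq, mem_empty_iff_false, iff_false, not_and, not_forall]
      intro _
      refine ⟨fun _ => 0, differentiableOn_const _, -1, by simp, by norm_num⟩
    rw [this]
    exact isCompact_empty
  -- bounds on K
  obtain ⟨p0, hp0, hp0max⟩ := hK.exists_isMaxOn hne (continuous_fst.norm.continuousOn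
    (s := K) : ContinuousOn (fun p : ℂ × E => ‖p.1‖) K)
  obtain ⟨p1, hp1, hp1max⟩ := hK.exists_isMaxOn hne (continuous_snd.norm.continuousOn
    (s := K) : ContinuousOn (fun p : ℂ × E => ‖p.2‖) K)
  set ρ := ‖p0.1‖ with hρ
  set B := ‖p1.2‖ with hB
  have hKρ : ∀ p ∈ K, ‖p.1‖ ≤ ρ := fun p hp => hp0max hp
  have hKB : ∀ p ∈ K, ‖p.2‖ ≤ B := fun p hp => hp1max hp
  have hρ0 : 0 ≤ ρ := norm_nonneg _
  obtain ⟨N, hN⟩ := D.exists_U_lt_of_compact hV hK hKM hKρ
  have hcU : Continuous fun q : ℂ × E => D.U ρ N q.1 * ‖Θ q.2‖ := D.continuous_UV hV ρ N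
  obtain ⟨p2, hp2, hp2max⟩ := hK.exists_isMaxOn hne hcU.continuousOn
  set s := D.U ρ N p2.1 * ‖Θ p2.2‖ with hs
  have hs1 : s < 1 := hN p2 hp2
  have hKs : ∀ p ∈ K, D.U ρ N p.1 * ‖Θ p.2‖ ≤ s := fun p hp => hp2max hp
  have hs0 : 0 ≤ s := mul_nonneg (D.U_nonneg _ _ _) (norm_nonneg _)
  -- the compact set containing the hull
  set S : Set (ℂ × E) := {p | ‖p.1‖ ≤ ρ ∧ ‖p.2‖ ≤ B ∧ D.U ρ N p.1 * ‖Θ p.2‖ ≤ s} with hSdef
  have hSclosed : IsClosed S := by
    apply IsClosed.and (isClosed_le continuous_fst.norm continuous_const)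
    exact IsClosed.and (isClosed_le continuous_snd.norm continuous_const)
      (isClosed_le hcU continuous_const)
  have hSbdd : S ⊆ closedBall 0 ρ ×ˢ closedBall 0 B := by
    rintro ⟨x, w⟩ ⟨h1, h2, -⟩
    exact ⟨by simpa using h1, by simpa using h2⟩
  have : ProperSpace E := FiniteDimensional.proper ℂ E
  have hScomp : IsCompact S :=
    ((isCompact_closedBall _ _).prod (isCompact_closedBall _ _)).of_isClosed_subset hSclosed hSbdd
  have hSD : S ⊆ D.dom fun w => ‖Θ w‖ := by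
    rintro p ⟨h1, -, h3⟩
    exact D.mem_dom_of_U hV h1 (h3.trans_lt hs1)
  -- the hull is contained in S
  have hhull : holHull (D.dom fun w => ‖Θ w‖) K ⊆ S := by
    rintro p ⟨hpM, hp⟩
    have hx : ‖p.1‖ ≤ ρ := hp (fun q => q.1) differentiable_fst.differentiableOn ρ hKρ
    have hw : ‖p.2‖ ≤ B := by
      obtain ⟨ℓ, hℓ1, hℓ2⟩ := exists_dual_vector'' ℂ p.2
      have hℓle : ∀ w : E, ‖ℓ w‖ ≤ ‖w‖ := fun w =>
        (ℓ.le_opNorm w).trans (by nlinarith [norm_nonneg w])
      have hℓp : ‖ℓ p.2‖ = ‖p.2‖ := by rw [hℓ2]; simp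
      have := hp (fun q => ℓ q.2) (by
        apply Differentiable.differentiableOn
        exact ℓ.differentiable.comp differentiable_snd) B
        (fun q hq => (hℓle _).trans (hKB q hq))
      rwa [hℓp] at this
    obtain ⟨ℓ, hℓ1, hℓ2⟩ := exists_dual_vector'' ℂ (Θ p.2)
    have hℓle : ∀ w : E', ‖ℓ w‖ ≤ ‖w‖ := fun w =>
      (ℓ.le_opNorm w).trans (by nlinarith [norm_nonneg w])
    have hℓp : ‖ℓ (Θ p.2)‖ = ‖Θ p.2‖ := by rw [hℓ2]; simp
    refine ⟨hx, hw, ?_⟩
    -- normalising constant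
    set B' : ℝ := ρ + ∑ k ∈ range N, ‖D.z k‖ + 1 with hB'
    have hB'pos : 0 < B' := by
      have : 0 ≤ ∑ k ∈ range N, ‖D.z k‖ := Finset.sum_nonneg fun _ _ => norm_nonneg _
      linarith
    have hB'le : ∀ x : ℂ, ‖x‖ ≤ ρ → ∀ k ∈ range N, ‖x - D.z k‖ / B' ≤ 1 := by
      intro x hx k hk
      rw [div_le_one hB'pos]
      have h1 : ‖D.z k‖ ≤ ∑ k ∈ range N, ‖D.z k‖ :=
        Finset.single_le_sum (f := fun k => ‖D.z k‖) (fun _ _ => norm_nonneg _) hk
      have := norm_sub_le x (D.z k)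
      linarith
    set b : ℂ → ℕ → ℝ := fun x k => ‖x - D.z k‖ / B' with hb
    have hb0 : ∀ x k, 0 ≤ b x k := fun x k => div_nonneg (norm_nonneg _) hB'pos.le
    -- relation with U
    set Q : ℝ := ∏ k ∈ range N, B' ^ D.c k with hQ
    have hQpos : 0 < Q := Finset.prod_pos fun k _ => Real.rpow_pos_of_pos hB'pos _
    have hprod : ∀ x : ℂ, D.U ρ N x = (∏ k ∈ range N, b x k ^ D.c k) * (Q * Real.exp (D.T ρ N)) := by
      intro x
      unfold U P
      rw [← mul_assoc, hQ, ← Finset.prod_mul_distrib]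
      congr 1
      apply Finset.prod_congr rfl
      intro k _
      rw [hb, ← Real.mul_rpow (hb0 x k) hB'pos.le, div_mul_cancel₀ _ hB'pos.ne']
    have hQT : 0 < Q * Real.exp (D.T ρ N) := mul_pos hQpos (Real.exp_pos _)
    set s' : ℝ := s / (Q * Real.exp (D.T ρ N)) with hs'
    have hs'0 : 0 ≤ s' := div_nonneg hs0 hQT.le
    have hKs' : ∀ q ∈ K, ‖Θ q.2‖ * ∏ k ∈ range N, b q.1 k ^ D.c k ≤ s' := by
      intro q hq
      rw [hs', le_div_iff₀ hQT]
      have := hKs q hq
      rw [hprod] at this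
      nlinarith [this]
    have hmain : ‖Θ p.2‖ * ∏ k ∈ range N, b p.1 k ^ D.c k ≤ s' := by
      apply approx_exponents (hb0 p.1) D.pos (norm_nonneg _) hs'0
      intro m hm
      have hf := hp (fun q => (ℓ (Θ q.2)) ^ m * ∏ k ∈ range N, ((q.1 - D.z k) / B') ^ ⌈D.c k * m⌉₊) (by
        apply Differentiable.differentiableOn
        apply Differentiable.mul
        · exact (ℓ.differentiable.comp (hΘ.comp differentiable_snd)).pow m
        · have hd : Differentiable ℂ fun x : ℂ =>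
              ∏ k ∈ range N, ((x - D.z k) / B') ^ ⌈D.c k * m⌉₊ := by
            apply Differentiable.fun_finsetProd
            intro k _
            fun_prop
          exact hd.comp differentiable_fst) (s' ^ m) (by
        intro q hq
        rw [norm_mul, norm_pow, norm_prod]
        have h1 : ∀ k ∈ range N, ‖((q.1 - D.z k) / B') ^ ⌈D.c k * m⌉₊‖ ≤ (b q.1 k ^ D.c k) ^ m := by
          intro k hk
          rw [norm_pow, norm_div, Complex.norm_real, Real.norm_eq_abs, abs_of_pos hB'pos]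
          change b q.1 k ^ ⌈D.c k * m⌉₊ ≤ _
          rw [← Real.rpow_natCast (b q.1 k ^ D.c k) m, ← Real.rpow_mul (hb0 _ _)]
          have hcm : 0 < D.c k * m := mul_pos (D.pos k) (by exact_mod_cast hm)
          rcases eq_or_lt_of_le (hb0 q.1 k) with h0 | h0
          · rw [← h0, zero_pow (Nat.ceil_pos.2 hcm).ne']
            exact Real.rpow_nonneg (le_refl 0) _
          · rw [← Real.rpow_natCast]
            exact Real.rpow_le_rpow_of_exponent_ge h0 (hB'le _ (hKρ q hq) k hk) (Nat.le_ceil _)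
        calc ‖ℓ (Θ q.2)‖ ^ m * ∏ k ∈ range N, ‖((q.1 - D.z k) / B') ^ ⌈D.c k * m⌉₊‖
            ≤ ‖Θ q.2‖ ^ m * ∏ k ∈ range N, (b q.1 k ^ D.c k) ^ m := by
              apply mul_le_mul
              · exact pow_le_pow_left₀ (norm_nonneg _) (hℓle _) m
              · exact Finset.prod_le_prod (fun _ _ => norm_nonneg _) h1
              · exact Finset.prod_nonneg fun _ _ => norm_nonneg _
              · positivity
          _ = (‖Θ q.2‖ * ∏ k ∈ range N, b q.1 k ^ D.c k) ^ m := by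
              rw [mul_pow, Finset.prod_pow]
          _ ≤ s' ^ m := pow_le_pow_left₀ (mul_nonneg (norm_nonneg _)
              (Finset.prod_nonneg fun k _ => Real.rpow_nonneg (hb0 _ _) _)) (hKs' q hq) m)
      rw [norm_mul, norm_pow, norm_prod, hℓp] at hf
      convert hf using 3 with k hk
      rw [norm_pow, norm_div, Complex.norm_real, Real.norm_eq_abs, abs_of_pos hB'pos]
    rw [hs', le_div_iff₀ hQT] at hmain
    rw [hprod]
    nlinarith [hmain]
  -- the hull is closed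
  refine hScomp.of_isClosed_subset ?_ hhull
  apply isClosed_of_closure_subset
  intro p hp
  have hpS : p ∈ S := closure_minimal hhull hSclosed hp
  refine ⟨hSD hpS, fun f hf C hC => ?_⟩
  have hcont : ContinuousAt f p := hf.continuousOn.continuousAt ((D.isOpen_dom hV).mem_nhds (hSD hpS))
  exact ContinuousWithinAt.closure_le hp hcont.norm.continuousWithinAt
    continuousWithinAt_const (fun q hq => hq.2 f hf C hC)

end Data

end H73SK
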