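import Mathlib
import Pool.Agent.H73.SK.Weight
import Pool.Agent.H73.SK.Defs

/-! The Kobayashi pseudodistance of `D.dom V` vanishes. -/

open Filter Topology Set Metric

namespace H73SK

lemma poincareDist_zero (b : ℂ) : poincareDist 0 b = Real.log ((1 + ‖b‖) / (1 - ‖b‖)) := by
  unfold poincareDist
  simp

lemma poincareDist_zero_tendsto : Tendsto (fun b => poincareDist 0 b) (𝓝 0) (𝓝 0) := by
  have h : ContinuousAt (fun b : ℂ => Real.log ((1 + ‖b‖) / (1 - ‖b‖))) 0 := by
    apply ContinuousAt.log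
    · apply ContinuousAt.div
      · fun_prop
      · fun_prop
      · simp
    · simp
  have h2 := h.tendsto
  simp only [norm_zero, add_zero, sub_zero, div_one, Real.log_one] at h2
  refine h2.congr fun b => ?_
  rw [poincareDist_zero]

section

variable {X : Type*} [NormedAddCommGroup X] [NormedSpace ℂ X] {M : Set X} {δ : X → X → ℝ}

/-- An entire curve in `M` has zero length. -/
lemma entire_zero (h1 : IsPseudoDist M δ) (h2 : ContractsDiscs M δ) {g : ℂ → X}
    (hg : Differentiable ℂ g) (hM : ∀ ζ, g ζ ∈ M) (ζ : ℂ) : δ (g 0) (g ζ) = 0 := by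
  apply le_antisymm _ (h1.nonneg _ (hM 0) _ (hM ζ))
  have h3 : ∀ᶠ R : ℝ in atTop, δ (g 0) (g ζ) ≤ poincareDist 0 ((R : ℂ)⁻¹ * ζ) := by
    filter_upwards [eventually_gt_atTop (0 : ℝ), eventually_gt_atTop ‖ζ‖] with R hR0 hR
    have hR' : (R : ℂ) ≠ 0 := by exact_mod_cast hR0.ne'
    have h4 := h2 (fun t => g ((R : ℂ) * t)) (by
        apply Differentiable.differentiableOn
        exact hg.comp (differentiable_id.const_mul _)) (fun t _ => hM _) 0 (by simp)
        ((R : ℂ)⁻¹ * ζ) (by
          simp only [Metric.mem_ball, dist_zero_right, norm_mul, norm_inv, Complex.norm_real,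
            Real.norm_eq_abs, abs_of_pos hR0]
          rw [inv_mul_lt_iff₀ hR0]; simpa using hR)
    simp only [mul_zero] at h4
    rwa [← mul_assoc, mul_inv_cancel₀ hR', one_mul] at h4
  have h5 : Tendsto (fun R : ℝ => (R : ℂ)⁻¹ * ζ) atTop (𝓝 0) := by
    have h6 : Tendsto (fun R : ℝ => ((R⁻¹ : ℝ) : ℂ) * ζ) atTop (𝓝 (((0 : ℝ) : ℂ) * ζ)) :=
      ((Complex.continuous_ofReal.tendsto 0).comp tendsto_inv_atTop_zero).mul_const ζ
    simpa using h6
  exact ge_of_tendsto (poincareDist_zero_tendsto.comp h5) h3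

end

namespace Data

variable (D : Data) {E : Type*} [NormedAddCommGroup E] [NormedSpace ℂ E] {V : E → ℝ}

theorem kobayashiVanishes (hV : Gauge V) : KobayashiVanishes (D.dom V) := by
  intro δ h1 h2
  -- every point is at distance zero from the origin
  have hline : ∀ x : ℂ, δ ((0 : ℂ), (0 : E)) (x, 0) = 0 := by
    intro x
    exact entire_zero h1 h2 (g := fun ζ => ((ζ, 0) : ℂ × E))
      (by fun_prop) (fun ζ => D.mem_dom_zero hV ζ) x
  have hfib : ∀ (k : ℕ) (w : E), δ (D.z k, (0 : E)) (D.z k, w) = 0 := by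
    intro k w
    have := entire_zero h1 h2 (g := fun ζ => ((D.z k, ζ • w) : ℂ × E))
      (by fun_prop) (fun ζ => D.mem_dom_z k _) 1
    simpa using this
  have key : ∀ p ∈ D.dom V, δ ((0 : ℂ), (0 : E)) p = 0 := by
    rintro ⟨x, w⟩ hp
    apply le_antisymm _ (h1.nonneg _ (D.mem_dom_zero hV 0) _ hp)
    -- a horizontal disc around p
    obtain ⟨r, hr, hball⟩ := Metric.isOpen_iff.1 (D.isOpen_dom hV) (x, w) hp
    have hdisc : ∀ x' : ℂ, ‖x' - x‖ < r → ((x', w) : ℂ × E) ∈ D.dom V := by
      intro x' hx'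
      apply hball
      rw [Metric.mem_ball, Prod.dist_eq, dist_self, dist_eq_norm]
      exact max_lt hx' hr
    have hr' : (r : ℂ) ≠ 0 := by exact_mod_cast hr.ne'
    have hle : ∀ k : ℕ, ‖D.z k - x‖ < r →
        δ ((0 : ℂ), (0 : E)) (x, w) ≤ poincareDist 0 ((r : ℂ)⁻¹ * (D.z k - x)) := by
      intro k hk
      have h3 := h2 (fun t => ((x + (r : ℂ) * t, w) : ℂ × E)) (by
          apply Differentiable.differentiableOn
          fun_prop) (fun t ht => by
            apply hdisc
            rw [Metric.mem_ball, dist_zero_right] at ht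
            rw [add_sub_cancel_left, norm_mul, Complex.norm_real, Real.norm_eq_abs,
              abs_of_pos hr]
            calc r * ‖t‖ < r * 1 := by gcongr
              _ = r := mul_one r) 0 (by simp) ((r : ℂ)⁻¹ * (D.z k - x)) (by
          simp only [Metric.mem_ball, dist_zero_right, norm_mul, norm_inv, Complex.norm_real,
            Real.norm_eq_abs, abs_of_pos hr]
          rw [inv_mul_lt_iff₀ hr]; simpa using hk)
      simp only [mul_zero, add_zero] at h3
      rw [← mul_assoc, mul_inv_cancel₀ hr', one_mul, add_sub_cancel] at h3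
      have hz : ((D.z k, w) : ℂ × E) ∈ D.dom V := D.mem_dom_z k w
      have hz0 : ((D.z k, (0 : E)) : ℂ × E) ∈ D.dom V := D.mem_dom_z k 0
      have h00 : (((0 : ℂ), (0 : E)) : ℂ × E) ∈ D.dom V := D.mem_dom_zero hV 0
      have t1 := h1.triangle _ h00 _ hz0 _ hp
      have t2 := h1.triangle _ hz0 _ hz _ hp
      rw [hline (D.z k)] at t1
      rw [hfib k w, h1.symm _ hz _ hp] at t2
      linarith
    -- let z k → x
    obtain ⟨u, hu, hlim⟩ : ∃ u : ℕ → ℂ, (∀ n, u n ∈ Set.range D.z) ∧
        Tendsto u atTop (𝓝 x) := by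
      have := D.dense x
      rwa [mem_closure_iff_seq_limit] at this
    have h4 : Tendsto (fun n => (r : ℂ)⁻¹ * (u n - x)) atTop (𝓝 0) := by
      have : Tendsto (fun n => (r : ℂ)⁻¹ * (u n - x)) atTop (𝓝 ((r : ℂ)⁻¹ * (x - x))) :=
        (hlim.sub_const x).const_mul _
      simpa using this
    refine ge_of_tendsto (poincareDist_zero_tendsto.comp h4) ?_
    have h5 : ∀ᶠ n in atTop, ‖u n - x‖ < r := by
      have := (tendsto_iff_norm_sub_tendsto_zero.1 hlim)
      exact this.eventually_lt_const hr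
    filter_upwards [h5] with n hn
    obtain ⟨k, hk⟩ := hu n
    have := hle k (by rw [hk]; exact hn)
    rw [hk] at this
    exact this
  intro p hp q hq
  have h00 : (((0 : ℂ), (0 : E)) : ℂ × E) ∈ D.dom V := D.mem_dom_zero hV 0
  apply le_antisymm _ (h1.nonneg _ hp _ hq)
  have := h1.triangle _ hp _ h00 _ hq
  rw [h1.symm _ hp _ h00, key p hp, key q hq] at this
  linarith

end Data

end H73SK
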