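import Mathlib
import Pool.Agent.H73.SK.Growth

/-! Gauges of quadratic growth: biholomorphic maps are linear in the fibre variable. -/

open Filter Topology Set Metric

namespace H73SK

namespace Pair

variable {E : Type*} [NormedAddCommGroup E] [NormedSpace ℂ E] {D D' : Data}
  {V V' : E → ℝ} {F G : ℂ × E → ℂ × E} {α β : ℂ}

lemma homog_at_z [Nontrivial E] (P : Pair D D' V V' F G) (hα : α ≠ 0)
    (hb : ∀ p ∈ D.dom V, (F p).1 = α * p.1 + β) (hQ : QuadGrowth V) (hQ' : QuadGrowth V')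
    (k : ℕ) (w : E) (ζ : ℂ) : (F (D.z k, ζ • w)).2 = ζ • (F (D.z k, w)).2 := by
  rcases eq_or_ne w 0 with rfl | hw0
  · simp [P.snd_zero]
  have hwpos : 0 < ‖w‖ := norm_pos_iff.2 hw0
  obtain ⟨C3, hC3, hcmp⟩ := P.growth_cmp hα hb hQ hQ' k
  obtain ⟨C1, hC1, C2, hC2, hVg⟩ := hQ
  obtain ⟨C1', hC1', C2', hC2', hVg'⟩ := hQ'
  set a := D.z k with ha
  set S : Set ℂ := {x | 0 < D.weight x} with hS
  have hne : (𝓝[S] a).NeBot := mem_closure_iff_nhdsWithin_neBot.1 (D.dense_pos a)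
  -- constant of the error term
  set K : ℝ := 16 * Real.sqrt (C1' * C3) * C2 * ‖w‖ ^ 2 with hK
  set Z : ℝ := max ‖ζ‖ 1 with hZ
  have hZ1 : 1 ≤ Z := le_max_right _ _
  have hZζ : ‖ζ‖ ≤ Z := le_max_left _ _
  -- smallness threshold
  set δ : ℝ := min (1 / (4 * C2)) (1 / (C2 * (2 * (Z * ‖w‖ + 1)) ^ 2)) with hδ
  have hδpos : 0 < δ := by positivity
  have hbound : ∀ᶠ x in 𝓝[S] a, ‖(F (x, ζ • w)).2 - ζ • (F (x, w)).2‖ ≤
      K * (‖ζ‖ ^ 2 + ‖ζ‖) * Real.sqrt (D.weight x) := by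
    filter_upwards [nhdsWithin_le_nhds (D.weight_small k hδpos), nhdsWithin_le_nhds hcmp,
      self_mem_nhdsWithin] with x hxδ hxc hxS
    have hWpos : 0 < D.weight x := hxS
    have hWW' := hxc hWpos
    have hW'pos := P.weight_pos_image hα hb hWpos
    set W := D.weight x with hW
    set W' := D'.weight (α * x + β) with hW'
    -- radius of the ball contained in the fibre
    set r : ℝ := Real.sqrt (1 / (W * C2)) / 2 with hr
    have hsq : Real.sqrt (1 / (W * C2)) ^ 2 = 1 / (W * C2) := Real.sq_sqrt (by positivity)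
    have hrpos : 0 < r := by positivity
    have hr1 : 1 ≤ r := by
      have h1 : (2 : ℝ) ≤ Real.sqrt (1 / (W * C2)) := by
        apply Real.le_sqrt_of_sq_le
        rw [le_div_iff₀ (by positivity)]
        have h2 : W ≤ 1 / (4 * C2) := hxδ.le.trans (min_le_left _ _)
        rw [le_div_iff₀ (by positivity)] at h2
        linarith
      rw [hr]; linarith
    have hZr : Z * ‖w‖ < r := by
      have h1 : 2 * (Z * ‖w‖ + 1) ≤ Real.sqrt (1 / (W * C2)) := by
        apply Real.le_sqrt_of_sq_le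
        rw [le_div_iff₀ (by positivity)]
        have h2 : W ≤ 1 / (C2 * (2 * (Z * ‖w‖ + 1)) ^ 2) := hxδ.le.trans (min_le_right _ _)
        rw [le_div_iff₀ (by positivity)] at h2
        linarith
      rw [hr]; linarith
    have hmem : ∀ v : E, ‖v‖ < r → ((x, v) : ℂ × E) ∈ D.dom V := by
      intro v hv
      rw [D.mem_dom]
      simp only
      have h1 : V v ≤ C2 * (1 + ‖v‖) ^ 2 := (hVg v).2
      have h2 : (1 + ‖v‖) ^ 2 < 1 / (W * C2) := by
        have h3 : 1 + ‖v‖ < Real.sqrt (1 / (W * C2)) := by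
          have : Real.sqrt (1 / (W * C2)) = 2 * r := by rw [hr]; ring
          linarith
        have h4 := pow_lt_pow_left₀ h3 (by positivity) two_ne_zero
        rwa [hsq] at h4
      calc W * V v ≤ W * (C2 * (1 + ‖v‖) ^ 2) := mul_le_mul_of_nonneg_left h1 hWpos.le
        _ < W * (C2 * (1 / (W * C2))) := by
            apply mul_lt_mul_of_pos_left _ hWpos
            exact mul_lt_mul_of_pos_left h2 hC2
        _ = 1 := by field_simp
    set ρ : ℝ := r / ‖w‖ with hρ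
    have hρpos : 0 < ρ := by positivity
    have hsmall : ∀ t ∈ ball (0 : ℂ) ρ, ‖t • w‖ < r := by
      intro t ht
      rw [mem_ball_zero_iff, hρ, lt_div_iff₀ hwpos] at ht
      rwa [norm_smul]
    set M : ℝ := Real.sqrt (C1' * C3 / W) with hM
    set φ : ℂ → E := fun t => (F (x, t • w)).2 with hφ
    have hφd : DifferentiableOn ℂ φ (ball 0 ρ) := fun t ht =>
      (P.vertical_diff (hmem _ (hsmall t ht))).differentiableWithinAt
    have hφM : ∀ t ∈ ball (0 : ℂ) ρ, ‖φ t‖ ≤ M := by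
      intro t ht
      have hp := hmem _ (hsmall t ht)
      have h1 := P.mF hp
      rw [D'.mem_dom, hb _ hp] at h1
      simp only at h1
      apply Real.le_sqrt_of_sq_le
      have h2 := (hVg' (φ t)).1
      rw [le_div_iff₀ hWpos]
      have h3 : W' * V' (φ t) ≤ 1 := h1.le
      have hV'0 : 0 ≤ V' (φ t) := P.hV'.nonneg _
      have h4 : W * V' (φ t) ≤ C3 := by
        calc W * V' (φ t) ≤ (C3 * W') * V' (φ t) := mul_le_mul_of_nonneg_right hWW' hV'0
          _ = C3 * (W' * V' (φ t)) := by ring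
          _ ≤ C3 * 1 := mul_le_mul_of_nonneg_left h3 hC3.le
          _ = C3 := mul_one _
      calc ‖φ t‖ ^ 2 * W ≤ C1' * V' (φ t) * W := mul_le_mul_of_nonneg_right h2 hWpos.le
        _ = C1' * (W * V' (φ t)) := by ring
        _ ≤ C1' * C3 := mul_le_mul_of_nonneg_left h4 hC1'.le
    have hφ0 : φ 0 = 0 := by
      simp only [hφ, zero_smul]
      exact P.snd_zero x
    have hest : ∀ t : ℂ, ‖t‖ ≤ Z → ‖φ t - t • deriv φ 0‖ ≤ K * ‖t‖ ^ 2 * Real.sqrt W := by
      intro t ht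
      have htb : t ∈ ball (0 : ℂ) ρ := by
        rw [mem_ball_zero_iff, hρ, lt_div_iff₀ hwpos]
        exact (mul_le_mul_of_nonneg_right ht hwpos.le).trans_lt hZr
      have h1 := second_order' hρpos hφd hφM htb
      rw [hφ0, sub_zero] at h1
      refine h1.trans (le_of_eq ?_)
      have h2 : M = Real.sqrt (C1' * C3) / Real.sqrt W := by
        rw [hM, Real.sqrt_div (by positivity)]
      have h3 : r ^ 2 = 1 / (W * C2) / 4 := by
        rw [hr, div_pow, hsq]; norm_num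
      have h4 : Real.sqrt W ^ 2 = W := Real.sq_sqrt hWpos.le
      have hsW : 0 < Real.sqrt W := Real.sqrt_pos.2 hWpos
      rw [h2, hρ, hK]
      have h5 : (‖t‖ / (r / ‖w‖)) ^ 2 = ‖t‖ ^ 2 * ‖w‖ ^ 2 / r ^ 2 := by
        field_simp
      rw [h5, h3]
      have h6 : Real.sqrt (C1' * C3) / Real.sqrt W * (‖t‖ ^ 2 * ‖w‖ ^ 2 / (1 / (W * C2) / 4)) =
          4 * Real.sqrt (C1' * C3) * C2 * ‖w‖ ^ 2 * ‖t‖ ^ 2 * (W / Real.sqrt W) := by
        field_simp
      have h7 : W / Real.sqrt W = Real.sqrt W := by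
        rw [div_eq_iff hsW.ne', ← sq, h4]
      rw [h7] at h6
      calc 4 * (Real.sqrt (C1' * C3) / Real.sqrt W) * (‖t‖ ^ 2 * ‖w‖ ^ 2 / (1 / (W * C2) / 4))
          = 4 * (Real.sqrt (C1' * C3) / Real.sqrt W *
              (‖t‖ ^ 2 * ‖w‖ ^ 2 / (1 / (W * C2) / 4))) := by ring
        _ = _ := by rw [h6]; ring
    have e1 := hest ζ hZζ
    have e2 := hest 1 (by rw [norm_one]; exact hZ1)
    rw [norm_one, one_pow, one_smul, mul_one] at e2
    have e3 : (F (x, ζ • w)).2 - ζ • (F (x, w)).2 =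
        (φ ζ - ζ • deriv φ 0) - ζ • (φ 1 - deriv φ 0) := by
      simp only [hφ, one_smul, smul_sub]
      abel
    rw [e3]
    refine (norm_sub_le _ _).trans ?_
    rw [norm_smul]
    have e4 : ‖ζ‖ * ‖φ 1 - deriv φ 0‖ ≤ ‖ζ‖ * (K * Real.sqrt W) :=
      mul_le_mul_of_nonneg_left e2 (norm_nonneg _)
    calc ‖φ ζ - ζ • deriv φ 0‖ + ‖ζ‖ * ‖φ 1 - deriv φ 0‖
        ≤ K * ‖ζ‖ ^ 2 * Real.sqrt W + ‖ζ‖ * (K * Real.sqrt W) := add_le_add e1 e4
      _ = _ := by ring
  -- passage to the limit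
  have hWlim : Tendsto (fun x => D.weight x) (𝓝[S] a) (𝓝 0) := by
    rw [Metric.tendsto_nhds]
    intro ε hε
    filter_upwards [nhdsWithin_le_nhds (D.weight_small k hε)] with x hx
    rw [Real.dist_eq, sub_zero, abs_of_nonneg (D.weight_nonneg x)]
    exact hx
  have hR : Tendsto (fun x => K * (‖ζ‖ ^ 2 + ‖ζ‖) * Real.sqrt (D.weight x)) (𝓝[S] a) (𝓝 0) := by
    have h1 : Tendsto (fun x => Real.sqrt (D.weight x)) (𝓝[S] a) (𝓝 (Real.sqrt 0)) :=
      (Real.continuous_sqrt.tendsto 0).comp hWlim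
    have h2 := h1.const_mul (K * (‖ζ‖ ^ 2 + ‖ζ‖))
    simpa using h2
  have hcont : ∀ v : E, Tendsto (fun x => (F (x, v)).2) (𝓝[S] a) (𝓝 (F (a, v)).2) := by
    intro v
    have h1 : ContinuousAt (fun p => (F p).2) (a, v) :=
      P.hF.continuousOn.snd.continuousAt ((D.isOpen_dom P.hV).mem_nhds (D.mem_dom_z k v))
    have h2 : ContinuousAt (fun x : ℂ => ((x, v) : ℂ × E)) a := by fun_prop
    exact (h1.tendsto.comp h2.tendsto).mono_left nhdsWithin_le_nhds
  have hL : Tendsto (fun x => ‖(F (x, ζ • w)).2 - ζ • (F (x, w)).2‖) (𝓝[S] a)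
      (𝓝 ‖(F (a, ζ • w)).2 - ζ • (F (a, w)).2‖) :=
    ((hcont (ζ • w)).sub ((hcont w).const_smul ζ)).norm
  have hfin := le_of_tendsto_of_tendsto hL hR hbound
  exact sub_eq_zero.1 (norm_le_zero_iff.1 hfin)

/-- homogeneity on all fibres -/
lemma homog_all [Nontrivial E] (P : Pair D D' V V' F G) (hα : α ≠ 0)
    (hb : ∀ p ∈ D.dom V, (F p).1 = α * p.1 + β) (hQ : QuadGrowth V) (hQ' : QuadGrowth V')
    {x : ℂ} {w : E} {ζ : ℂ} (hw : ((x, w) : ℂ × E) ∈ D.dom V)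
    (hζw : ((x, ζ • w) : ℂ × E) ∈ D.dom V) : (F (x, ζ • w)).2 = ζ • (F (x, w)).2 := by
  obtain ⟨u, hu, hlim⟩ := mem_closure_iff_seq_limit.1 (D.dense x)
  have hcont : ∀ v : E, ((x, v) : ℂ × E) ∈ D.dom V →
      Tendsto (fun n => (F (u n, v)).2) atTop (𝓝 (F (x, v)).2) := by
    intro v hv
    have h1 : ContinuousAt (fun p => (F p).2) (x, v) :=
      P.hF.continuousOn.snd.continuousAt ((D.isOpen_dom P.hV).mem_nhds hv)
    have h2 : Tendsto (fun n => ((u n, v) : ℂ × E)) atTop (𝓝 (x, v)) :=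
      hlim.prodMk_nhds tendsto_const_nhds
    exact h1.tendsto.comp h2
  refine tendsto_nhds_unique (hcont _ hζw) (((hcont _ hw).const_smul ζ).congr fun n => ?_)
  obtain ⟨k, hk⟩ := hu n
  rw [← hk]
  exact (P.homog_at_z hα hb hQ hQ' k w ζ).symm

/-- the fibre maps are linear -/
lemma linear [Nontrivial E] (P : Pair D D' V V' F G) (hα : α ≠ 0)
    (hb : ∀ p ∈ D.dom V, (F p).1 = α * p.1 + β) (hQ : QuadGrowth V) (hQ' : QuadGrowth V')
    (x : ℂ) : ∃ A : E →L[ℂ] E, ∀ w : E, ((x, w) : ℂ × E) ∈ D.dom V → (F (x, w)).2 = A w := by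
  have hx0 : ((x, (0 : E)) : ℂ × E) ∈ D.dom V := D.mem_dom_zero P.hV x
  have hdiff : DifferentiableAt ℂ (fun w : E => (F (x, w)).2) 0 := by
    have h1 : DifferentiableAt ℂ F (x, (0 : E)) :=
      P.hF.differentiableAt ((D.isOpen_dom P.hV).mem_nhds hx0)
    have h2 : DifferentiableAt ℂ (fun w : E => ((x, w) : ℂ × E)) 0 := by fun_prop
    exact (h1.comp (0 : E) h2).snd
  refine ⟨fderiv ℂ (fun w : E => (F (x, w)).2) 0, fun w hw => ?_⟩
  have h1 : HasFDerivAt (fun w : E => (F (x, w)).2)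
      (fderiv ℂ (fun w : E => (F (x, w)).2) 0) ((0 : ℂ) • w) := by
    rw [zero_smul]
    exact hdiff.hasFDerivAt
  have h2 : HasDerivAt (fun ζ : ℂ => ζ • w) w 0 := by
    simpa using (hasDerivAt_id (0 : ℂ)).smul_const w
  have h3 := h1.comp_hasDerivAt (0 : ℂ) h2
  have h4 : HasDerivAt (fun ζ : ℂ => ζ • (F (x, w)).2) (F (x, w)).2 0 := by
    simpa using (hasDerivAt_id (0 : ℂ)).smul_const (F (x, w)).2
  have h5 : (fun ζ : ℂ => (F (x, ζ • w)).2) =ᶠ[𝓝 0] fun ζ : ℂ => ζ • (F (x, w)).2 := by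
    have h6 : ∀ᶠ ζ : ℂ in 𝓝 0, ((x, ζ • w) : ℂ × E) ∈ D.dom V := by
      have hc : ContinuousAt (fun ζ : ℂ => ((x, ζ • w) : ℂ × E)) 0 := by fun_prop
      exact hc ((D.isOpen_dom P.hV).mem_nhds (by simpa using hx0))
    filter_upwards [h6] with ζ hζ
    exact P.homog_all hα hb hQ hQ' hw hζ
  have h7 := h4.congr_of_eventuallyEq h5
  exact h7.unique h3

end Pair

end H73SK
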