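import Mathlib
import Pool.Agent.H73.SK.Algebra

/-! Linear maps preserving a level set of the rigid gauge are trivial. -/

open Filter Topology Set Metric
open scoped InnerProductSpace

namespace H73SK

variable {m : ℕ} {b : Fin m → ℝ}

lemma qb_smul (ζ : ℂ) (e : EuclideanSpace ℂ (Fin m)) :
    qb b (ζ • e) (ζ • e) = ζ ^ 2 • qb b e e := by
  ext i
  simp only [qb_apply, PiLp.smul_apply, smul_eq_mul]
  ring

/-- the gauge on a complex line -/
lemma Vq_line (ζ : ℂ) (e : EuclideanSpace ℂ (Fin m)) :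
    Vq b (ζ • e) ^ 2 = ‖ζ‖ ^ 2 * (2 * ‖e‖ ^ 2 + ‖qb b e e‖ ^ 2 * ‖ζ‖ ^ 2 -
      2 * (ζ * ⟪e, qb b e e⟫_ℂ).re) := by
  rw [Vq_sq, qb_smul]
  have h1 : ζ ^ 2 • qb b e e - ζ • e = ζ • (ζ • qb b e e - e) := by
    rw [smul_sub, smul_smul, sq]
  rw [h1, norm_smul, norm_smul, mul_pow, mul_pow, norm_sub_sq (𝕜 := ℂ), norm_smul]
  have h2 : RCLike.re ⟪ζ • qb b e e, e⟫_ℂ = (ζ * ⟪e, qb b e e⟫_ℂ).re := by
    rw [inner_smul_left, ← inner_conj_symm (qb b e e) e, ← map_mul]
    exact RCLike.conj_re _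
  rw [h2]
  ring

lemma qb_self_ne_zero (hb : ∀ i, 0 < b i) {e : EuclideanSpace ℂ (Fin m)} (he : e ≠ 0) :
    qb b e e ≠ 0 := by
  intro h
  apply he
  ext i
  have h1 : qb b e e i = 0 := by rw [h]; rfl
  rw [qb_apply, div_eq_zero_iff] at h1
  rcases h1 with h1 | h1
  · simpa using h1
  · exact ((by exact_mod_cast (hb i).ne' : (b i : ℂ) ≠ 0) h1).elim

/-- relations for a linear map carrying one level set of the gauge to another one -/
lemma level_rel (hb : ∀ i, 0 < b i) {A : EuclideanSpace ℂ (Fin m) →L[ℂ] EuclideanSpace ℂ (Fin m)}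
    {T T' : ℝ} (hT : 0 < T) (h : ∀ w, Vq b w ^ 2 = T → Vq b (A w) ^ 2 = T')
    {e : EuclideanSpace ℂ (Fin m)} (hS : ⟪e, qb b e e⟫_ℂ ≠ 0) :
    ‖A e‖ ^ 2 = T' / T * ‖e‖ ^ 2 ∧
      ⟪A e, qb b (A e) (A e)⟫_ℂ = ((T' / T : ℝ) : ℂ) * ⟪e, qb b e e⟫_ℂ := by
  have he : e ≠ 0 := by
    rintro rfl
    simp at hS
  have hepos : 0 < ‖e‖ := norm_pos_iff.2 he
  have hqpos : 0 < ‖qb b e e‖ := norm_pos_iff.2 (qb_self_ne_zero hb he)
  obtain ⟨h1, -, h3⟩ := level_cmp (P := 2 * ‖e‖ ^ 2) (Q := ‖qb b e e‖ ^ 2)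
    (P' := 2 * ‖A e‖ ^ 2) (Q' := ‖qb b (A e) (A e)‖ ^ 2) (T := T) (T' := T')
    (S := ⟪e, qb b e e⟫_ℂ) (S' := ⟪A e, qb b (A e) (A e)⟫_ℂ) (by positivity) (by positivity) hT
    hS (fun ζ hζ => by
      rw [← Vq_line] at hζ
      have := h _ hζ
      rwa [map_smul, Vq_line] at this)
  exact ⟨by linarith, h3⟩

/-- the cubic form is nonzero on a dense set -/
lemma dense_cubic (hb : ∀ i, 0 < b i) (i0 : Fin m) (e : EuclideanSpace ℂ (Fin m)) :
    ∃ u : ℕ → EuclideanSpace ℂ (Fin m), (∀ n, ⟪u n, qb b (u n) (u n)⟫_ℂ ≠ 0) ∧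
      Tendsto u atTop (𝓝 e) := by
  by_cases hS : ⟪e, qb b e e⟫_ℂ = 0
  swap
  · exact ⟨fun _ => e, fun _ => hS, tendsto_const_nhds⟩
  set v : EuclideanSpace ℂ (Fin m) := EuclideanSpace.single i0 (1 : ℂ) with hv
  have hform : ∀ w : EuclideanSpace ℂ (Fin m),
      ⟪w, qb b w w⟫_ℂ = ∑ i, (‖w i‖ ^ 2 : ℝ) * (w i / (b i : ℂ)) := by
    intro w
    rw [PiLp.inner_apply]
    apply Finset.sum_congr rfl
    intro i _
    simp only [qb_apply, RCLike.inner_apply]
    have : (starRingEnd ℂ) (w i) * w i = (‖w i‖ ^ 2 : ℝ) := by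
      rw [← Complex.normSq_eq_conj_mul_self, Complex.normSq_eq_norm_sq]
    calc w i * w i / (b i : ℂ) * (starRingEnd ℂ) (w i)
        = ((starRingEnd ℂ) (w i) * w i) * (w i / (b i : ℂ)) := by ring
      _ = _ := by rw [this]
  refine ⟨fun n => e + ((1 / ((n : ℝ) + 1) : ℝ) : ℂ) • v, fun n hn => ?_, ?_⟩
  · set t : ℝ := 1 / ((n : ℝ) + 1) with ht
    have htpos : 0 < t := by positivity
    rw [hform] at hn hS
    rw [← Finset.add_sum_erase _ _ (Finset.mem_univ i0)] at hn hS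
    have hrest : ∑ i ∈ Finset.univ.erase i0,
        ((‖(e + (t : ℂ) • v) i‖ ^ 2 : ℝ) : ℂ) * ((e + (t : ℂ) • v) i / (b i : ℂ)) =
        ∑ i ∈ Finset.univ.erase i0, ((‖e i‖ ^ 2 : ℝ) : ℂ) * (e i / (b i : ℂ)) := by
      apply Finset.sum_congr rfl
      intro i hi
      have hne : i ≠ i0 := Finset.ne_of_mem_erase hi
      have : (e + (t : ℂ) • v) i = e i := by
        rw [hv]
        simp [hne]
      rw [this]
    rw [hrest] at hn
    have hv0 : (e + (t : ℂ) • v) i0 = e i0 + t := by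
      rw [hv]
      simp
    rw [hv0] at hn
    have hbc : (b i0 : ℂ) ≠ 0 := by exact_mod_cast (hb i0).ne'
    have hkey : ((‖e i0 + t‖ ^ 2 : ℝ) : ℂ) * (e i0 + t) = ((‖e i0‖ ^ 2 : ℝ) : ℂ) * e i0 := by
      have h1 : ((‖e i0 + t‖ ^ 2 : ℝ) : ℂ) * ((e i0 + t) / (b i0 : ℂ)) =
          ((‖e i0‖ ^ 2 : ℝ) : ℂ) * (e i0 / (b i0 : ℂ)) := by
        linear_combination hn - hS
      field_simp at h1
      linear_combination h1
    have hnorm : ‖e i0 + t‖ ^ 3 = ‖e i0‖ ^ 3 := by
      have h2 := congrArg norm hkey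
      rw [norm_mul, norm_mul, Complex.norm_real, Complex.norm_real, Real.norm_eq_abs,
        Real.norm_eq_abs, abs_of_nonneg (sq_nonneg _), abs_of_nonneg (sq_nonneg _)] at h2
      calc ‖e i0 + t‖ ^ 3 = ‖e i0 + t‖ ^ 2 * ‖e i0 + t‖ := by ring
        _ = _ := h2
        _ = ‖e i0‖ ^ 3 := by ring
    have hnorm' : ‖e i0 + t‖ = ‖e i0‖ :=
      (pow_left_inj₀ (norm_nonneg _) (norm_nonneg _) (by norm_num)).1 hnorm
    rw [hnorm'] at hkey
    by_cases h0 : e i0 = 0
    · rw [h0, zero_add, norm_zero, Complex.norm_real, Real.norm_eq_abs, abs_of_pos htpos] at hnorm'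
      linarith
    · have h3 : ((‖e i0‖ ^ 2 : ℝ) : ℂ) ≠ 0 := by
        have : 0 < ‖e i0‖ := norm_pos_iff.2 h0
        exact_mod_cast (by positivity : (‖e i0‖ ^ 2 : ℝ) ≠ 0)
      have h4 := mul_left_cancel₀ h3 hkey
      have h5 : (t : ℂ) = 0 := by linear_combination h4
      have : t = 0 := by exact_mod_cast h5
      linarith
  · have h1 : Tendsto (fun n : ℕ => ((1 / ((n : ℝ) + 1) : ℝ) : ℂ)) atTop (𝓝 ((0 : ℝ) : ℂ)) :=
      (Complex.continuous_ofReal.tendsto 0).comp tendsto_one_div_add_atTop_nhds_zero_nat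
    have h2 := (h1.smul_const v).const_add e
    simpa using h2

/-- A linear map carrying a level set of the rigid gauge to a level set is the identity. -/
theorem level_trivial [Nonempty (Fin m)] (hb : ∀ i, 0 < b i) (hbi : Function.Injective b)
    {A : EuclideanSpace ℂ (Fin m) →L[ℂ] EuclideanSpace ℂ (Fin m)} (hA : Function.Surjective A)
    {T T' : ℝ} (hT : 0 < T) (hT' : 0 < T') (h : ∀ w, Vq b w ^ 2 = T → Vq b (A w) ^ 2 = T') :
    (∀ w, A w = w) ∧ T' = T := by
  obtain ⟨i0⟩ := (inferInstance : Nonempty (Fin m))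
  set κ : ℝ := T' / T with hκ
  have hκpos : 0 < κ := div_pos hT' hT
  have hcq : Continuous fun w : EuclideanSpace ℂ (Fin m) => qb b w w := by
    have h1 : Differentiable ℂ fun w : EuclideanSpace ℂ (Fin m) => qb b w w := by
      rw [differentiable_euclidean]
      intro i
      simp only [qb_apply]
      fun_prop
    exact h1.continuous
  -- norms
  have hnorm : ∀ e, ‖A e‖ ^ 2 = κ * ‖e‖ ^ 2 := by
    intro e
    obtain ⟨u, hu, hlim⟩ := dense_cubic hb i0 e
    have h1 : Tendsto (fun n => ‖A (u n)‖ ^ 2) atTop (𝓝 (‖A e‖ ^ 2)) :=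
      ((A.continuous.tendsto e).comp hlim).norm.pow 2
    have h2 : Tendsto (fun n => κ * ‖u n‖ ^ 2) atTop (𝓝 (κ * ‖e‖ ^ 2)) :=
      (hlim.norm.pow 2).const_mul κ
    refine tendsto_nhds_unique h1 (h2.congr fun n => ?_)
    exact (level_rel hb hT h (hu n)).1.symm
  have hcub : ∀ e, ⟪A e, qb b (A e) (A e)⟫_ℂ = (κ : ℂ) * ⟪e, qb b e e⟫_ℂ := by
    intro e
    obtain ⟨u, hu, hlim⟩ := dense_cubic hb i0 e
    have hAu : Tendsto (fun n => A (u n)) atTop (𝓝 (A e)) := (A.continuous.tendsto e).comp hlim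
    have h1 : Tendsto (fun n => ⟪A (u n), qb b (A (u n)) (A (u n))⟫_ℂ) atTop
        (𝓝 ⟪A e, qb b (A e) (A e)⟫_ℂ) := hAu.inner ((hcq.tendsto (A e)).comp hAu)
    have h2 : Tendsto (fun n => (κ : ℂ) * ⟪u n, qb b (u n) (u n)⟫_ℂ) atTop
        (𝓝 ((κ : ℂ) * ⟪e, qb b e e⟫_ℂ)) :=
      (hlim.inner ((hcq.tendsto e).comp hlim)).const_mul _
    refine tendsto_nhds_unique h1 (h2.congr fun n => ?_)
    exact (level_rel hb hT h (hu n)).2.symm
  -- inner products
  have hinner : ∀ v w, ⟪A v, A w⟫_ℂ = (κ : ℂ) * ⟪v, w⟫_ℂ := by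
    have hsκ : 0 < Real.sqrt κ := Real.sqrt_pos.2 hκpos
    have hsκc : (Real.sqrt κ : ℂ) ≠ 0 := by exact_mod_cast hsκ.ne'
    have hκs : ((Real.sqrt κ : ℝ) : ℂ) * (Real.sqrt κ : ℝ) = (κ : ℂ) := by
      rw [← Complex.ofReal_mul, Real.mul_self_sqrt hκpos.le]
    set B : EuclideanSpace ℂ (Fin m) →ₗᵢ[ℂ] EuclideanSpace ℂ (Fin m) :=
      { toLinearMap := ((Real.sqrt κ : ℂ)⁻¹) • (A : EuclideanSpace ℂ (Fin m) →ₗ[ℂ] _)
        norm_map' := by
          intro w
          simp only [LinearMap.smul_apply, ContinuousLinearMap.coe_coe]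
          rw [norm_smul, norm_inv, Complex.norm_real, Real.norm_eq_abs, abs_of_pos hsκ]
          have h1 : ‖A w‖ = Real.sqrt κ * ‖w‖ := by
            apply (sq_eq_sq₀ (norm_nonneg _) (by positivity)).1
            rw [hnorm, mul_pow, Real.sq_sqrt hκpos.le]
          rw [h1, ← mul_assoc, inv_mul_cancel₀ hsκ.ne', one_mul] } with hB
    intro v w
    have h1 := B.inner_map_map v w
    have h2 : ∀ v, A v = (Real.sqrt κ : ℂ) • B v := by
      intro v
      change A v = (Real.sqrt κ : ℂ) • (((Real.sqrt κ : ℂ)⁻¹) • A v)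
      rw [smul_smul, mul_inv_cancel₀ hsκc, one_smul]
    rw [h2 v, h2 w, inner_smul_left, inner_smul_right, h1, Complex.conj_ofReal, ← mul_assoc, hκs]
  -- the defect
  set Hd : EuclideanSpace ℂ (Fin m) → EuclideanSpace ℂ (Fin m) → EuclideanSpace ℂ (Fin m) :=
    fun v w => qb b (A v) (A w) - A (qb b v w) with hHd
  have hHself : ∀ e, ⟪A e, Hd e e⟫_ℂ = 0 := by
    intro e
    rw [hHd]
    simp only
    rw [inner_sub_right, hcub, hinner, sub_self]
  have hexp : ∀ (e v : EuclideanSpace ℂ (Fin m)) (ω : ℂ),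
      Hd (e + ω • v) (e + ω • v) = Hd e e + (2 * ω) • Hd e v + ω ^ 2 • Hd v v := by
    intro e v ω
    have hq : ∀ x y : EuclideanSpace ℂ (Fin m),
        qb b (x + ω • y) (x + ω • y) = qb b x x + (2 * ω) • qb b x y + ω ^ 2 • qb b y y := by
      intro x y
      ext i
      simp only [qb_apply, PiLp.add_apply, PiLp.smul_apply, smul_eq_mul]
      ring
    rw [hHd]
    simp only
    rw [map_add, map_smul, hq (A e) (A v), hq e v, map_add, map_add, map_smul, map_smul]
    module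
  have hzero : ∀ e, Hd e e = 0 := by
    intro e
    have h1 : ∀ v, ⟪A v, Hd e e⟫_ℂ = 0 := by
      intro v
      have hω : ∀ ω : ℂ, 2 * ω * ⟪A e, Hd e v⟫_ℂ + ω ^ 2 * ⟪A e, Hd v v⟫_ℂ +
          (starRingEnd ℂ) ω * ⟪A v, Hd e e⟫_ℂ +
          (starRingEnd ℂ) ω * (2 * ω) * ⟪A v, Hd e v⟫_ℂ = 0 := by
        intro ω
        have h2 := hHself (e + ω • v)
        rw [hexp, map_add, map_smul, inner_add_left, inner_smul_left, inner_add_right,
          inner_add_right, inner_add_right, inner_add_right, inner_smul_right, inner_smul_right,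
          inner_smul_right, inner_smul_right, hHself, hHself] at h2
        linear_combination h2
      have a1 := hω 1
      have a2 := hω (-1)
      have a3 := hω Complex.I
      have a4 := hω (-Complex.I)
      simp only [map_one, map_neg, Complex.conj_I] at a1 a2 a3 a4
      have hI : Complex.I ^ 2 = -1 := Complex.I_sq
      have hII : Complex.I * Complex.I = -1 := Complex.I_mul_I
      -- s = -2p and s = 2p
      have b1 : 4 * ⟪A e, Hd e v⟫_ℂ + 2 * ⟪A v, Hd e e⟫_ℂ = 0 := by linear_combination a1 - a2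
      have b2 : 4 * ⟪A e, Hd e v⟫_ℂ - 2 * ⟪A v, Hd e e⟫_ℂ = 0 := by
        have b3 : Complex.I * (4 * ⟪A e, Hd e v⟫_ℂ - 2 * ⟪A v, Hd e e⟫_ℂ) = 0 := by
          linear_combination a3 - a4
        rcases mul_eq_zero.1 b3 with h | h
        · exact (Complex.I_ne_zero h).elim
        · exact h
      linear_combination (1 / 4 : ℂ) * b1 - (1 / 4 : ℂ) * b2
    obtain ⟨v, hv⟩ := hA (Hd e e)
    have h2 := h1 v
    rw [hv, inner_self_eq_zero] at h2
    exact h2
  have hcomm : ∀ e, qb b (A e) (A e) = A (qb b e e) := fun e => sub_eq_zero.1 (hzero e)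
  -- idempotents
  have hbc : ∀ i, (b i : ℂ) ≠ 0 := fun i => by exact_mod_cast (hb i).ne'
  set ε : Fin m → EuclideanSpace ℂ (Fin m) := fun i => EuclideanSpace.single i (b i : ℂ) with hε
  have hεq : ∀ i, qb b (ε i) (ε i) = ε i := by
    intro i
    ext j
    by_cases hij : j = i
    · subst hij
      simp only [hε, qb_apply, PiLp.single_apply, if_true]
      field_simp [hbc j]
    · simp [hε, qb_apply, hij]
  have hAε : ∀ i j, A (ε i) j = 0 ∨ A (ε i) j = b j := by
    intro i j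
    have h1 := hcomm (ε i)
    rw [hεq i] at h1
    have h2 : qb b (A (ε i)) (A (ε i)) j = A (ε i) j := by rw [h1]
    rw [qb_apply, div_eq_iff (hbc j)] at h2
    have h3 : A (ε i) j * (A (ε i) j - b j) = 0 := by linear_combination h2
    rcases mul_eq_zero.1 h3 with h | h
    · exact Or.inl h
    · exact Or.inr (sub_eq_zero.1 h)
  have hεnorm : ∀ i, ‖ε i‖ = b i := by
    intro i
    rw [hε]
    simp only [PiLp.norm_single]
    rw [Complex.norm_real, Real.norm_eq_abs, abs_of_pos (hb i)]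
  have hAεne : ∀ i, A (ε i) ≠ 0 := by
    intro i h0
    have h1 := hnorm (ε i)
    rw [h0, norm_zero, hεnorm] at h1
    have : 0 < κ * b i ^ 2 := mul_pos hκpos (pow_pos (hb i) 2)
    nlinarith
  have hex : ∀ i, ∃ j, A (ε i) j = b j := by
    intro i
    by_contra hcon
    push Not at hcon
    apply hAεne i
    ext j
    rcases hAε i j with h | h
    · simpa using h
    · exact (hcon j h).elim
  choose π hπ using hex
  -- orthogonality
  have horth : ∀ i i', i ≠ i' → ∀ j, A (ε i) j = b j → A (ε i') j = 0 := by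
    intro i i' hii' j hj
    rcases hAε i' j with h | h
    · exact h
    exfalso
    have h1 : ⟪A (ε i), A (ε i')⟫_ℂ = 0 := by
      rw [hinner]
      have : ⟪ε i, ε i'⟫_ℂ = 0 := by
        rw [hε]
        simp only [EuclideanSpace.inner_single_left, PiLp.single_apply]
        rw [if_neg hii', mul_zero]
      rw [this, mul_zero]
    rw [PiLp.inner_apply] at h1
    have h2 : ∀ l, ⟪A (ε i) l, A (ε i') l⟫_ℂ = ((if A (ε i) l = b l ∧ A (ε i') l = b l then
        (b l) ^ 2 else 0 : ℝ) : ℂ) := by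
      intro l
      have hbl := hbc l
      simp only [RCLike.inner_apply]
      rcases hAε i l with h3 | h3 <;> rcases hAε i' l with h4 | h4 <;>
        simp [h3, h4, sq, eq_comm, hbl]
    rw [Finset.sum_congr rfl fun l _ => h2 l, ← Complex.ofReal_sum] at h1
    have h3 : ∑ l, (if A (ε i) l = b l ∧ A (ε i') l = b l then (b l) ^ 2 else 0 : ℝ) = 0 := by
      exact_mod_cast h1
    rw [Finset.sum_eq_zero_iff_of_nonneg (fun l _ => by split_ifs <;> positivity)] at h3
    have h4 := h3 j (Finset.mem_univ j)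
    rw [if_pos ⟨hj, h⟩] at h4
    have := hb j
    nlinarith [pow_pos this 2]
  have hπinj : Function.Injective π := by
    intro i i' hii'
    by_contra hne
    have h1 := horth i i' hne (π i) (hπ i)
    rw [hii', hπ i'] at h1
    exact hbc _ h1
  have hπsurj : Function.Surjective π := Finite.surjective_of_injective hπinj
  have hAεeq : ∀ i, A (ε i) = ε (π i) := by
    intro i
    ext j
    by_cases hj : j = π i
    · subst hj
      rw [hπ i, hε]
      simp
    · obtain ⟨i', hi'⟩ := hπsurj j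
      have hne : i' ≠ i := by
        rintro rfl
        exact hj hi'.symm
      have h1 := horth i' i hne j (by rw [← hi']; exact hπ i')
      rw [h1, hε]
      simp [hj]
  have hnb : ∀ i, b (π i) ^ 2 = κ * b i ^ 2 := by
    intro i
    have h1 := hnorm (ε i)
    rwa [hAεeq, hεnorm, hεnorm] at h1
  have hprod : ∏ i, b (π i) ^ 2 = ∏ i, b i ^ 2 :=
    (Equiv.ofBijective π ⟨hπinj, hπsurj⟩).prod_comp fun i => b i ^ 2
  have hκ1 : κ = 1 := by
    rw [Finset.prod_congr rfl fun i _ => hnb i, Finset.prod_mul_distrib, Finset.prod_const,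
      Finset.card_univ, Fintype.card_fin] at hprod
    have hpp : 0 < ∏ i, b i ^ 2 := Finset.prod_pos fun i _ => pow_pos (hb i) 2
    have h1 : κ ^ m = 1 := by
      apply mul_right_cancel₀ hpp.ne'
      rw [hprod, one_mul]
    have hm : m ≠ 0 := by
      rintro rfl
      exact i0.elim0
    exact (pow_eq_one_iff_of_nonneg hκpos.le hm).1 h1
  have hπid : ∀ i, π i = i := by
    intro i
    apply hbi
    have h1 := hnb i
    rw [hκ1, one_mul] at h1
    exact (pow_left_inj₀ (hb _).le (hb _).le two_ne_zero).1 h1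
  refine ⟨?_, ?_⟩
  · have hbasis : ∀ i, A (EuclideanSpace.single i (1 : ℂ)) = EuclideanSpace.single i (1 : ℂ) := by
      intro i
      have h1 := hAεeq i
      rw [hπid i] at h1
      have h2 : ε i = (b i : ℂ) • EuclideanSpace.single i (1 : ℂ) := by
        ext j
        by_cases hij : j = i
        · subst hij; simp [hε]
        · simp [hε, hij]
      rw [h2, map_smul] at h1
      exact (smul_right_injective _ (hbc i)) h1
    intro w
    have hw : w = ∑ i, w i • EuclideanSpace.single i (1 : ℂ) := by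
      ext j
      simp [Pi.single_apply]
    calc A w = A (∑ i, w i • EuclideanSpace.single i (1 : ℂ)) := by rw [← hw]
      _ = ∑ i, w i • EuclideanSpace.single i (1 : ℂ) := by
          rw [map_sum]
          apply Finset.sum_congr rfl
          intro i _
          rw [map_smul, hbasis]
      _ = w := hw.symm
  · rw [hκ, div_eq_one_iff_eq hT.ne'] at hκ1
    exact hκ1

end H73SK
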