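import Mathlib
import Pool.Agent.H73.SK.Linear
import Pool.Agent.H73.SK.Stabil
import Pool.Agent.H73.SK.Classify

/-! Rigid gauges: all biholomorphic maps are the identity in the fibre variable. -/

open Filter Topology Set Metric

namespace H73SK

variable {m : ℕ} {b : Fin m → ℝ}

lemma nontrivial_Em (hm : m ≠ 0) : Nontrivial (EuclideanSpace ℂ (Fin m)) := by
  obtain ⟨k, rfl⟩ := Nat.exists_eq_succ_of_ne_zero hm
  refine ⟨0, EuclideanSpace.single 0 1, fun h => ?_⟩
  have h1 := congrArg (fun v : EuclideanSpace ℂ (Fin (k + 1)) => v 0) h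
  simp at h1

namespace Pair

variable {D D' : Data} {F G : ℂ × EuclideanSpace ℂ (Fin m) → ℂ × EuclideanSpace ℂ (Fin m)}
  {α β : ℂ}

/-- small multiples lie in the domain -/
lemma exists_small {E : Type*} [NormedAddCommGroup E] [NormedSpace ℂ E] {D : Data} {V : E → ℝ}
    (hV : Gauge V) (x : ℂ) (w : E) : ∃ t : ℝ, 0 < t ∧ ((x, (t : ℂ) • w) : ℂ × E) ∈ D.dom V := by
  have hc : Tendsto (fun t : ℝ => ((x, (t : ℂ) • w) : ℂ × E)) (𝓝 0) (𝓝 (x, (0 : E))) := by
    have h1 : Continuous fun t : ℝ => ((x, (t : ℂ) • w) : ℂ × E) := by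
      have : Continuous fun t : ℝ => (t : ℂ) • w :=
        (Complex.continuous_ofReal).smul continuous_const
      exact continuous_const.prodMk this
    have h2 := h1.tendsto 0
    simpa using h2
  have h3 : ∀ᶠ t : ℝ in 𝓝[>] 0, ((x, (t : ℂ) • w) : ℂ × E) ∈ D.dom V :=
    (hc.mono_left nhdsWithin_le_nhds) ((D.isOpen_dom hV).mem_nhds (D.mem_dom_zero hV x))
  obtain ⟨t, ht, htpos⟩ := (h3.and self_mem_nhdsWithin).exists
  exact ⟨t, htpos, ht⟩

lemma comp_id {E : Type*} [NormedAddCommGroup E] [NormedSpace ℂ E] {D D' : Data} {V V' : E → ℝ}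
    {F G : ℂ × E → ℂ × E} (P : Pair D D' V V' F G) {α β : ℂ}
    (hbase : ∀ p ∈ D.dom V, (F p).1 = α * p.1 + β) {x : ℂ} {A B : E →L[ℂ] E}
    (hA : ∀ w : E, ((x, w) : ℂ × E) ∈ D.dom V → (F (x, w)).2 = A w)
    (hB : ∀ w : E, ((α * x + β, w) : ℂ × E) ∈ D'.dom V' → (G (α * x + β, w)).2 = B w) (w : E) :
    B (A w) = w := by
  have key : ∀ w : E, ((x, w) : ℂ × E) ∈ D.dom V → B (A w) = w := by
    intro w hw
    have h1 : F (x, w) = (α * x + β, A w) := Prod.ext (hbase _ hw) (hA w hw)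
    have h2 := P.mF hw
    rw [h1] at h2
    have h3 := P.gf _ hw
    rw [h1] at h3
    rw [← hB _ h2, h3]
  obtain ⟨t, ht, hmem⟩ := exists_small (D := D) P.hV x w
  have h1 := key _ hmem
  rw [map_smul, map_smul] at h1
  exact smul_right_injective E (by exact_mod_cast ht.ne' : (t : ℂ) ≠ 0) h1

/-- on a fibre of positive weight the map is the identity in the fibre variable and the weights
agree -/
lemma fibre_id (hm : m ≠ 0) (hb : ∀ i, 0 < b i) (hbi : Function.Injective b)
    (P : Pair D D' (Vq b) (Vq b) F G) (hα : α ≠ 0)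
    (hbase : ∀ p ∈ D.dom (Vq b), (F p).1 = α * p.1 + β) {x : ℂ} (hx : 0 < D.weight x) :
    (∀ w : EuclideanSpace ℂ (Fin m), ((x, w) : ℂ × EuclideanSpace ℂ (Fin m)) ∈ D.dom (Vq b) →
      (F (x, w)).2 = w) ∧ D'.weight (α * x + β) = D.weight x := by
  have _ := nontrivial_Em hm
  have _ : Nonempty (Fin m) := ⟨⟨0, Nat.pos_of_ne_zero hm⟩⟩
  have hQ := quadGrowth_Vq (m := m) hb
  obtain ⟨A, hA⟩ := P.linear hα hbase hQ hQ x
  have hα' := inv_ne_zero hα
  have hbase' := P.base_symm hα hbase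
  obtain ⟨B, hB⟩ := P.symm.linear hα' hbase' hQ hQ (α * x + β)
  have hW' := P.weight_pos_image hα hbase hx
  set W := D.weight x with hWdef
  set W' := D'.weight (α * x + β) with hW'def
  have hx' : α⁻¹ * (α * x + β) + -(α⁻¹ * β) = x := by
    field_simp
    ring
  have hBA : ∀ w, B (A w) = w := P.comp_id hbase hA hB
  have hAB : ∀ w, A (B w) = w := by
    apply P.symm.comp_id hbase' hB
    rw [hx']
    exact hA
  have hAsurj : Function.Surjective A := fun w => ⟨B w, hAB w⟩
  have hiff : ∀ w : EuclideanSpace ℂ (Fin m), W * Vq b w < 1 ↔ W' * Vq b (A w) < 1 := by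
    intro w
    constructor
    · intro hw
      have hmem : ((x, w) : ℂ × EuclideanSpace ℂ (Fin m)) ∈ D.dom (Vq b) := hw
      have h1 : F (x, w) = (α * x + β, A w) := Prod.ext (hbase _ hmem) (hA w hmem)
      have h2 := P.mF hmem
      rw [h1] at h2
      exact h2
    · intro hw
      have hmem : ((α * x + β, A w) : ℂ × EuclideanSpace ℂ (Fin m)) ∈ D'.dom (Vq b) := hw
      have h1 : G (α * x + β, A w) = (x, w) := by
        refine Prod.ext ?_ ?_
        · rw [hbase' _ hmem]
          exact hx'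
        · rw [hB _ hmem, hBA]
      have h2 := P.mG hmem
      rw [h1] at h2
      exact h2
  have hlevel : ∀ w : EuclideanSpace ℂ (Fin m), Vq b w ^ 2 = 1 / W ^ 2 → Vq b (A w) ^ 2 = 1 / W' ^ 2 := by
    intro w hw
    have hw1 : W * Vq b w = 1 := by
      have h1 : (W * Vq b w) ^ 2 = 1 := by
        rw [mul_pow, hw]
        field_simp
      have h2 : 0 ≤ W * Vq b w := mul_nonneg hx.le (Vq_nonneg w)
      exact (pow_eq_one_iff_of_nonneg h2 two_ne_zero).1 h1
    have hw0 : w ≠ 0 := by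
      rintro rfl
      rw [gauge_Vq.zero, mul_zero] at hw1
      exact zero_ne_one hw1
    have hge : 1 ≤ W' * Vq b (A w) := by
      by_contra hlt
      have h1 := (hiff w).2 (not_le.1 hlt)
      linarith
    have hle : W' * Vq b (A w) ≤ 1 := by
      by_contra hgt
      push Not at hgt
      have hc : Continuous fun t : ℝ => W' * Vq b (A ((t : ℂ) • w)) := by
        have h1 : Continuous fun t : ℝ => A ((t : ℂ) • w) :=
          A.continuous.comp ((Complex.continuous_ofReal).smul continuous_const)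
        exact continuous_const.mul (gauge_Vq.cont.comp h1)
      have h1 : ∀ᶠ t : ℝ in 𝓝[<] 1, 1 < W' * Vq b (A ((t : ℂ) • w)) := by
        apply nhdsWithin_le_nhds
        apply (hc.tendsto 1).eventually_const_lt
        simpa using hgt
      have h2 : ∀ᶠ t : ℝ in 𝓝[<] 1, 0 < t := nhdsWithin_le_nhds (Ioi_mem_nhds one_pos)
      obtain ⟨t, ht1, ht0, htlt⟩ := (h1.and (h2.and self_mem_nhdsWithin)).exists
      have h3 : ¬ (W * Vq b ((t : ℂ) • w) < 1) := by
        intro h4
        have h5 := (hiff _).1 h4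
        linarith
      have h6 := Vq_sq_smul_lt hb hw0 ht0.le htlt
      have h7 : Vq b ((t : ℂ) • w) < Vq b w := lt_of_pow_lt_pow_left₀ 2 (Vq_nonneg w) h6
      apply h3
      calc W * Vq b ((t : ℂ) • w) < W * Vq b w := mul_lt_mul_of_pos_left h7 hx
        _ = 1 := hw1
    have heq : W' * Vq b (A w) = 1 := le_antisymm hle hge
    have h8 : Vq b (A w) = 1 / W' := by
      rw [eq_div_iff hW'.ne', mul_comm]
      exact heq
    rw [h8, div_pow, one_pow]
  obtain ⟨hid, hT⟩ := level_trivial hb hbi hAsurj (by positivity : 0 < 1 / W ^ 2)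
    (by positivity : 0 < 1 / W' ^ 2) hlevel
  refine ⟨fun w hw => by rw [hA w hw, hid], ?_⟩
  have h1 : W' ^ 2 = W ^ 2 := by
    field_simp at hT
    exact hT.symm
  exact (pow_left_inj₀ hW'.le hx.le two_ne_zero).1 h1

theorem structureQ (hm : m ≠ 0) (hb : ∀ i, 0 < b i) (hbi : Function.Injective b)
    (P : Pair D D' (Vq b) (Vq b) F G) :
    ∃ (α β : ℂ), ‖α‖ = 1 ∧
      (∃ π : ℕ ≃ ℕ, ∀ k, D'.z (π k) = α * D.z k + β ∧ D'.c (π k) = D.c k) ∧
      ∀ p ∈ D.dom (Vq b), F p = (α * p.1 + β, p.2) := by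
  have _ := nontrivial_Em hm
  obtain ⟨α, β, hα, hbase⟩ := P.exists_affine
  have hα' : 0 < ‖α‖ := norm_pos_iff.2 hα
  have hbase' := P.base_symm hα hbase
  have hx' : ∀ x, α⁻¹ * (α * x + β) + -(α⁻¹ * β) = x := by
    intro x
    field_simp
    ring
  have hy' : ∀ y, α * (α⁻¹ * y + -(α⁻¹ * β)) + β = y := by
    intro y
    field_simp
    ring
  have hsnd : ∀ p ∈ D.dom (Vq b), (F p).2 = p.2 := by
    apply D.eq_of_dense P.hV (f := fun p => (F p).2) (g := fun p => p.2)
      P.hF.continuousOn.snd continuousOn_snd D.dense_pos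
    rintro ⟨x, w⟩ hp hx
    exact (P.fibre_id hm hb hbi hα hbase hx).1 w hp
  have hwt : ∀ x, D'.weight (α * x + β) = D.weight x := by
    intro x
    rcases eq_or_lt_of_le (D.weight_nonneg x) with h0 | h0
    · by_contra hne
      have h1 : 0 < D'.weight (α * x + β) := by
        rcases eq_or_lt_of_le (D'.weight_nonneg (α * x + β)) with h2 | h2
        · exact (hne (h2.symm.trans h0)).elim
        · exact h2
      have h3 := P.symm.weight_pos_image (inv_ne_zero hα) hbase' h1
      rw [hx'] at h3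
      exact h3.ne h0
    · exact (P.fibre_id hm hb hbi hα hbase h0).2
  have hL : LocLe D D' α β := by
    intro a
    refine ⟨1, one_pos, 1, one_pos, fun x _ => ?_⟩
    rw [hwt, one_mul]
  have hL' : LocLe D' D α⁻¹ (-(α⁻¹ * β)) := by
    intro a
    refine ⟨1, one_pos, 1, one_pos, fun y _ => ?_⟩
    rw [one_mul]
    have h1 := hwt (α⁻¹ * y + -(α⁻¹ * β))
    rw [hy'] at h1
    exact h1.le
  obtain ⟨π, hπ⟩ := exists_perm hα hL hL'
  refine ⟨α, β, ?_, ⟨π, hπ⟩, fun p hp => Prod.ext (hbase p hp) (hsnd p hp)⟩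
  obtain ⟨x1, -, hx1⟩ := D.exists_weight_pos isOpen_univ (univ_nonempty)
  have h1 := Data.weight_affine hα hπ x1
  rw [hwt] at h1
  have h2 : ‖α‖ ^ D.mass = 1 := by
    apply mul_right_cancel₀ hx1.ne'
    rw [one_mul]
    exact h1.symm
  rw [← Real.one_rpow D.mass] at h2
  exact (Real.rpow_left_inj hα'.le zero_le_one D.mass_pos.ne').1 h2

end Pair

/-- Description of all biholomorphic maps from one of the rigid domains onto another. -/
theorem biholoq_iff (hm : m ≠ 0) (hb : ∀ i, 0 < b i) (hbi : Function.Injective b) (D D' : Data)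
    (F : ℂ × EuclideanSpace ℂ (Fin m) → ℂ × EuclideanSpace ℂ (Fin m)) :
    IsBiholo F (D.dom (Vq b)) (D'.dom (Vq b)) ↔
      ∃ α β : ℂ, ‖α‖ = 1 ∧
        (∃ π : ℕ ≃ ℕ, ∀ k, D'.z (π k) = α * D.z k + β ∧ D'.c (π k) = D.c k) ∧
        ∀ p ∈ D.dom (Vq b), F p = (α * p.1 + β, p.2) := by
  constructor
  · rintro ⟨hF, mF, G, hG, mG, gf, fg⟩
    exact Pair.structureQ hm hb hbi ⟨gauge_Vq, gauge_Vq, hF, hG, mF, mG, gf, fg⟩
  · rintro ⟨α, β, hα1, ⟨π, hπ⟩, hF⟩
    have hα : α ≠ 0 := by
      rintro rfl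
      simp at hα1
    have hwt : ∀ x, D'.weight (α * x + β) = D.weight x := by
      intro x
      rw [Data.weight_affine hα hπ x, hα1, Real.one_rpow, one_mul]
    have hGm : ∀ q ∈ D'.dom (Vq b),
        ((α⁻¹ * (q.1 - β), q.2) : ℂ × EuclideanSpace ℂ (Fin m)) ∈ D.dom (Vq b) := by
      intro q hq
      have h2 : α * (α⁻¹ * (q.1 - β)) + β = q.1 := by
        rw [← mul_assoc, mul_inv_cancel₀ hα]; ring
      have h3 := hwt (α⁻¹ * (q.1 - β))
      rw [h2] at h3
      rw [D.mem_dom, ← h3]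
      exact hq
    refine ⟨?_, ?_, fun q => (α⁻¹ * (q.1 - β), q.2), ?_, hGm, ?_, ?_⟩
    · have h1 : DifferentiableOn ℂ
          (fun p : ℂ × EuclideanSpace ℂ (Fin m) => (α * p.1 + β, p.2)) (D.dom (Vq b)) := by
        apply Differentiable.differentiableOn
        fun_prop
      exact h1.congr hF
    · intro p hp
      rw [hF p hp, D'.mem_dom]
      simp only
      rw [hwt]
      exact hp
    · apply Differentiable.differentiableOn
      fun_prop
    · intro p hp
      rw [hF p hp]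
      refine Prod.ext ?_ rfl
      simp only
      rw [add_sub_cancel_right, ← mul_assoc, inv_mul_cancel₀ hα, one_mul]
    · intro q hq
      rw [hF _ (hGm q hq)]
      refine Prod.ext ?_ rfl
      simp only
      rw [← mul_assoc, mul_inv_cancel₀ hα]; ring

end H73SK
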