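import Mathlib
import Pool.Agent.H73.SK.Hull
import Pool.Agent.H73.SK.Diffeo
import Pool.Agent.H73.SK.Quad

/-! The domains are Stein. -/

open Filter Topology Set Metric

namespace H73SK

variable (D : Data) {m : ℕ}

theorem Data.isSteinDomain {E' : Type*} [NormedAddCommGroup E'] [NormedSpace ℂ E']
    {Θ : EuclideanSpace ℂ (Fin m) → E'} (hΘ : Differentiable ℂ Θ) (hV : Gauge fun w => ‖Θ w‖)
    (hsm : ContDiff ℝ (⊤ : ℕ∞) fun w => ‖Θ w‖ ^ 2)
    (hray : ∀ (w : EuclideanSpace ℂ (Fin m)) (t : ℝ), 0 ≤ t → t ≤ 1 → ‖Θ (t • w)‖ ≤ ‖Θ w‖) :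
    IsSteinDomain (D.dom fun w => ‖Θ w‖) where
  isOpen := D.isOpen_dom hV
  isConnected := D.isConnected_dom hV hsm hray
  holConvex K hKM hK := D.isCompact_holHull hΘ hV K hKM hK
  separates p _ q _ hpq := by
    obtain ⟨f, hf⟩ := SeparatingDual.exists_separating_of_ne (R := ℂ) hpq
    exact ⟨f, f.differentiable.differentiableOn, hf⟩
  coords p _ := by
    refine ⟨id, differentiable_id.differentiableOn, ?_⟩
    rw [fderiv_id]
    exact Function.bijective_id

/-- the domains with the rigid gauge are Stein -/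
theorem Data.isSteinDomain_Vq {b : Fin m → ℝ} (hb : ∀ i, 0 < b i) :
    IsSteinDomain (D.dom (Vq b)) :=
  D.isSteinDomain (Θ := Th b) differentiable_Th gauge_Vq contDiff_Vq_sq (Vq_ray hb)

/-- the domains with the norm are Stein -/
theorem Data.isSteinDomain_nrm : IsSteinDomain (D.dom (nrm (EuclideanSpace ℂ (Fin m)))) :=
  D.isSteinDomain (Θ := id) differentiable_id (gauge_norm _) (by
    have h : ContDiff ℝ (⊤ : ℕ∞) fun w : EuclideanSpace ℂ (Fin m) => ‖w‖ ^ 2 :=
      contDiff_norm_sq ℝ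
    exact h) (by
    intro w t ht0 ht1
    simp only [id]
    rw [norm_smul, Real.norm_eq_abs, abs_of_nonneg ht0]
    exact mul_le_of_le_one_left (norm_nonneg _) ht1)

theorem Data.diffeo_Vq {b : Fin m → ℝ} (hb : ∀ i, 0 < b i) : DiffeoToWhole (D.dom (Vq b)) :=
  D.diffeoToWhole gauge_Vq contDiff_Vq_sq (Vq_ray hb)

theorem Data.diffeo_nrm : DiffeoToWhole (D.dom (nrm (EuclideanSpace ℂ (Fin m)))) :=
  D.diffeoToWhole (gauge_norm _) (by
    have h : ContDiff ℝ (⊤ : ℕ∞) fun w : EuclideanSpace ℂ (Fin m) => ‖w‖ ^ 2 :=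
      contDiff_norm_sq ℝ
    exact h) (by
    intro w t ht0 ht1
    unfold nrm
    rw [norm_smul, Real.norm_eq_abs, abs_of_nonneg ht0]
    exact mul_le_of_le_one_left (norm_nonneg _) ht1)

end H73SK
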